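import Pool.Agent.NPC.Defs

/-!
# Membership comparable sets
-/

set_option autoImplicit false

namespace Pool.Agent.Helper70K1.SP

open Pool.Agent.NPC

open Classical in
/-- A set `L` of bit strings is `O(log n)`-membership comparable: a function `f`, computable in
polynomial time, gets a list of at least `c (⌊log n⌋ + 1)` strings of length at most `n` (where
`n ≥ 1` and `n.size = ⌊log n⌋ + 1` is the number of binary digits of `n`) and gives a string of
booleans, of the same length as the list, that is not the list of the truth values of the
statements `x ∈ L` for the strings `x` of the list. -/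
def LogMC (L : Set (List Bool)) : Prop :=
  ∃ (c : ℕ) (f : List Bool → List Bool), PolyTime f ∧
    ∀ (n : ℕ) (xs : List (List Bool)), 1 ≤ n → (∀ x ∈ xs, x.length ≤ n) →
      c * n.size ≤ xs.length →
        (f (bits xs)).length = xs.length ∧ f (bits xs) ≠ xs.map fun x => decide (x ∈ L)

end Pool.Agent.Helper70K1.SP
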