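import Pool.Agent.Helper70K1.SP.McPoly
import Pool.Agent.Helper70K1.SP.McDefs

/-!
# Membership comparable sets and polynomial space
-/

set_option autoImplicit false

namespace Pool.Agent.Helper70K1.SP

open Pool.Agent.NPC
open Pool.Agent.H623R2.PS (evq InPSPACE poly_replicate)
open Pool.Agent.H656R2.AK (evc QF QFwf qbf_hard)

/-- The bound for the size of the queries. -/
noncomputable def PN' (c : ℕ) : Polynomial ℕ :=
  Polynomial.C 8 * Polynomial.X * Polynomial.X + Polynomial.C (256 * c + 100) * Polynomial.X +
    Polynomial.C 200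

/-- The bound for the number of candidates. -/
noncomputable def PK' (c : ℕ) : Polynomial ℕ :=
  Polynomial.C 4 * (Polynomial.C 2 * PN' c + Polynomial.C 1) ^ (8 * c + 1)

/-- The lower bound for the modulus. -/
noncomputable def PM' (c : ℕ) : Polynomial ℕ :=
  PK' c * PK' c * Polynomial.X + Polynomial.X + Polynomial.C 2

/-- The upper bound for the modulus. -/
noncomputable def PD' (c : ℕ) : Polynomial ℕ := Polynomial.C 2 * PM' c + Polynomial.C 1

theorem PN'_eval (c m : ℕ) : (PN' c).eval m = 8 * m * m + (256 * c + 100) * m + 200 := by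
  simp [PN']

/-- The candidates. -/
noncomputable def cdH (f : List Bool → List Bool) (c : ℕ) (I : Ins) : List (List ℕ) :=
  ((listA f (fun j h i => bits ((I, j, h, i) : QryH)) (kk c ((PN' c).eval I.m))
    (ll c ((PN' c).eval I.m)) (I.m * I.m)).map (cf I.m)).filter
      fun cs => cs.all fun a => decide (a ≤ I.p)

theorem mm_le_PN' (c m : ℕ) : m * m ≤ (PN' c).eval m := by
  rw [PN'_eval]
  nlinarith

theorem length_cdH_le (f : List Bool → List Bool) (c : ℕ) (I : Ins) :
    (cdH f c I).length ≤ (PK' c).eval I.m := by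
  unfold cdH
  refine (List.length_filter_le _ _).trans ?_
  rw [List.length_map]
  refine (length_listA (e := ee c ((PN' c).eval I.m)) rfl (param_ok (mm_le_PN' c I.m)) _
    le_rfl).trans ?_
  refine (KK_le c _).trans (le_of_eq ?_)
  simp [PK']

theorem cdH_spec (f : List Bool → List Bool) (c : ℕ) (I : Ins) :
    ∀ cs ∈ cdH f c I, cs.length = I.m ∧ ∀ a ∈ cs, a ≤ I.p := by
  intro cs hcs
  rw [cdH, List.mem_filter, List.mem_map, List.all_eq_true] at hcs
  obtain ⟨⟨V, _, rfl⟩, h⟩ := hcs
  exact ⟨cf_length _ _, fun a ha => by simpa using h a ha⟩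

theorem ll_le {c N m : ℕ} (h : N < 2 ^ m) : ll c N ≤ (32 * c + 8) * m + 16 := by
  have h1 : N.size ≤ m := Nat.size_le.2 h
  have h2 : c * N.size ≤ c * m := Nat.mul_le_mul_left _ h1
  unfold ll ee kk
  nlinarith

theorem sz_queryH {m p c : ℕ} {F : List (List (Bool × ℕ))} {os : List Op} {r : List ℕ}
    {i j h i' : ℕ} (hp : p < 2 ^ m) (hF : sz F ≤ m) (hos : sz os ≤ m) (hr : r.length ≤ m)
    (hr2 : ∀ a ∈ r, a ≤ p) (hi : i < m) (hN : (PN' c).eval m < 2 ^ m) (hj : j ≤ m * m)
    (hh : h < 2 ^ ll c ((PN' c).eval m)) (hi' : i' < ll c ((PN' c).eval m)) :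
    sz ((((List.replicate m (), p, F, os, r, i) : Ins), j, h, i') : QryH) ≤ (PN' c).eval m := by
  have h3 : sz r ≤ m * (4 * m + 2) + 1 := by
    refine (sz_le_length_mul r (4 * m + 1) fun a ha => sz_lt_two_pow (by
      have := hr2 a ha
      omega)).trans ?_
    exact Nat.add_le_add_right (Nat.mul_le_mul_right _ hr) _
  have h4 := sz_lt_two_pow (a := i) (m := m) (hi.trans Nat.lt_two_pow_self)
  have h5 := sz_lt_two_pow hp
  have h6 : sz j ≤ 4 * (m * m) + 1 := by
    have h7 := sz_nat_le j
    have h8 := Poly.size_le_self j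
    omega
  have h7 := sz_lt_two_pow hh
  have h8 := sz_lt_two_pow (hi'.trans Nat.lt_two_pow_self)
  have h9 := ll_le (c := c) hN
  simp only [sz_pair, sz_replicate, PN'_eval] at *
  nlinarith

theorem collapse_of_mc (h : LogMC LH) {L : Set (List Bool)} (hL : InPSPACE L) : InP L := by
  classical
  obtain ⟨c, f, hf, hmc⟩ := h
  obtain ⟨g, hg, hgwf, hgL⟩ := qbf_hard hL
  -- the size parameter
  have hbig : NPC.Poly (fun x : List Bool => ((g x).2, (opsQ (g x).1.length 0 (g x).1,
      (g x).1))) := by
    have h1 : NPC.Poly (fun x : List Bool => (g x).1) := NPC.Poly.fst hg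
    have h2 := poly_opsQ h1
    fun_prop
  obtain ⟨r1, hr1⟩ := hbig.sz_le
  obtain ⟨c0, hc0⟩ := poly_lt_two_pow (PD' c + PN' c)
  set mm : List Bool → ℕ := fun x => r1.eval (4 * x.length + 1) + 10 + c0 with hmm
  have hmmU : UPoly mm := by
    refine UPoly.add (UPoly.add ?_ (UPoly.const 10)) (UPoly.const c0)
    exact (UPoly.add (UPoly.mul (UPoly.const 4) (UPoly.length NPC.Poly.id))
      (UPoly.const 1)).eval r1
  set pp : List Bool → ℕ := fun x => findP ((PM' c).eval (mm x)) - 1 with hpp
  have hppP : NPC.Poly pp := by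
    have := poly_findP (hmmU.eval (PM' c))
    fun_prop
  set WW : List Bool → List Unit := fun x => List.replicate (mm x) () with hWW
  have hWWP : NPC.Poly WW := hmmU
  have hWWl : ∀ x, (WW x).length = mm x := fun x => by rw [hWW]; simp
  set rr : List Bool → List ℕ := fun x => List.replicate (g x).1.length 0 with hrr
  have hrrP : NPC.Poly rr := poly_replicate (UPoly.length (NPC.Poly.fst hg)) 0
  set dec : List Bool → Bool := fun x => decide (runG (pp x) ((PD' c).eval (mm x))
    (fun r => leafN (pp x) (g x).2 r) (fun o y u w => combN (pp x) o y u w)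
    (fun os r i => cdH f c (WW x, pp x, (g x).2, os, r, i)) (opsQ (g x).1.length 0 (g x).1) (rr x) %
      (pp x + 1) = 1) with hdec
  have hdecP : NPC.Poly dec := by
    have hI : NPC.Poly (fun x : List Bool × List Op × List ℕ × ℕ =>
        ((WW x.1, pp x.1, (g x.1).2, x.2.1, x.2.2.1, x.2.2.2) : Ins)) := by
      have := hWWP.comp (f := fun x : List Bool × List Op × List ℕ × ℕ => x.1)
        (NPC.Poly.fst NPC.Poly.id)
      fun_prop
    have hcdP : NPC.Poly (fun x : List Bool × List Op × List ℕ × ℕ =>
        cdH f c (WW x.1, pp x.1, (g x.1).2, x.2.1, x.2.2.1, x.2.2.2)) := by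
      unfold cdH
      refine NPC.Poly.filter (p := fun (x : List Bool × List Op × List ℕ × ℕ) cs =>
        cs.all fun a => decide (a ≤ Ins.p (WW x.1, pp x.1, (g x.1).2, x.2.1, x.2.2.1, x.2.2.2)))
        (NPC.Poly.map (F := fun (x : List Bool × List Op × List ℕ × ℕ) V =>
          cf (Ins.m (WW x.1, pp x.1, (g x.1).2, x.2.1, x.2.2.1, x.2.2.2)) V) ?_ ?_) ?_
      · refine poly_listA hf (qb := fun (x : List Bool × List Op × List ℕ × ℕ) j h i =>
          bits (((WW x.1, pp x.1, (g x.1).2, x.2.1, x.2.2.1, x.2.2.2), j, h, i) : QryH)) ?_ c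
          ((uPoly_m hI).eval (PN' c)) (UPoly.mul (uPoly_m hI) (uPoly_m hI)) fun a =>
            mm_le_PN' c _
        refine poly_bits ?_
        exact NPC.Poly.pair (hI.comp (f := fun x : (List Bool × List Op × List ℕ × ℕ) ×
          ℕ × ℕ × ℕ => x.1) (NPC.Poly.fst NPC.Poly.id)) (NPC.Poly.snd NPC.Poly.id)
      · exact poly_cf ((uPoly_m hI).comp (NPC.Poly.fst NPC.Poly.id)) (NPC.Poly.snd NPC.Poly.id)
      · have h1 := (poly_p hI).comp (f := fun x : (List Bool × List Op × List ℕ × ℕ) ×
          List ℕ => x.1) (NPC.Poly.fst NPC.Poly.id)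
        fun_prop
    have hF : NPC.Poly (fun x : List Bool => (g x).2) := NPC.Poly.snd hg
    have h1 := poly_runG (p := pp) (D := fun x => (PD' c).eval (mm x))
      (lv := fun x r => leafN (pp x) (g x).2 r) (cm := fun x o y u w => combN (pp x) o y u w)
      (cd := fun x os r i => cdH f c (WW x, pp x, (g x).2, os, r, i)) hppP
      (hmmU.eval (PD' c)) hcdP (by
        exact poly_leafN (p := fun x : List Bool × List ℕ => pp x.1) (F := fun x => (g x.1).2)
          (r := fun x => x.2) (by fun_prop) (by fun_prop) (by fun_prop))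
      (fun x r => leafN_le _ _ _) (by
        exact poly_combN (p := fun x : List Bool × Option Bool × ℕ × ℕ × ℕ => pp x.1)
          (x := fun x => x.2.2.1) (u := fun x => x.2.2.2.1) (w := fun x => x.2.2.2.2)
          (o := fun x => x.2.1) (by fun_prop) (by fun_prop) (by fun_prop) (by fun_prop)
          (by fun_prop))
      (fun x o y u w => (combN_le _ _ _ _ _).trans (Nat.le_succ _))
      (os := fun x => opsQ (g x).1.length 0 (g x).1) (r := rr)
      (poly_opsQ (NPC.Poly.fst hg)) hrrP
    exact NPC.Poly.dec_eq (NPC.Poly.mod h1 (by fun_prop)) (NPC.Poly.const 1)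
  refine ⟨fun x => [dec x], polyTime_of_poly hdecP, fun x => ?_⟩
  -- correctness
  set m := mm x with hm
  have hsz : sz (g x).2 + sz (opsQ (g x).1.length 0 (g x).1) + sz (g x).1 + 10 + c0 ≤ m := by
    have h1 := hr1 x
    have h2 := sz_listBool_le x
    have h3 := eval_mono r1 h2
    simp only [sz_pair] at h1
    rw [hm, hmm]
    simp only
    omega
  have hn : (g x).1.length < sz (g x).1 := length_lt_sz _
  have hpow := hc0 m (by omega)
  rw [Polynomial.eval_add] at hpow
  have hfp := findP_spec (M := (PM' c).eval m) (by simp [PM'])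
  have hpx : pp x = findP ((PM' c).eval m) - 1 := rfl
  have hPM : (PM' c).eval m = (PK' c).eval m * (PK' c).eval m * m + m + 2 := by
    simp [PM']
  have hPD : (PD' c).eval m = 2 * (PM' c).eval m + 1 := by simp [PD']
  have hp1 : pp x + 1 = findP ((PM' c).eval m) := by omega
  have hprime : Fact (pp x + 1).Prime := ⟨by rw [hp1]; exact hfp.1⟩
  set p := pp x with hp
  have hpm : p < 2 ^ m := by omega
  have hdegleaf : (((g x).2).map List.length).sum + 2 < m := by
    have key : ∀ F : List (List (Bool × ℕ)), (F.map List.length).sum + 1 ≤ sz F := by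
      intro F
      induction F with
      | nil => simp
      | cons c F ih =>
        have := length_lt_sz c
        simp only [List.map_cons, List.sum_cons, sz_list_cons]
        omega
    have := key (g x).2
    omega
  have hrc := runG_correct (p := p) (D := (PD' c).eval m) (m := m) (n := (g x).1.length)
    (K := (PK' c).eval m) (lv := fun r => leafN p (g x).2 r)
    (cm := fun o y u w => combN p o y u w)
    (cd := fun os r i => cdH f c (WW x, p, (g x).2, os, r, i))
    (vf := val (leafC (g x).2)) (os0 := opsQ (g x).1.length 0 (g x).1) (by omega) (by omega)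
    (by omega) (opsQ_idx _ _ _ (by omega)) (fun r _ _ => cast_leafN p (g x).2 r) ?_ ?_
    (opsQ (g x).1.length 0 (g x).1) (rr x) List.suffix_rfl (by rw [hrr]; simp) (by
      intro a ha
      rw [hrr] at ha
      simp only at ha
      rw [List.eq_of_mem_replicate ha]
      exact Nat.zero_le _)
  · -- the final equivalence
    rw [hgL x]
    have e1 : pt p (rr x) = fun _ => (0 : ZMod (p + 1)) := by
      funext i
      unfold pt
      rw [hrr]
      simp only
      by_cases hi : i < (g x).1.length
      · rw [List.getD_eq_getElem _ _ (by simpa using hi)]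
        simp
      · rw [List.getD_eq_getElem?_getD, List.getElem?_eq_none (by simpa using hi)]
        simp
    rw [e1, val_ops] at hrc
    have h2 : ∀ y : ℕ, y % (p + 1) = 1 ↔ (y : ZMod (p + 1)) = 1 := by
      intro y
      have h3 := ZMod.natCast_eq_natCast_iff' y 1 (p + 1)
      rw [Nat.mod_eq_of_lt (a := 1) (by have := hprime.out.one_lt; omega), Nat.cast_one] at h3
      exact h3.symm
    simp only [List.cons.injEq, and_true, hdec, decide_eq_true_eq]
    rw [h2, hrc]
    unfold bit
    split_ifs with hb
    · simp [hb]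
    · simp [hb]
  · -- the combinations
    rintro ⟨o, i⟩ os r u w hrl hra hi hu hw
    simp only
    rw [cast_combN, hu, hw]
    rfl
  · -- the candidates
    intro os r i hos hne hrl hra hi
    set I : Ins := (WW x, p, (g x).2, os, r, i) with hI
    have hIm : I.m = m := by
      change (WW x).length = m
      rw [hWWl]
    have hIp : I.p = p := rfl
    have hW : WW x = List.replicate m () := rfl
    have hwf : Wf I := ⟨by rw [hIm]; exact hpm, by
      change i < r.length
      omega, fun o ho => by
      change o.2 < r.length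
      rw [hrl]
      exact opsQ_idx _ _ 0 (by omega) o (hos.subset ho)⟩
    have hprime' : Fact (I.p + 1).Prime := hprime
    obtain ⟨V, hV⟩ := good_exists (I := I) (by rw [hIm]; exact hpm)
      (allDeg_suffix (R := ZMod (p + 1)) (d := (((g x).2).map List.length).sum + 2)
        (by omega) (fun i _ => (degLE_leafC (g x).2 i).mono (by omega)) _ _ os hos i hi)
      (by rw [hIm]; exact hdegleaf)
    refine ⟨?_, ?_, cf I.m V, ?_, hV.2.2⟩
    · have h1 := length_cdH_le f c I
      rw [hIm] at h1
      exact h1
    · intro cs hcs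
      have h1 := cdH_spec f c I cs hcs
      rw [hIm, hIp] at h1
      exact h1
    · unfold cdH
      rw [List.mem_filter, List.mem_map, List.all_eq_true]
      refine ⟨⟨V, ?_, rfl⟩, fun a ha => by simpa using hV.2.1 a ha⟩
      have h1 := mem_listA (f := f) (qb := fun j h i => bits ((I, j, h, i) : QryH))
        (k := kk c ((PN' c).eval I.m)) (l := ll c ((PN' c).eval I.m)) (L := LH) (V := V)
        (μ := I.m * I.m) ?_ ?_ (I.m * I.m) le_rfl
      · rwa [Nat.mod_eq_of_lt hV.1] at h1
      · intro j h i
        rw [mem_LH hwf]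
        constructor
        · rintro ⟨V', h1, h2⟩
          rwa [good_unique (I := I) (by rw [hIm, hIp]; omega) hV h1]
        · intro h1
          exact ⟨V, hV, h1⟩
      · intro j hj h hh ps hps hlen
        rw [← hlen]
        have h1 := hmc ((PN' c).eval I.m) (ps.map fun i => bits ((I, j, h, i) : QryH))
          (by rw [PN'_eval]; omega) ?_ (by
            rw [List.length_map, hlen]
            exact le_rfl)
        · rw [List.length_map] at h1
          exact h1
        · intro y hy
          obtain ⟨i', hi', rfl⟩ := List.mem_map.1 hy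
          rw [bits_length, hIm, hI, hW]
          rw [hIm] at hh hps hj
          exact sz_queryH hpm (by omega) ((sz_suffix hos).trans (by omega)) (by omega) hra
            (by omega) (by omega) hj hh (hps i' hi')

theorem mc_of_inP {L : Set (List Bool)} (h : InP L) : LogMC L := by
  classical
  obtain ⟨V, hV, hVL⟩ := h
  have h1 : NPC.Poly (fun x : List Bool => (unbits (List (List Bool)) x).getD []) :=
    NPC.Poly.optGetD poly_unbits (NPC.Poly.const _)
  have h2 : NPC.Poly (fun x : List Bool => ((unbits (List (List Bool)) x).getD []).map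
      fun y => !decide (V y = [true])) := by
    refine NPC.Poly.map (F := fun _ y => !decide (V y = [true])) h1 ?_
    have h3 : NPC.Poly (fun x : List Bool × List Bool => V x.2) :=
      (poly_of_polyTime hV).comp (NPC.Poly.snd NPC.Poly.id)
    exact NPC.Poly.not (NPC.Poly.dec_eq h3 (NPC.Poly.const [true]))
  refine ⟨1, _, polyTime_of_typed h2, fun n xs hn _ hxs => ?_⟩
  rw [unbits_bits]
  refine ⟨by simp, fun hcon => ?_⟩
  have h3 : 0 < n.size := Nat.size_pos.2 hn
  cases xs with
  | nil =>
    rw [List.length_nil] at hxs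
    omega
  | cons x xs =>
    simp only [Option.getD_some, List.map_cons, List.cons.injEq] at hcon
    have h4 := hcon.1
    have h5 : decide (V x = [true]) = decide (x ∈ L) := by
      rw [decide_eq_decide]
      exact (hVL x).symm
    rw [← h5] at h4
    cases h6 : decide (V x = [true]) <;> rw [h6] at h4 <;> simp at h4

theorem mc_iff : (∀ L : Set (List Bool), InPSPACE L → LogMC L) ↔
    ∀ L : Set (List Bool), InPSPACE L → InP L :=
  ⟨fun h _ hL => collapse_of_mc (h _ inPSPACE_LH) hL, fun h _ hL => mc_of_inP (h _ hL)⟩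

end Pool.Agent.Helper70K1.SP
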