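import Pool.Agent.Helper70K1.SP.Main

/-!
# The algorithm, for an arbitrary source of candidates
-/

set_option autoImplicit false

namespace Pool.Agent.Helper70K1.SP

open Pool.Agent.NPC

/-- One backward step. -/
def stepG (p : ℕ) (cm : Option Bool → ℕ → ℕ → ℕ → ℕ) (e : Ent) (y : ℕ) : ℕ :=
  cm e.1.1 e.2.1
    (evalN p (((e.2.2.2.filter fun c => decide (evalN p c e.2.2.1 = y % (p + 1))).head?).getD []) 0)
    (evalN p (((e.2.2.2.filter fun c => decide (evalN p c e.2.2.1 = y % (p + 1))).head?).getD []) 1)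

/-- The recursive evaluation, with values `lv` at the leaves, combinations `cm` and candidates
`cd`. -/
def runG (p D : ℕ) (lv : List ℕ → ℕ) (cm : Option Bool → ℕ → ℕ → ℕ → ℕ)
    (cd : List Op → List ℕ → ℕ → List (List ℕ)) : List Op → List ℕ → ℕ
  | [], r => lv r
  | o :: os, r => stepG p cm (o, r.getD o.2 0, sep D p (cd os r o.2), cd os r o.2)
      (runG p D lv cm cd os (r.set o.2 (sep D p (cd os r o.2))))

/-- Correctness of the recursive evaluation. The value function is `vf`; the instances that occur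
satisfy `Ok`, and the list of coefficients of an instance is given by `co`. -/
theorem runG_correct {p D m n K : ℕ} [Fact (p + 1).Prime] {lv : List ℕ → ℕ}
    {cm : Option Bool → ℕ → ℕ → ℕ → ℕ} {cd : List Op → List ℕ → ℕ → List (List ℕ)}
    {vf : List Op → (ℕ → ZMod (p + 1)) → ZMod (p + 1)} {os0 : List Op}
    (hp1 : 1 ≤ p) (hK : K * K * m ≤ p) (hD : p < D) (hidx : ∀ o ∈ os0, o.2 < n)
    (hlv : ∀ r : List ℕ, r.length = n → (∀ a ∈ r, a ≤ p) →
      ((lv r : ℕ) : ZMod (p + 1)) = vf [] (pt p r))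
    (hcm : ∀ (o : Op) (os : List Op) (r : List ℕ) (u w : ℕ), r.length = n → (∀ a ∈ r, a ≤ p) →
      o.2 < n → (u : ZMod (p + 1)) = vf os (Function.update (pt p r) o.2 0) →
      (w : ZMod (p + 1)) = vf os (Function.update (pt p r) o.2 1) →
      ((cm o.1 (r.getD o.2 0) u w : ℕ) : ZMod (p + 1)) = vf (o :: os) (pt p r))
    (hcd : ∀ (os : List Op) (r : List ℕ) (i : ℕ), os <:+ os0 → os ≠ os0 → r.length = n →
      (∀ a ∈ r, a ≤ p) → i < n → (cd os r i).length ≤ K ∧
        (∀ c ∈ cd os r i, c.length = m ∧ ∀ a ∈ c, a ≤ p) ∧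
        ∃ c ∈ cd os r i, ∀ t ≤ p, vf os (Function.update (pt p r) i (t : ZMod (p + 1))) =
          ((evalN p c t : ℕ) : ZMod (p + 1))) :
    ∀ (os : List Op) (r : List ℕ), os <:+ os0 → r.length = n → (∀ a ∈ r, a ≤ p) →
      ((runG p D lv cm cd os r : ℕ) : ZMod (p + 1)) = vf os (pt p r)
  | [], r, _, hr, hra => hlv r hr hra
  | o :: os, r, hs, hr, hra => by
    have hs' : os <:+ os0 := (List.suffix_cons o os).trans hs
    have hne : os ≠ os0 := by
      rintro rfl
      have := hs.length_le
      simp at this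
    have hi : o.2 < n := hidx o (hs.subset List.mem_cons_self)
    obtain ⟨h1, h2, c, hc, hg⟩ := hcd os r o.2 hs' hne hr hra hi
    set C := cd os r o.2 with hC
    have hsep := sep_spec (D := D) (p := p) (C := C) (m := m) (K := K) h2 h1 hK hD
    set t := sep D p C with ht
    have htp : t ≤ p := sep_le _ _ _
    have hrs : (r.set o.2 t).length = n := by rw [List.length_set, hr]
    have hrs2 : ∀ a ∈ r.set o.2 t, a ≤ p := fun a ha => by
      rcases List.mem_or_eq_of_mem_set ha with h | h
      · exact hra a h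
      · exact h ▸ htp
    have ih := runG_correct hp1 hK hD hidx hlv hcm hcd os (r.set o.2 t) hs' hrs hrs2
    rw [pt_set (by rw [hr]; exact hi), hg t htp] at ih
    have hy : evalN p c t = runG p D lv cm cd os (r.set o.2 t) % (p + 1) := by
      refine cast_inj_of_le (evalN_le _ _ _) (Nat.lt_succ_iff.1 (Nat.mod_lt _ (Nat.succ_pos p))) ?_
      rw [cast_mod, ih]
    have hfind : ((C.filter fun c => decide (evalN p c t =
        runG p D lv cm cd os (r.set o.2 t) % (p + 1))).head?).getD [] = c := by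
      cases hfl : (C.filter fun c => decide (evalN p c t =
        runG p D lv cm cd os (r.set o.2 t) % (p + 1))) with
      | nil =>
        have : c ∈ (C.filter fun c => decide (evalN p c t =
            runG p D lv cm cd os (r.set o.2 t) % (p + 1))) :=
          List.mem_filter.2 ⟨hc, by simpa using hy⟩
        rw [hfl] at this
        simp at this
      | cons c' l =>
        have : c' ∈ (C.filter fun c => decide (evalN p c t =
            runG p D lv cm cd os (r.set o.2 t) % (p + 1))) := by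
          rw [hfl]; exact List.mem_cons_self
        rw [List.mem_filter, decide_eq_true_eq] at this
        simp only [List.head?_cons, Option.getD_some]
        exact hsep c' this.1 c hc (this.2.trans hy.symm)
    have hrun : runG p D lv cm cd (o :: os) r = cm o.1 (r.getD o.2 0)
        (evalN p c 0) (evalN p c 1) := by
      rw [runG, ← hC, ← ht, stepG]
      simp only [hfind]
    rw [hrun]
    refine hcm o os r _ _ hr hra hi ?_ ?_
    · rw [← hg 0 (by omega), Nat.cast_zero]
    · rw [← hg 1 hp1, Nat.cast_one]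

/-! ### The recursion as two folds -/

/-- A forward step. -/
def fwdG (p D : ℕ) (cd : List Op → List ℕ → ℕ → List (List ℕ))
    (s : List Op × List ℕ × List Ent) : List Op × List ℕ × List Ent :=
  s.1.head?.elim s fun o =>
    (s.1.tail, s.2.1.set o.2 (sep D p (cd s.1.tail s.2.1 o.2)),
      (o, s.2.1.getD o.2 0, sep D p (cd s.1.tail s.2.1 o.2), cd s.1.tail s.2.1 o.2) :: s.2.2)

theorem fwdG_run (p D : ℕ) (lv : List ℕ → ℕ) (cm : Option Bool → ℕ → ℕ → ℕ → ℕ)
    (cd : List Op → List ℕ → ℕ → List (List ℕ)) : ∀ (os : List Op) (r : List ℕ) (tr : List Ent),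
    ((fwdG p D cd)^[os.length] (os, r, tr)).2.2.foldl (fun y e => stepG p cm e y)
      (lv ((fwdG p D cd)^[os.length] (os, r, tr)).2.1) =
      tr.foldl (fun y e => stepG p cm e y) (runG p D lv cm cd os r)
  | [], r, tr => rfl
  | o :: os, r, tr => by
    rw [List.length_cons, Function.iterate_succ_apply]
    exact fwdG_run p D lv cm cd os (r.set o.2 (sep D p (cd os r o.2)))
      ((o, r.getD o.2 0, sep D p (cd os r o.2), cd os r o.2) :: tr)

section Poly

variable {α : Type} [TEnc α] {p D : α → ℕ} {lv : α → List ℕ → ℕ}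
  {cm : α → Option Bool → ℕ → ℕ → ℕ → ℕ} {cd : α → List Op → List ℕ → ℕ → List (List ℕ)}

theorem poly_fwdG (hp : NPC.Poly p) (hD : UPoly D)
    (hcd : NPC.Poly (fun x : α × List Op × List ℕ × ℕ => cd x.1 x.2.1 x.2.2.1 x.2.2.2)) :
    NPC.Poly (fun x : α × List Op × List ℕ × List Ent => fwdG (p x.1) (D x.1) (cd x.1) x.2) := by
  unfold fwdG
  refine NPC.Poly.optElim (o := fun x : α × List Op × List ℕ × List Ent => x.2.1.head?)
    (h := fun x (o : Op) => (x.2.1.tail, x.2.2.1.set o.2 (sep (D x.1) (p x.1)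
      (cd x.1 x.2.1.tail x.2.2.1 o.2)), (o, x.2.2.1.getD o.2 0, sep (D x.1) (p x.1)
        (cd x.1 x.2.1.tail x.2.2.1 o.2), cd x.1 x.2.1.tail x.2.2.1 o.2) :: x.2.2.2))
    (by fun_prop) (by fun_prop) ?_
  have h1 : NPC.Poly (fun x : (α × List Op × List ℕ × List Ent) × Op =>
      cd x.1.1 x.1.2.1.tail x.1.2.2.1 x.2.2) :=
    hcd.comp (f := fun x : (α × List Op × List ℕ × List Ent) × Op =>
      (x.1.1, x.1.2.1.tail, x.1.2.2.1, x.2.2)) (by fun_prop)
  have h2 : NPC.Poly (fun x : (α × List Op × List ℕ × List Ent) × Op =>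
      sep (D x.1.1) (p x.1.1) (cd x.1.1 x.1.2.1.tail x.1.2.2.1 x.2.2)) :=
    poly_sep (hD.comp (NPC.Poly.fst (NPC.Poly.fst NPC.Poly.id)))
      (hp.comp (NPC.Poly.fst (NPC.Poly.fst NPC.Poly.id))) h1
  fun_prop

theorem inv_stepG {p D : ℕ} {cd : List Op → List ℕ → ℕ → List (List ℕ)} {qc : Polynomial ℕ}
    {za : ℕ} (hqc : ∀ os r i, sz (cd os r i) ≤ qc.eval (za + sz os + sz r + sz i + 5)) {X n k : ℕ}
    (hX : za + sz p ≤ X) (hn : n ≤ X) {s : List Op × List ℕ × List Ent}
    (h : Inv X n k (10 * X + qc.eval (2 * X * X + 5 * X + 10) + 10) s) :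
    Inv X n (k + 1) (10 * X + qc.eval (2 * X * X + 5 * X + 10) + 10) (fwdG p D cd s) := by
  obtain ⟨h1, h2, h3, h4, h5⟩ := h
  unfold fwdG
  cases ho : s.1.head? with
  | none => exact ⟨h1, h2, h3, by simp only [Option.elim_none]; omega, h5⟩
  | some o =>
    rw [Option.elim_some]
    set C := cd s.1.tail s.2.1 o.2 with hC
    have ho1 : sz o < sz s.1 := sz_le_of_mem (mem_head?_of_eq ho)
    have ho2 : sz o = sz o.1 + sz o.2 + 1 := by rw [← sz_pair]
    have h6 : sz s.1.tail ≤ sz s.1 := sz_tail_le s.1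
    have h7 : sz s.2.1 ≤ X * (2 * X + 1) + 1 := by
      refine (sz_le_length_mul _ _ h3).trans ?_
      rw [h2]
      exact Nat.add_le_add_right (Nat.mul_le_mul_right _ hn) _
    have h8 : sz C ≤ qc.eval (2 * X * X + 5 * X + 10) := by
      refine (hqc s.1.tail s.2.1 o.2).trans (eval_mono _ ?_)
      nlinarith
    have ht : sz (sep D p C) ≤ 2 * X := by
      have := sz_nat_mono_le (sep_le D p C)
      omega
    have hg : sz (s.2.1.getD o.2 0) ≤ 2 * X + 1 := by
      rw [List.getD_eq_getElem?_getD]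
      cases h9 : s.2.1[o.2]? with
      | none => simp [sz_nat]
      | some x =>
        have := h3 x (List.mem_of_getElem? h9)
        simp only [Option.getD_some]
        omega
    refine ⟨h6.trans h1, by simp only [List.length_set]; exact h2, fun x hx => ?_, ?_, fun e he => ?_⟩
    · rcases List.mem_or_eq_of_mem_set hx with h9 | h9
      · exact h3 x h9
      · rw [h9]; exact ht
    · simp only [List.length_cons]; omega
    · simp only at he
      rcases List.mem_cons.1 he with h9 | h9
      · rw [h9]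
        simp only [sz_pair]
        have : sz o = sz o.1 + sz o.2 + 1 := ho2
        omega
      · exact h5 e h9

theorem inv_iterG {p D : ℕ} {cd : List Op → List ℕ → ℕ → List (List ℕ)} {qc : Polynomial ℕ}
    {za : ℕ} (hqc : ∀ os r i, sz (cd os r i) ≤ qc.eval (za + sz os + sz r + sz i + 5))
    {os : List Op} {r : List ℕ} {X : ℕ} (hX : za + sz p + sz os + sz r ≤ X) : ∀ k : ℕ,
    Inv X r.length k (10 * X + qc.eval (2 * X * X + 5 * X + 10) + 10)
      ((fwdG p D cd)^[k] (os, r, []))
  | 0 => ⟨by simp only [Function.iterate_zero, id_eq]; omega, rfl, fun x hx => by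
      have := sz_le_of_mem hx
      simp only [Function.iterate_zero, id_eq] at this
      omega, by simp, by simp⟩
  | k + 1 => by
    rw [Function.iterate_succ_apply']
    have h1 := length_lt_sz r
    exact inv_stepG hqc (by omega) (by omega) (inv_iterG hqc hX k)

theorem poly_iterG (hp : NPC.Poly p) (hD : UPoly D)
    (hcd : NPC.Poly (fun x : α × List Op × List ℕ × ℕ => cd x.1 x.2.1 x.2.2.1 x.2.2.2))
    {os : α → List Op} (hos : NPC.Poly os) {r : α → List ℕ} (hr : NPC.Poly r) :
    NPC.Poly (fun a => (fwdG (p a) (D a) (cd a))^[(os a).length] (os a, r a, [])) := by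
  obtain ⟨qc, hqc⟩ := hcd.sz_le
  have htup : NPC.Poly (fun a => (p a, (os a, r a))) := by fun_prop
  obtain ⟨q0, hq0⟩ := htup.sz_le
  set PE : Polynomial ℕ := Polynomial.C 10 * Polynomial.X +
    qc.comp (Polynomial.C 2 * Polynomial.X * Polynomial.X + Polynomial.C 5 * Polynomial.X +
      Polynomial.C 10) + Polynomial.C 10 with hPE
  set PT : Polynomial ℕ := Polynomial.X + (Polynomial.X * (Polynomial.C 2 * Polynomial.X +
    Polynomial.C 1) + Polynomial.C 1) + (Polynomial.X * (PE + Polynomial.C 1) + Polynomial.C 1) +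
      Polynomial.C 2 with hPT
  refine NPC.Poly.iterLen (s := fun a => (os a, r a, ([] : List Ent))) (F := fun a s =>
    fwdG (p a) (D a) (cd a) s) hos (by fun_prop) (poly_fwdG hp hD hcd)
    (PT.comp (q0 + Polynomial.X)) ?_
  intro a k hk
  have h1 := hq0 a
  simp only [sz_pair] at h1
  set X := q0.eval (sz a) + sz a with hX
  have hqc' : ∀ os r i, sz (cd a os r i) ≤ qc.eval (sz a + sz os + sz r + sz i + 5) := by
    intro os r i
    refine (hqc (a, os, r, i)).trans (eval_mono _ ?_)
    simp only [sz_pair]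
    omega
  obtain ⟨h2, h3, h4, h5, h6⟩ := inv_iterG (p := p a) (D := D a) hqc' (os := os a) (r := r a)
    (X := X) (by omega) k
  set s := (fwdG (p a) (D a) (cd a))^[k] (os a, r a, []) with hs
  have hk2 : k ≤ X := by
    have := length_lt_sz (os a)
    omega
  have hn : (r a).length ≤ X := by
    have := length_lt_sz (r a)
    omega
  have h7 : sz s = sz s.1 + (sz s.2.1 + sz s.2.2 + 1) + 1 := by
    rw [← sz_pair, ← sz_pair]
  have h8 : sz s.2.1 ≤ X * (2 * X + 1) + 1 := by
    refine (sz_le_length_mul _ _ h4).trans ?_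
    rw [h3]
    exact Nat.add_le_add_right (Nat.mul_le_mul_right _ hn) _
  have hPEv : PE.eval X = 10 * X + qc.eval (2 * X * X + 5 * X + 10) + 10 := by
    rw [hPE]
    simp [Polynomial.eval_comp]
  have h9 : sz s.2.2 ≤ X * (PE.eval X + 1) + 1 := by
    refine (sz_le_length_mul _ _ h6).trans ?_
    rw [hPEv]
    exact Nat.add_le_add_right (Nat.mul_le_mul_right _ (h5.trans hk2)) _
  have hPTv : (PT.comp (q0 + Polynomial.X)).eval (sz a) =
      X + (X * (2 * X + 1) + 1) + (X * (PE.eval X + 1) + 1) + 2 := by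
    have hX' : (q0 + Polynomial.X).eval (sz a) = X := by simp [hX]
    rw [Polynomial.eval_comp, hX', hPT]
    simp only [Polynomial.eval_add, Polynomial.eval_mul, Polynomial.eval_X, Polynomial.eval_C]
  rw [hPTv]
  omega

theorem poly_runG (hp : NPC.Poly p) (hD : UPoly D)
    (hcd : NPC.Poly (fun x : α × List Op × List ℕ × ℕ => cd x.1 x.2.1 x.2.2.1 x.2.2.2))
    (hlv : NPC.Poly (fun x : α × List ℕ => lv x.1 x.2))
    (hlv2 : ∀ a r, lv a r ≤ p a + 1)
    (hcm : NPC.Poly (fun x : α × Option Bool × ℕ × ℕ × ℕ => cm x.1 x.2.1 x.2.2.1 x.2.2.2.1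
      x.2.2.2.2)) (hcm2 : ∀ a o x u w, cm a o x u w ≤ p a + 1)
    {os : α → List Op} (hos : NPC.Poly os) {r : α → List ℕ} (hr : NPC.Poly r) :
    NPC.Poly (fun a => runG (p a) (D a) (lv a) (cm a) (cd a) (os a) (r a)) := by
  have h1 := poly_iterG hp hD hcd hos hr
  obtain ⟨q0, hq0⟩ := hp.sz_le
  have h2 : NPC.Poly (fun a => ((fwdG (p a) (D a) (cd a))^[(os a).length] (os a, r a,
      [])).2.2.foldl (fun y e => stepG (p a) (cm a) e y)
      (lv a ((fwdG (p a) (D a) (cd a))^[(os a).length] (os a, r a, [])).2.1)) := by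
    refine NPC.Poly.foldl (F := fun a y e => stepG (p a) (cm a) e y)
      (NPC.Poly.snd (NPC.Poly.snd h1)) (hlv.comp (NPC.Poly.pair NPC.Poly.id
        (NPC.Poly.fst (NPC.Poly.snd h1)))) ?_
      (Polynomial.C 4 * q0 + Polynomial.C 10) ?_
    · unfold stepG
      refine hcm.comp (f := fun x : α × ℕ × Ent => (x.1, x.2.2.1.1, x.2.2.2.1,
        evalN (p x.1) (((x.2.2.2.2.2.filter fun c => decide (evalN (p x.1) c x.2.2.2.2.1 =
          x.2.1 % (p x.1 + 1))).head?).getD []) 0,
        evalN (p x.1) (((x.2.2.2.2.2.filter fun c => decide (evalN (p x.1) c x.2.2.2.2.1 =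
          x.2.1 % (p x.1 + 1))).head?).getD []) 1)) ?_
      fun_prop
    · intro a k hk
      have h3 : ∀ (l : List Ent) (y : ℕ), y ≤ p a + 1 →
          l.foldl (fun y e => stepG (p a) (cm a) e y) y ≤ p a + 1 := by
        intro l
        induction l with
        | nil => intro y hy; exact hy
        | cons e l ih => intro y _; exact ih _ (hcm2 _ _ _ _ _)
      have h3 := h3 (((fwdG (p a) (D a) (cd a))^[(os a).length] (os a, r a, [])).2.2.take k)
        (lv a ((fwdG (p a) (D a) (cd a))^[(os a).length] (os a, r a, [])).2.1) (hlv2 _ _)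
      have h4 := sz_nat_mono_le h3
      have h5 := sz_succ_le (p a)
      have h6 := hq0 a
      simp only [Polynomial.eval_add, Polynomial.eval_mul, Polynomial.eval_C]
      omega
  exact h2.congr fun a => fwdG_run _ _ _ _ _ _ _ _

end Poly

end Pool.Agent.Helper70K1.SP
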