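import Pool.Agent.Helper70K1.SP.Prune

/-!
# The language of the bits of the hash values of the round polynomials
-/

set_option autoImplicit false

namespace Pool.Agent.Helper70K1.SP

open Pool.Agent.NPC
open Pool.Agent.H623R2.PS (evq evq_exists evq_and InPSPACE inPSPACE_of_evq poly_replicate)

/-- The checks for an instance. -/
def chkG (I : Ins) (ρ : ℕ → Bool) (u : List Bool) : Bool :=
  ((cf I.m (valB (u.take (I.m * I.m)))).all (fun c => decide (c ≤ I.p)) &&
    ρ (valB (u.take (I.m * I.m)))) &&
  (decide (I.p < valB ((u.drop (I.m * I.m)).take I.m)) ||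
    cfin I.p I.F (I.os.foldl (cstep I.m I.p) (I.r.set I.i (valB ((u.drop (I.m * I.m)).take I.m)),
      evalN I.p (cf I.m (valB (u.take (I.m * I.m)))) (valB ((u.drop (I.m * I.m)).take I.m)), true,
        u.drop (I.m * I.m + I.m))))

theorem chkG_iff {I : Ins} (h : Wf I) (ρ : ℕ → Bool) :
    evq (qsI I) (chkG I ρ) = true ↔ ∃ V, Good I V ∧ ρ V = true := by
  obtain ⟨hp, hi, ho⟩ := h
  unfold qsI
  rw [evq_exists]
  have key : ∀ M : List Bool, M.length = I.m * I.m →
      (evq (List.replicate I.m true ++ blk I.m I.os) (fun u => chkG I ρ (M ++ u)) = true ↔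
        Good I (valB M) ∧ ρ (valB M) = true) := by
    intro M hM
    have e1 : ∀ u, (M ++ u).take (I.m * I.m) = M := fun u => by rw [← hM, List.take_left]
    have e2 : ∀ u, (M ++ u).drop (I.m * I.m) = u := fun u => by rw [← hM, List.drop_left]
    have e3 : ∀ u, (M ++ u).drop (I.m * I.m + I.m) = u.drop I.m := fun u => by
      rw [← List.drop_drop, e2]
    have e4 : (fun u => chkG I ρ (M ++ u)) = fun u =>
        ((cf I.m (valB M)).all (fun c => decide (c ≤ I.p)) && ρ (valB M)) &&
        (decide (I.p < valB (u.take I.m)) ||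
          cfin I.p I.F (I.os.foldl (cstep I.m I.p) (I.r.set I.i (valB (u.take I.m)),
            evalN I.p (cf I.m (valB M)) (valB (u.take I.m)), true, u.drop I.m))) := by
      funext u
      simp only [chkG, e1, e2, e3]
    rw [e4, evq_and, Bool.and_eq_true, Bool.and_eq_true, List.all_eq_true,
      evq_forall]
    have key2 : ∀ T : List Bool, T.length = I.m →
        (evq (blk I.m I.os) (fun u => decide (I.p < valB ((T ++ u).take I.m)) ||
          cfin I.p I.F (I.os.foldl (cstep I.m I.p) (I.r.set I.i (valB ((T ++ u).take I.m)),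
            evalN I.p (cf I.m (valB M)) (valB ((T ++ u).take I.m)), true, (T ++ u).drop I.m))) =
          true ↔
          (valB T ≤ I.p → val (leafC I.F) I.os (Function.update (pt I.p I.r) I.i
            (valB T : ZMod (I.p + 1))) = (evalN I.p (cf I.m (valB M)) (valB T) :
              ZMod (I.p + 1)))) := by
      intro T hT
      have e5 : ∀ u, (T ++ u).take I.m = T := fun u => by rw [← hT, List.take_left]
      have e6 : ∀ u, (T ++ u).drop I.m = u := fun u => by rw [← hT, List.drop_left]
      simp only [e5, e6]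
      rw [evq_or, Bool.or_eq_true, decide_eq_true_eq, chain_iff hp I.F I.os _ _ _ (fun o hoo => by
        rw [List.length_set]; exact ho o hoo), pt_set hi]
      constructor
      · rintro (h1 | h1) h2
        · omega
        · exact h1.2
      · intro h1
        by_cases h2 : I.p < valB T
        · exact Or.inl h2
        · exact Or.inr ⟨rfl, h1 (by omega)⟩
    constructor
    · rintro ⟨⟨h1, h2⟩, h3⟩
      refine ⟨⟨?_, fun c hc => by simpa using h1 c hc, fun t ht => ?_⟩, h2⟩
      · have := valB_lt M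
        rwa [hM] at this
      · obtain ⟨T, hT, rfl⟩ := exists_valB (n := I.m) (V := t) (lt_of_le_of_lt ht hp)
        exact (key2 T hT).1 (h3 T hT) ht
    · rintro ⟨⟨h1, h2, h3⟩, h4⟩
      exact ⟨⟨fun c hc => by simpa using h2 c hc, h4⟩, fun T hT => (key2 T hT).2 fun h5 =>
        h3 _ h5⟩
  constructor
  · rintro ⟨M, hM, h1⟩
    exact ⟨valB M, (key M hM).1 h1⟩
  · rintro ⟨V, h1, h2⟩
    obtain ⟨M, hM, rfl⟩ := exists_valB h1.1
    exact ⟨M, hM, (key M hM).2 ⟨h1, h2⟩⟩

/-- Queries: an instance, a number of bits, a modulus and a position. -/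
abbrev QryH := Ins × ℕ × ℕ × ℕ

/-- The predicate of a query. -/
def rho (Q : QryH) (V : ℕ) : Bool :=
  tb (V % 2 ^ (min Q.2.1 (Q.1.m * Q.1.m)) % Q.2.2.1) Q.2.2.2

/-- The quantifiers for a query. -/
def qsH (o : Option QryH) : List Bool := o.elim [] fun Q => qsI Q.1

/-- The check for a query. -/
def chkH (o : Option QryH) (u : List Bool) : Bool := o.elim false fun Q => chkG Q.1 (rho Q) u

/-- The language of the bits of the hash values. -/
def LH : Set (List Bool) := {x | evq (qsH (unbits QryH x)) (chkH (unbits QryH x)) = true}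

theorem mem_LH {I : Ins} (h : Wf I) (j q i : ℕ) :
    bits ((I, j, q, i) : QryH) ∈ LH ↔ ∃ V, Good I V ∧ tb (V % 2 ^ j % q) i = true := by
  have h1 : ∀ V, Good I V → rho (I, j, q, i) V = tb (V % 2 ^ j % q) i := by
    intro V hV
    unfold rho
    simp only
    rcases le_total j (I.m * I.m) with h2 | h2
    · rw [min_eq_left h2]
    · rw [min_eq_right h2, Nat.mod_eq_of_lt hV.1, Nat.mod_eq_of_lt (lt_of_lt_of_le hV.1
        (Nat.pow_le_pow_right (by norm_num) h2))]
  have h2 : (∃ V, Good I V ∧ tb (V % 2 ^ j % q) i = true) ↔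
      ∃ V, Good I V ∧ rho (I, j, q, i) V = true := by
    constructor
    · rintro ⟨V, h3, h4⟩
      exact ⟨V, h3, by rw [h1 V h3]; exact h4⟩
    · rintro ⟨V, h3, h4⟩
      exact ⟨V, h3, by rw [← h1 V h3]; exact h4⟩
  rw [h2, ← chkG_iff h]
  change evq (qsH (unbits QryH (bits ((I, j, q, i) : QryH)))) (chkH (unbits QryH (bits ((I,
    j, q, i) : QryH)))) = true ↔ _
  rw [unbits_bits]
  rfl

/-! ### Complexity -/

variable {α : Type} [TEnc α]

@[fun_prop]
theorem poly_tb {n i : α → ℕ} (hn : NPC.Poly n) (hi : NPC.Poly i) :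
    NPC.Poly (fun a => tb (n a) (i a)) := by
  unfold tb
  exact NPC.Poly.getD (NPC.Poly.natBits hn) hi (NPC.Poly.const false)

theorem poly_chkG {I : α → Ins} {ρ : α → ℕ → Bool} {u : α → List Bool} (hI : NPC.Poly I)
    (hρ : NPC.Poly (fun x : α × ℕ => ρ x.1 x.2)) (hu : NPC.Poly u) :
    NPC.Poly (fun a => chkG (I a) (ρ a) (u a)) := by
  have h1 : NPC.Poly (fun a => cf (I a).m (valB ((u a).take ((I a).m * (I a).m)))) :=
    poly_cf (uPoly_m hI) (by fun_prop)
  have h2 : NPC.Poly (fun a => (I a).os.foldl (cstep (I a).m (I a).p)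
      ((I a).r.set (I a).i (valB (((u a).drop ((I a).m * (I a).m)).take (I a).m)),
      evalN (I a).p (cf (I a).m (valB ((u a).take ((I a).m * (I a).m))))
        (valB (((u a).drop ((I a).m * (I a).m)).take (I a).m)), true,
        (u a).drop ((I a).m * (I a).m + (I a).m))) := by
    refine poly_chain (W := fun a => (I a).1) (p := fun a => (I a).p) (os := fun a => (I a).os)
      (NPC.Poly.fst hI) (poly_p hI) (poly_os hI) ?_
    fun_prop
  have h3 := poly_cfin (poly_p hI) (poly_F hI) h2
  have h4 : NPC.Poly (fun a => ρ a (valB ((u a).take ((I a).m * (I a).m)))) :=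
    hρ.comp (f := fun a => (a, valB ((u a).take ((I a).m * (I a).m)))) (by fun_prop)
  unfold chkG
  refine NPC.Poly.and (NPC.Poly.and ?_ h4) (NPC.Poly.or ?_ h3)
  · fun_prop
  · fun_prop

theorem poly_rho : NPC.Poly (fun x : QryH × ℕ => rho x.1 x.2) := by
  unfold rho
  have h1 : UPoly (fun x : QryH × ℕ => x.1.1.m) := uPoly_m (by fun_prop)
  have h2 : UPoly (fun x : QryH × ℕ => min x.1.2.1 (x.1.1.m * x.1.1.m)) :=
    UPoly.of_le (n := fun x : QryH × ℕ => x.1.1.m * x.1.1.m) (by fun_prop) (UPoly.mul h1 h1)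
      fun x => min_le_right _ _
  have h3 := poly_pow2 h2
  fun_prop

theorem poly_qsH : NPC.Poly qsH := by
  unfold qsH
  refine NPC.Poly.optElim (g := fun _ => []) (h := fun _ (Q : QryH) => qsI Q.1) NPC.Poly.id
    (NPC.Poly.const _) ?_
  exact poly_qsI (I := fun x : Option QryH × QryH => x.2.1) (by fun_prop)

theorem poly_chkH : NPC.Poly (fun x : Option QryH × List Bool => chkH x.1 x.2) := by
  unfold chkH
  refine NPC.Poly.optElim (o := fun x : Option QryH × List Bool => x.1) (g := fun _ => false)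
    (h := fun x (Q : QryH) => chkG Q.1 (rho Q) x.2) (by fun_prop) (NPC.Poly.const _) ?_
  exact poly_chkG (I := fun x : (Option QryH × List Bool) × QryH => x.2.1)
    (ρ := fun x => rho x.2) (u := fun x => x.1.2) (by fun_prop)
    (poly_rho.comp (f := fun x : ((Option QryH × List Bool) × QryH) × ℕ => (x.1.2, x.2))
      (by fun_prop)) (by fun_prop)

/-- The language of the bits of the hash values is in polynomial space. -/
theorem inPSPACE_LH : InPSPACE LH := by
  refine inPSPACE_of_evq (init := unbits QryH) poly_unbits (qs := fun x => qsH (unbits QryH x))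
    ?_ (φ := chkH) poly_chkH fun x => Iff.rfl
  exact poly_qsH.comp poly_unbits

end Pool.Agent.Helper70K1.SP
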