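import Pool.Agent.Helper70K1.SP.Raw
import Pool.Agent.Helper70K1.SP.LangH
import Pool.Agent.Helper70K1.SP.AlgG

/-!
# Complexity of the pruning algorithm
-/

set_option autoImplicit false

namespace Pool.Agent.Helper70K1.SP

open Pool.Agent.NPC

/-! ### Parameters -/

/-- The number of queries. -/
def kk (c N : ℕ) : ℕ := c * N.size

/-- The excess. -/
def ee (c N : ℕ) : ℕ := 4 * kk c N + N.size + 2

/-- The number of bits of the hash values. -/
def ll (c N : ℕ) : ℕ := 8 * ee c N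

/-- The bound for the number of candidates. -/
def KK (c N : ℕ) : ℕ := 2 ^ (4 * kk c N + ee c N)

theorem two_pow_size_le (N : ℕ) : 2 ^ N.size ≤ 2 * N + 1 := by
  rcases Nat.eq_zero_or_pos N with rfl | h
  · simp
  · have h1 : 0 < N.size := Nat.size_pos.2 h
    have h2 : 2 ^ (N.size - 1) ≤ N := Nat.lt_size.1 (by omega)
    have h3 : 2 ^ N.size = 2 * 2 ^ (N.size - 1) := by
      rw [← pow_succ']
      congr 1
      omega
    omega

theorem KK_le (c N : ℕ) : KK c N ≤ 4 * (2 * N + 1) ^ (8 * c + 1) := by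
  have h1 : KK c N = 4 * (2 ^ N.size) ^ (8 * c + 1) := by
    unfold KK ee kk
    rw [← pow_mul, show (4 : ℕ) = 2 ^ 2 by norm_num, ← pow_add]
    congr 1
    ring
  rw [h1]
  exact Nat.mul_le_mul_left _ (Nat.pow_le_pow_left (two_pow_size_le N) _)

theorem two_pow_ll_le (c N : ℕ) : 2 ^ ll c N ≤ 65536 * (2 * N + 1) ^ (32 * c + 8) := by
  have h1 : 2 ^ ll c N = 65536 * (2 ^ N.size) ^ (32 * c + 8) := by
    unfold ll ee kk
    rw [← pow_mul, show (65536 : ℕ) = 2 ^ 16 by norm_num, ← pow_add]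
    congr 1
    ring
  rw [h1]
  exact Nat.mul_le_mul_left _ (Nat.pow_le_pow_left (two_pow_size_le N) _)

theorem param_ok {c N μ : ℕ} (h : μ ≤ N) :
    2 * (2 * 2 ^ (4 * kk c N + ee c N) * (2 * 2 ^ (4 * kk c N + ee c N)) * μ + 1 + 4) ^ 2 + 1 ≤
      2 ^ ll c N := by
  set s := N.size with hs
  have h0 : μ < 2 ^ s := lt_of_le_of_lt h (Nat.lt_size_self N)
  have h1 : 2 * 2 ^ (4 * kk c N + ee c N) * (2 * 2 ^ (4 * kk c N + ee c N)) =
      2 ^ (16 * (c * s) + 2 * s + 6) := by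
    unfold ee kk
    rw [← hs, ← pow_succ', ← pow_add]
    congr 1
    ring
  have h2 : 2 ^ (16 * (c * s) + 2 * s + 6) * μ + 1 + 4 ≤ 2 ^ (16 * (c * s) + 3 * s + 6) := by
    have h3 : 2 ^ (16 * (c * s) + 2 * s + 6) * (μ + 1) ≤ 2 ^ (16 * (c * s) + 2 * s + 6) * 2 ^ s :=
      Nat.mul_le_mul_left _ h0
    rw [← pow_add] at h3
    have h4 : 5 ≤ 2 ^ (16 * (c * s) + 2 * s + 6) := by
      calc 5 ≤ 2 ^ 6 := by norm_num
        _ ≤ _ := Nat.pow_le_pow_right (by norm_num) (by omega)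
    have h5 : 16 * (c * s) + 2 * s + 6 + s = 16 * (c * s) + 3 * s + 6 := by ring
    rw [h5] at h3
    rw [Nat.mul_succ] at h3
    omega
  rw [h1]
  have h3 : (2 ^ (16 * (c * s) + 2 * s + 6) * μ + 1 + 4) ^ 2 ≤ 2 ^ (32 * (c * s) + 6 * s + 12) := by
    refine (Nat.pow_le_pow_left h2 2).trans (le_of_eq ?_)
    rw [← pow_mul]
    congr 1
    ring
  have h4 : ll c N = 32 * (c * s) + 8 * s + 16 := by
    unfold ll ee kk
    rw [← hs]
    ring
  rw [h4]
  have h5 : 2 ^ (32 * (c * s) + 6 * s + 12) * 2 ^ 4 ≤ 2 ^ (32 * (c * s) + 8 * s + 16) := by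
    rw [← pow_add]
    exact Nat.pow_le_pow_right (by norm_num) (by omega)
  have h6 : 1 ≤ 2 ^ (32 * (c * s) + 6 * s + 12) := Nat.one_le_two_pow
  omega

variable {α : Type} [TEnc α]

theorem upoly_size {N : α → ℕ} (hN : UPoly N) : UPoly (fun a => (N a).size) := by
  refine UPoly.of_le (n := N) ?_ hN fun a => Poly.size_le_self _
  have h1 : NPC.Poly (fun a => (N a).bits.length) := NPC.Poly.length (NPC.Poly.natBits hN.toPoly)
  exact h1.congr fun a => (Nat.size_eq_bits_len _)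

theorem upoly_kk (c : ℕ) {N : α → ℕ} (hN : UPoly N) : UPoly (fun a => kk c (N a)) :=
  UPoly.mul (UPoly.const c) (upoly_size hN)

theorem upoly_ee (c : ℕ) {N : α → ℕ} (hN : UPoly N) : UPoly (fun a => ee c (N a)) :=
  UPoly.add (UPoly.add (UPoly.mul (UPoly.const 4) (upoly_kk c hN)) (upoly_size hN)) (UPoly.const 2)

theorem upoly_ll (c : ℕ) {N : α → ℕ} (hN : UPoly N) : UPoly (fun a => ll c (N a)) :=
  UPoly.mul (UPoly.const 8) (upoly_ee c hN)

theorem upoly_two_pow_ll (c : ℕ) {N : α → ℕ} (hN : UPoly N) : UPoly (fun a => 2 ^ ll c (N a)) := by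
  refine UPoly.of_le (poly_pow2 (upoly_ll c hN)) (hN.eval (Polynomial.C 65536 *
    (Polynomial.C 2 * Polynomial.X + Polynomial.C 1) ^ (32 * c + 8))) fun a => ?_
  simpa using two_pow_ll_le c (N a)

theorem upoly_KK (c : ℕ) {N : α → ℕ} (hN : UPoly N) : UPoly (fun a => KK c (N a)) := by
  refine UPoly.of_le (poly_pow2 (UPoly.add (UPoly.mul (UPoly.const 4) (upoly_kk c hN))
    (upoly_ee c hN))) (hN.eval (Polynomial.C 4 *
    (Polynomial.C 2 * Polynomial.X + Polynomial.C 1) ^ (8 * c + 1))) fun a => ?_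
  simpa using KK_le c (N a)

theorem upoly_bound {n : α → ℕ} (hn : UPoly n) : ∃ r : Polynomial ℕ, ∀ a, n a ≤ r.eval (sz a) := by
  obtain ⟨r, hr⟩ := NPC.Poly.sz_le hn
  refine ⟨r, fun a => ?_⟩
  have h1 := hr a
  have h2 := length_lt_sz (List.replicate (n a) ())
  rw [List.length_replicate] at h2
  omega

/-! ### Pruning -/

theorem poly_posOf {l : α → ℕ} {t : α → ℕ} (hl : UPoly l) (ht : NPC.Poly t) :
    NPC.Poly (fun a => posOf (l a) (t a)) := by
  unfold posOf
  exact NPC.Poly.filter (p := fun a i => tb (t a) i) hl.range (by fun_prop)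

theorem poly_excl {f : List Bool → List Bool} (hf : PolyTime f) {k : α → ℕ} (hk : UPoly k)
    {qs : α → List (List Bool)} (hqs : NPC.Poly qs) :
    NPC.Poly (fun a => excl f (k a) (qs a)) := by
  unfold excl
  refine NPC.Poly.map (F := fun a i => (f (bits (qs a))).getD i false) hk.range ?_
  have h1 : NPC.Poly (fun x : α × ℕ => f (bits (qs x.1))) :=
    poly_askT hf (hqs.comp (NPC.Poly.fst NPC.Poly.id))
  exact NPC.Poly.getD h1 (NPC.Poly.snd NPC.Poly.id) (NPC.Poly.const false)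

theorem poly_keep {f : List Bool → List Bool} (hf : PolyTime f) {qb : α → ℕ → ℕ → ℕ → List Bool}
    (hqb : NPC.Poly (fun x : α × ℕ × ℕ × ℕ => qb x.1 x.2.1 x.2.2.1 x.2.2.2)) {k l : α → ℕ}
    (hk : UPoly k) (hl : UPoly l) (hl2 : UPoly (fun a => 2 ^ l a)) {j h v : α → ℕ}
    (hj : NPC.Poly j) (hh : NPC.Poly h) (hv : NPC.Poly v) :
    NPC.Poly (fun a => keep f (qb a) (k a) (l a) (j a) (h a) (v a)) := by
  unfold keep
  refine NPC.Poly.all (p := fun a t => !decide ((posOf (l a) t).length = k a) ||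
    !decide (excl f (k a) ((posOf (l a) t).map (qb a (j a) (h a))) =
      (posOf (l a) t).map (tb (v a % h a)))) hl2.range ?_
  have h1 : NPC.Poly (fun x : α × ℕ => posOf (l x.1) x.2) :=
    poly_posOf (hl.comp (NPC.Poly.fst NPC.Poly.id)) (NPC.Poly.snd NPC.Poly.id)
  have h2 : NPC.Poly (fun x : α × ℕ => (posOf (l x.1) x.2).map (qb x.1 (j x.1) (h x.1))) := by
    refine NPC.Poly.map (F := fun x : α × ℕ => qb x.1 (j x.1) (h x.1)) h1 ?_
    exact hqb.comp (f := fun y : (α × ℕ) × ℕ => (y.1.1, j y.1.1, h y.1.1, y.2)) (by fun_prop)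
  have h3 : NPC.Poly (fun x : α × ℕ => excl f (k x.1)
      ((posOf (l x.1) x.2).map (qb x.1 (j x.1) (h x.1)))) :=
    poly_excl hf (hk.comp (NPC.Poly.fst NPC.Poly.id)) h2
  have h4 : NPC.Poly (fun x : α × ℕ => (posOf (l x.1) x.2).map (tb (v x.1 % h x.1))) := by
    refine NPC.Poly.map (F := fun x : α × ℕ => tb (v x.1 % h x.1)) h1 ?_
    fun_prop
  have h5 := hk.toPoly
  fun_prop

theorem poly_hsh {l : α → ℕ} (hl2 : UPoly (fun a => 2 ^ l a)) {A : α → List ℕ} (hA : NPC.Poly A) :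
    NPC.Poly (fun a => hsh (l a) (A a)) := by
  unfold hsh
  refine NPC.Poly.optGetD (NPC.Poly.head? (NPC.Poly.filter (p := fun a h => decide (0 < h) &&
    (A a).all fun u => (A a).all fun v => decide (u = v) || !decide (u % h = v % h)) hl2.range ?_))
    (NPC.Poly.const 0)
  refine NPC.Poly.and (by fun_prop) (NPC.Poly.all (p := fun (x : α × ℕ) u => (A x.1).all fun v =>
    decide (u = v) || !decide (u % x.2 = v % x.2)) (by fun_prop) ?_)
  refine NPC.Poly.all (p := fun (x : (α × ℕ) × ℕ) v => decide (x.2 = v) ||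
    !decide (x.2 % x.1.2 = v % x.1.2)) (by fun_prop) ?_
  fun_prop

/-- One more bit, with a bounded number of bits. -/
def stepA' (f : List Bool → List Bool) (qb : ℕ → ℕ → ℕ → List Bool) (k l μ j : ℕ) (A : List ℕ) :
    List ℕ :=
  (A ++ A.map fun v => v + 2 ^ (min j μ)).filter
    (keep f qb k l (j + 1) (hsh l (A ++ A.map fun v => v + 2 ^ (min j μ))))

theorem foldl_stepA' (f : List Bool → List Bool) (qb : ℕ → ℕ → ℕ → List Bool) (k l μ : ℕ) :
    ∀ n ≤ μ, (List.range n).foldl (fun A j => stepA' f qb k l μ j A) [0] = listA f qb k l n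
  | 0, _ => rfl
  | n + 1, h => by
    rw [List.range_succ, List.foldl_append, foldl_stepA' f qb k l μ n (by omega), listA]
    simp only [List.foldl_cons, List.foldl_nil, stepA', stepA]
    rw [min_eq_left (by omega)]

theorem poly_stepA' {f : List Bool → List Bool} (hf : PolyTime f)
    {qb : α → ℕ → ℕ → ℕ → List Bool}
    (hqb : NPC.Poly (fun x : α × ℕ × ℕ × ℕ => qb x.1 x.2.1 x.2.2.1 x.2.2.2)) {k l μ : α → ℕ}
    (hk : UPoly k) (hl : UPoly l) (hl2 : UPoly (fun a => 2 ^ l a)) (hμ : UPoly μ) {j : α → ℕ}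
    {A : α → List ℕ} (hj : NPC.Poly j) (hA : NPC.Poly A) :
    NPC.Poly (fun a => stepA' f (qb a) (k a) (l a) (μ a) (j a) (A a)) := by
  have h1 : UPoly (fun a => min (j a) (μ a)) :=
    UPoly.of_le (by
      have := hμ.toPoly
      fun_prop) hμ fun a => min_le_right _ _
  have h2 := poly_pow2 h1
  have h3 : NPC.Poly (fun a => A a ++ (A a).map fun v => v + 2 ^ (min (j a) (μ a))) := by
    refine NPC.Poly.append hA (NPC.Poly.map (F := fun a v => v + 2 ^ (min (j a) (μ a))) hA ?_)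
    exact NPC.Poly.add (NPC.Poly.snd NPC.Poly.id) (h2.comp (NPC.Poly.fst NPC.Poly.id))
  have h4 := poly_hsh hl2 h3
  unfold stepA'
  refine NPC.Poly.filter (p := fun a v => keep f (qb a) (k a) (l a) (j a + 1)
    (hsh (l a) (A a ++ (A a).map fun v => v + 2 ^ (min (j a) (μ a)))) v) h3 ?_
  exact poly_keep hf (qb := fun x : α × ℕ => qb x.1) (hqb.comp
    (f := fun x : (α × ℕ) × ℕ × ℕ × ℕ => (x.1.1, x.2)) (by fun_prop))
    (hk.comp (NPC.Poly.fst NPC.Poly.id)) (hl.comp (NPC.Poly.fst NPC.Poly.id))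
    (hl2.comp (NPC.Poly.fst NPC.Poly.id)) (j := fun x => j x.1 + 1)
    (h := fun x => hsh (l x.1) (A x.1 ++ (A x.1).map fun v => v + 2 ^ (min (j x.1) (μ x.1))))
    (v := fun x => x.2) (by fun_prop) (h4.comp (NPC.Poly.fst NPC.Poly.id)) (by fun_prop)

theorem poly_listA {f : List Bool → List Bool} (hf : PolyTime f)
    {qb : α → ℕ → ℕ → ℕ → List Bool}
    (hqb : NPC.Poly (fun x : α × ℕ × ℕ × ℕ => qb x.1 x.2.1 x.2.2.1 x.2.2.2)) (c : ℕ)
    {N μ : α → ℕ} (hN : UPoly N) (hμ : UPoly μ) (hle : ∀ a, μ a ≤ N a) :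
    NPC.Poly (fun a => listA f (qb a) (kk c (N a)) (ll c (N a)) (μ a)) := by
  have hk := upoly_kk c hN
  have hl := upoly_ll c hN
  have hl2 := upoly_two_pow_ll c hN
  obtain ⟨r1, hr1⟩ := upoly_bound hμ
  obtain ⟨r2, hr2⟩ := upoly_bound (upoly_KK c hN)
  have h1 : NPC.Poly (fun a => (List.range (μ a)).foldl
      (fun A j => stepA' f (qb a) (kk c (N a)) (ll c (N a)) (μ a) j A) [0]) := by
    refine NPC.Poly.foldl (s := fun _ => [0]) (F := fun a A j => stepA' f (qb a) (kk c (N a))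
      (ll c (N a)) (μ a) j A) hμ.range (NPC.Poly.const _) ?_
      (r2 * (Polynomial.C 4 * r1 + Polynomial.C 2) + Polynomial.C 1) ?_
    · exact poly_stepA' hf (qb := fun x : α × List ℕ × ℕ => qb x.1) (hqb.comp
        (f := fun x : (α × List ℕ × ℕ) × ℕ × ℕ × ℕ => (x.1.1, x.2)) (by fun_prop))
        (hk.comp (NPC.Poly.fst NPC.Poly.id)) (hl.comp (NPC.Poly.fst NPC.Poly.id))
        (hl2.comp (NPC.Poly.fst NPC.Poly.id)) (hμ.comp (NPC.Poly.fst NPC.Poly.id))
        (by fun_prop) (by fun_prop)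
    · intro a k hk'
      rw [List.length_range] at hk'
      rw [List.take_range, min_eq_left hk', foldl_stepA' f (qb a) _ _ _ k hk']
      have h2 : (listA f (qb a) (kk c (N a)) (ll c (N a)) k).length ≤ KK c (N a) :=
        length_listA (e := ee c (N a)) rfl (param_ok (hle a)) k hk'
      have h3 : ∀ v ∈ listA f (qb a) (kk c (N a)) (ll c (N a)) k, sz v ≤ 4 * μ a + 1 :=
        fun v hv => sz_lt_two_pow (lt_of_lt_of_le (listA_lt k v hv)
          (Nat.pow_le_pow_right (by norm_num) hk'))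
      refine (sz_le_length_mul _ _ h3).trans ?_
      simp only [Polynomial.eval_add, Polynomial.eval_mul, Polynomial.eval_C]
      refine Nat.add_le_add_right (Nat.mul_le_mul (h2.trans (hr2 a)) ?_) _
      have := hr1 a
      omega
  exact h1.congr fun a => foldl_stepA' f (qb a) _ _ _ _ le_rfl

end Pool.Agent.Helper70K1.SP
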