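import Pool.Agent.Helper70K1.SP.Comp

/-!
# Complexity of the computations modulo `p + 1`
-/

set_option autoImplicit false

namespace Pool.Agent.Helper70K1.SP

open Pool.Agent.NPC

variable {α β γ : Type} [TEnc α] [TEnc β] [TEnc γ]

theorem sz_succ_le (n : ℕ) : sz (n + 1) ≤ 2 * sz n + 5 := by
  have h1 := sz_nat_le (n + 1)
  have h2 := size_le_sz n
  have h3 : (n + 1).size ≤ n.size + 1 := by
    rw [Nat.size_le]
    have := Nat.lt_size_self n
    rw [pow_succ]
    omega
  omega

/-- A fold with bounded values. -/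
theorem poly_foldr_nat {l : α → List β} {F : α → β → ℕ → ℕ} {s p : α → ℕ} (hl : NPC.Poly l)
    (hs : NPC.Poly s) (hF : NPC.Poly (fun x : α × β × ℕ => F x.1 x.2.1 x.2.2)) (hp : NPC.Poly p)
    (h0 : ∀ a, s a ≤ p a) (h : ∀ a b x, F a b x ≤ p a) :
    NPC.Poly (fun a => (l a).foldr (F a) (s a)) := by
  obtain ⟨r, hr⟩ := hp.sz_le
  refine NPC.Poly.foldr hl hs hF (Polynomial.C 2 * r) fun a k _ => ?_
  have h1 : ((l a).drop k).foldr (F a) (s a) ≤ p a := by
    cases (l a).drop k with
    | nil => exact h0 a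
    | cons b l => exact h a _ _
  refine (sz_nat_mono_le h1).trans ?_
  rw [Polynomial.eval_mul, Polynomial.eval_C]
  exact Nat.mul_le_mul_left _ (hr a)

@[fun_prop]
theorem poly_subN {p a b : α → ℕ} (hp : NPC.Poly p) (ha : NPC.Poly a) (hb : NPC.Poly b) :
    NPC.Poly (fun x => subN (p x) (a x) (b x)) := by
  unfold subN
  fun_prop

@[fun_prop]
theorem poly_combN {p x u w : α → ℕ} {o : α → Option Bool} (hp : NPC.Poly p) (ho : NPC.Poly o)
    (hx : NPC.Poly x) (hu : NPC.Poly u) (hw : NPC.Poly w) :
    NPC.Poly (fun a => combN (p a) (o a) (x a) (u a) (w a)) := by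
  unfold combN
  fun_prop

@[fun_prop]
theorem poly_prodN {p : α → ℕ} {l : α → List ℕ} (hp : NPC.Poly p) (hl : NPC.Poly l) :
    NPC.Poly (fun a => prodN (p a) (l a)) := by
  unfold prodN
  refine poly_foldr_nat (F := fun a x acc => x * acc % (p a + 1)) (p := fun a => p a + 1) hl
    (NPC.Poly.const 1) ?_ (by fun_prop) (fun a => by omega)
    (fun a b x => (Nat.mod_lt _ (Nat.succ_pos _)).le)
  fun_prop

@[fun_prop]
theorem poly_evalN {p t : α → ℕ} {l : α → List ℕ} (hp : NPC.Poly p) (hl : NPC.Poly l) (ht : NPC.Poly t) :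
    NPC.Poly (fun a => evalN (p a) (l a) (t a)) := by
  unfold evalN
  refine poly_foldr_nat (F := fun a x acc => (x + t a * acc) % (p a + 1)) (p := fun a => p a + 1) hl
    (NPC.Poly.const 0) ?_ (by fun_prop) (fun a => by omega)
    (fun a b x => (Nat.mod_lt _ (Nat.succ_pos _)).le)
  fun_prop

@[fun_prop]
theorem poly_leafN {p : α → ℕ} {F : α → List (List (Bool × ℕ))} {r : α → List ℕ} (hp : NPC.Poly p)
    (hF : NPC.Poly F) (hr : NPC.Poly r) : NPC.Poly (fun a => leafN (p a) (F a) (r a)) := by
  unfold leafN litN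
  fun_prop

/-! ### Lists -/

@[fun_prop]
theorem poly_set {l : α → List β} {n : α → ℕ} {v : α → β} (hl : NPC.Poly l) (hn : NPC.Poly n)
    (hv : NPC.Poly v) : NPC.Poly (fun a => (l a).set (n a) (v a)) := by
  have h : NPC.Poly (fun a => (l a).zipIdx.map fun e => if e.2 = n a then v a else e.1) := by
    fun_prop
  refine h.congr fun a => List.ext_getElem (by simp) fun i h1 h2 => ?_
  simp only [List.getElem_map, List.getElem_zipIdx, List.getElem_set, zero_add]
  by_cases h3 : n a = i
  · simp [h3]
  · simp [h3, Ne.symm h3]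

omit [TEnc β] in
theorem drop_eq_filter (l : List β) : ∀ (n k : ℕ),
    ((l.zipIdx k).filter fun e => decide (k + n ≤ e.2)).map (fun e => e.1) = l.drop n := by
  induction l with
  | nil => intro n k; simp
  | cons b l ih =>
    intro n k
    rw [List.zipIdx_cons]
    cases n with
    | zero =>
      have h := ih 0 (k + 1)
      rw [List.filter_cons_of_pos (by simp), List.map_cons, List.drop_zero]
      rw [List.drop_zero] at h
      congr 1
      refine Eq.trans ?_ h
      congr 1
      refine List.filter_congr fun e he => ?_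
      have := List.le_snd_of_mem_zipIdx he
      simp only [decide_eq_decide]
      omega
    | succ n =>
      have h := ih n (k + 1)
      rw [List.filter_cons_of_neg (by simp), List.drop_succ_cons, ← h]
      congr 1
      refine List.filter_congr fun e he => ?_
      simp only [decide_eq_decide]
      omega

omit [TEnc β] in
theorem take_eq_filter (l : List β) : ∀ (n k : ℕ),
    ((l.zipIdx k).filter fun e => decide (e.2 < k + n)).map (fun e => e.1) = l.take n := by
  induction l with
  | nil => intro n k; simp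
  | cons b l ih =>
    intro n k
    rw [List.zipIdx_cons]
    cases n with
    | zero =>
      have h := ih 0 (k + 1)
      rw [List.filter_cons_of_neg (by simp), List.take_zero]
      rw [List.take_zero] at h
      rw [← h]
      congr 1
      refine List.filter_congr fun e he => ?_
      have := List.le_snd_of_mem_zipIdx he
      simp only [decide_eq_decide]
      omega
    | succ n =>
      have h := ih n (k + 1)
      rw [List.filter_cons_of_pos (by simp), List.map_cons, List.take_succ_cons, ← h]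
      congr 2
      refine List.filter_congr fun e he => ?_
      simp only [decide_eq_decide]
      omega

@[fun_prop]
theorem poly_drop {l : α → List β} {n : α → ℕ} (hl : NPC.Poly l) (hn : NPC.Poly n) :
    NPC.Poly (fun a => (l a).drop (n a)) := by
  have h : NPC.Poly (fun a => (((l a).zipIdx 0).filter fun e => decide (0 + n a ≤ e.2)).map
      (fun e => e.1)) := by
    fun_prop
  exact h.congr fun a => drop_eq_filter _ _ _

@[fun_prop]
theorem poly_take {l : α → List β} {n : α → ℕ} (hl : NPC.Poly l) (hn : NPC.Poly n) :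
    NPC.Poly (fun a => (l a).take (n a)) := by
  have h : NPC.Poly (fun a => (((l a).zipIdx 0).filter fun e => decide (e.2 < 0 + n a)).map
      (fun e => e.1)) := by
    fun_prop
  exact h.congr fun a => take_eq_filter _ _ _

attribute [fun_prop] NPC.Poly.valBits NPC.Poly.sub

theorem poly_pow2 {n : α → ℕ} (hn : UPoly n) : NPC.Poly (fun a => 2 ^ n a) := by
  have h : NPC.Poly (fun a => valB (List.replicate (n a) false ++ [true])) :=
    NPC.Poly.valBits (NPC.Poly.append (Pool.Agent.H623R2.PS.poly_replicate hn false) (NPC.Poly.const _))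
  exact h.congr fun a => by rw [valB_replicate_false]; simp

theorem poly_cf {m V : α → ℕ} (hm : UPoly m) (hV : NPC.Poly V) : NPC.Poly (fun a => cf (m a) (V a)) := by
  have h1 : UPoly (fun x : α × ℕ => min x.2 (m x.1)) :=
    UPoly.of_le (n := fun x : α × ℕ => m x.1) (by
      have := hm.toPoly
      fun_prop) (hm.comp (NPC.Poly.fst NPC.Poly.id)) fun x => min_le_right _ _
  have h2 : UPoly (fun x : α × ℕ => min x.2 (m x.1) * m x.1) :=
    UPoly.mul h1 (hm.comp (NPC.Poly.fst NPC.Poly.id))
  have h3 : NPC.Poly (fun a => (List.range (m a)).map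
      fun j => V a / 2 ^ (min j (m a) * m a) % 2 ^ m a) := by
    refine NPC.Poly.map (F := fun a j => V a / 2 ^ (min j (m a) * m a) % 2 ^ m a) hm.range ?_
    exact NPC.Poly.mod (NPC.Poly.div (hV.comp (NPC.Poly.fst NPC.Poly.id)) (poly_pow2 h2))
      (poly_pow2 (hm.comp (NPC.Poly.fst NPC.Poly.id)))
  refine h3.congr fun a => ?_
  unfold cf
  refine List.map_congr_left fun j hj => ?_
  rw [List.mem_range] at hj
  rw [min_eq_left hj.le]

/-! ### Reconstruction from residues -/

theorem poly_crtStep {B X : α → ℕ} {s e : α → ℕ × ℕ} (hB : UPoly B) (hX : NPC.Poly X)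
    (hs : NPC.Poly s) (he : NPC.Poly e) :
    NPC.Poly (fun a => crtStep (B a) (X a) (s a) (e a)) := by
  have h1 : NPC.Poly (fun a => (((List.range (B a)).filter fun t =>
      decide (((s a).1 + (s a).2 * t) % (e a).1 = (e a).2)).head?).getD 0) := by
    refine NPC.Poly.optGetD (NPC.Poly.head? (NPC.Poly.filter (p := fun a t =>
      decide (((s a).1 + (s a).2 * t) % (e a).1 = (e a).2)) hB.range ?_)) (NPC.Poly.const 0)
    fun_prop
  unfold crtStep
  fun_prop

theorem crt_bound {B X : ℕ} : ∀ (l : List (ℕ × ℕ)) (_ : ∀ e ∈ l, 0 < e.1 ∧ e.1 ≤ B) (s : ℕ × ℕ),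
    s.1 ≤ s.2 → 0 < s.2 → s.2 ≤ (X + 1) * (B + 1) →
    (l.foldl (crtStep B X) s).1 ≤ (l.foldl (crtStep B X) s).2 ∧
      (l.foldl (crtStep B X) s).2 ≤ (X + 1) * (B + 1)
  | [], _, s, h1, _, h2 => ⟨h1, h2⟩
  | e :: l, h, s, h1, h3, h2 => by
    rw [List.foldl_cons]
    obtain ⟨h4, h5⟩ := h e List.mem_cons_self
    unfold crtStep
    split_ifs with hX
    · refine crt_bound l (fun e he => h e (List.mem_cons_of_mem _ he)) _ ?_ ?_ ?_
      · exact (Nat.mod_lt _ (Nat.mul_pos h3 h4)).le
      · exact Nat.mul_pos h3 h4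
      · exact Nat.mul_le_mul (by omega) (by omega)
    · exact crt_bound l (fun e he => h e (List.mem_cons_of_mem _ he)) _ h1 h3 h2

theorem poly_crt {B X : α → ℕ} {l : α → List (ℕ × ℕ)} (hB : UPoly B) (hX : NPC.Poly X)
    (hl : NPC.Poly l) (h : ∀ a, ∀ e ∈ l a, 0 < e.1 ∧ e.1 ≤ B a) :
    NPC.Poly (fun a => crt (B a) (X a) (l a)) := by
  unfold crt
  refine NPC.Poly.fst ?_
  have hN : NPC.Poly (fun a => (X a + 1) * (B a + 1)) := by
    have := hB.toPoly
    fun_prop
  obtain ⟨r, hr⟩ := hN.sz_le
  refine NPC.Poly.foldl (s := fun _ => (0, 1)) (F := fun a s e => crtStep (B a) (X a) s e) hl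
    (NPC.Poly.const _) ?_ (Polynomial.C 4 * r + Polynomial.C 1) ?_
  · exact poly_crtStep (s := fun p : α × (ℕ × ℕ) × (ℕ × ℕ) => p.2.1)
      (e := fun p : α × (ℕ × ℕ) × (ℕ × ℕ) => p.2.2) (hB.comp (NPC.Poly.fst NPC.Poly.id))
      (hX.comp (NPC.Poly.fst NPC.Poly.id)) (by fun_prop) (by fun_prop)
  · intro a k hk
    have h1 := crt_bound (B := B a) (X := X a) ((l a).take k)
      (fun e he => h a e (List.mem_of_mem_take he)) (0, 1) (by simp) (by simp)
      (Nat.mul_pos (Nat.succ_pos _) (Nat.succ_pos _))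
    have h2 := sz_nat_mono_le (h1.1.trans h1.2)
    have h3 := sz_nat_mono_le h1.2
    have h4 := hr a
    simp only [Polynomial.eval_add, Polynomial.eval_mul, Polynomial.eval_C]
    have h5 : sz (((l a).take k).foldl (fun s e => crtStep (B a) (X a) s e) (0, 1)) =
      sz (((l a).take k).foldl (crtStep (B a) (X a)) (0, 1)).1 +
        sz (((l a).take k).foldl (crtStep (B a) (X a)) (0, 1)).2 + 1 := by
      rw [← sz_pair]
    omega

end Pool.Agent.Helper70K1.SP
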