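import Pool.Agent.Helper70K1.SP.Dnf

/-!
# Raw and typed functions on bit strings
-/

set_option autoImplicit false

namespace Pool.Agent.Helper70K1.SP

open Pool.Agent.NPC

/-- From encoded lists of booleans to raw bit strings. -/
theorem rawOut : PC (bits : List Bool → List Bool) (fun x : List Bool => x) (fun x => x) := by
  refine ⟨Cmd.seq (Cmd.loop 0 (Cmd.cases 0 Cmd.skip (Cmd.pop 0)
    (Cmd.seq (Cmd.pop 0) (Cmd.cases 0 Cmd.skip
      (Cmd.seq (Cmd.pop 0) (Cmd.push 1 false))
      (Cmd.seq (Cmd.pop 0) (Cmd.seq (Cmd.pop 0) (Cmd.seq (Cmd.pop 0) (Cmd.push 1 true))))))))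
    (mv 1 0), Polynomial.C 20 * Polynomial.X + Polynomial.C 20, fun x => ?_⟩
  rw [inp_eq_st, inp_eq_st]
  have key : ∀ x acc : List Bool, Runs (Cmd.loop 0 (Cmd.cases 0 Cmd.skip (Cmd.pop 0)
    (Cmd.seq (Cmd.pop 0) (Cmd.cases 0 Cmd.skip
      (Cmd.seq (Cmd.pop 0) (Cmd.push 1 false))
      (Cmd.seq (Cmd.pop 0) (Cmd.seq (Cmd.pop 0) (Cmd.seq (Cmd.pop 0) (Cmd.push 1 true))))))))
      (st (bits x) acc []) (st [] (x.reverse ++ acc) []) (10 * x.length + 10) := by
    intro x
    induction x with
    | nil =>
      intro acc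
      refine (Runs.loopCons (by simp [bits, T.enc]) (Runs.casesFalse (l := []) rfl
        (Runs.pop _ 0)) (Runs.loopNil (by simp [bits, T.enc]))).conv rfl ?_ (by simp)
      simp [bits, T.enc]
    | cons b x ih =>
      intro acc
      have ih' := ih (b :: acc)
      have hb : Runs (Cmd.cases 0 Cmd.skip (Cmd.pop 0)
        (Cmd.seq (Cmd.pop 0) (Cmd.cases 0 Cmd.skip
        (Cmd.seq (Cmd.pop 0) (Cmd.push 1 false))
        (Cmd.seq (Cmd.pop 0) (Cmd.seq (Cmd.pop 0) (Cmd.seq (Cmd.pop 0) (Cmd.push 1 true)))))))
        (st (bits (b :: x)) acc []) (st (bits x) (b :: acc) []) 7 := by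
        cases b with
        | false =>
          refine (Runs.casesTrue (l := false :: bits x) rfl ((Runs.pop _ 0).seq
            (Runs.casesFalse (l := bits x) (by simp [bits, T.enc]) ((Runs.pop _ 0).seq
            (Runs.push _ 1 false))))).conv rfl ?_ (by simp)
          simp [bits, T.enc]
        | true =>
          refine (Runs.casesTrue (l := true :: false :: false :: bits x) rfl ((Runs.pop _ 0).seq
            (Runs.casesTrue (l := false :: false :: bits x) (by simp [bits, T.enc])
              ((Runs.pop _ 0).seq ((Runs.pop _ 0).seq ((Runs.pop _ 0).seq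
              (Runs.push _ 1 true))))))).conv rfl ?_ (by simp)
          simp [bits, T.enc]
      refine (Runs.loopCons (by simp [bits, T.enc]) hb ih').conv rfl ?_ ?_
      · simp
      · simp; omega
  have h3 := key x []
  rw [List.append_nil] at h3
  refine (h3.seq (mv_runs (i := 1) (j := 0) (by decide) x.reverse _ (st x [] []) rfl
    (by simp))).mono ?_
  have h4 := sz_listBool_ge x
  rw [← bits_length] at h4
  simp only [List.length_reverse, Polynomial.eval_add, Polynomial.eval_mul, Polynomial.eval_C,
    Polynomial.eval_X]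
  omega

/-- A polynomial-time function on bit strings, as a typed function. -/
theorem poly_of_polyTime {V : List Bool → List Bool} (hV : PolyTime V) : NPC.Poly V := by
  have h1 : PC (fun x : List Bool => x) (fun x : List Bool => x) V :=
    H642R2.TMSim.polyTime_toPC hV
  exact PC.comp (g := fun x => x) (f := V) PC.rawIn (PC.comp (g := V) (f := fun x => x) h1 rawOut)

/-- A typed polynomial-time function on bit strings. -/
theorem polyTime_of_typed {g : List Bool → List Bool} (hg : NPC.Poly g) : PolyTime g :=
  PC.toPolyTime (PC.comp (g := fun x => x) (f := g) rawOut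
    (PC.comp (g := g) (f := fun x => x) hg PC.rawIn))

theorem poly_askT {α β : Type} [TEnc α] [TEnc β] {f : List Bool → List Bool} (hf : PolyTime f)
    {Q : α → β} (hQ : NPC.Poly Q) : NPC.Poly (fun a => f (bits (Q a))) :=
  (poly_of_polyTime hf).comp (poly_bits hQ)

end Pool.Agent.Helper70K1.SP
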