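import Pool.Agent.Helper70K1.SP.Main

/-!
# Reductions by normal forms of bounded width
-/

set_option autoImplicit false

namespace Pool.Agent.Helper70K1.SP

open Pool.Agent.NPC
open Pool.Agent.H623R2.PS (evq InPSPACE poly_replicate)

/-! ### Composition of functions -/

theorem polyTime_post {β γ : Type} [TEnc β] [TEnc γ] {f : List Bool → β} {g : β → γ}
    (hf : PolyTime (fun x => bits (f x))) (hg : NPC.Poly g) :
    PolyTime (fun x => bits (g (f x))) := by
  have h1 : PC (id : List Bool → List Bool) (bits : β → List Bool) f :=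
    H642R2.TMSim.polyTime_toPC hf
  exact PC.toPolyTime (show PC (id : List Bool → List Bool) (id : List Bool → List Bool)
    (fun x => bits (g (f x))) from PC.comp (g := g) (f := f) hg h1)

theorem poly_bits {α β : Type} [TEnc α] [TEnc β] {f : α → β} (hf : NPC.Poly f) :
    NPC.Poly (fun a => bits (f a)) := by
  have h2 : PC (bits : β → List Bool) (fun x : List Bool => x) (fun b => bits b) := by
    obtain ⟨c, q, h⟩ := (PC.id : PC (bits : β → List Bool) (bits : β → List Bool) fun a => a)
    exact ⟨c, q, h⟩
  have h3 : NPC.Poly (fun b : β => bits b) :=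
    PC.comp (g := fun x => x) (f := fun b : β => bits b) PC.rawIn h2
  exact h3.comp hf

/-! ### Certificates of non-membership -/

theorem valB_inj : ∀ (s y : List Bool), s.length = y.length → valB s = valB y → s = y
  | [], [], _, _ => rfl
  | [], _ :: _, h, _ => by simp at h
  | _ :: _, [], h, _ => by simp at h
  | a :: s, b :: y, h, h' => by
    rw [valB_cons, valB_cons] at h'
    have h1 : s = y := valB_inj s y (by simpa using h) (by
      cases a <;> cases b <;> simp at h' <;> omega)
    subst h1
    cases a <;> cases b <;> simp at h' ⊢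

/-- The bound for the primes in the certificates. -/
noncomputable def PQ (pS : Polynomial ℕ) : Polynomial ℕ :=
  Polynomial.C 2 * (Polynomial.X * pS + Polynomial.C 1 + Polynomial.C 4) ^ 2 + Polynomial.C 1

/-- Short certificates of non-membership in a sparse set. -/
theorem exists_cert {S : Set (List Bool)} {pS : Polynomial ℕ}
    (hS : ∀ n : ℕ, {y | y ∈ S ∧ y.length = n}.ncard ≤ pS.eval n) {y : List Bool} (hy : y ∉ S) :
    ∃ q < (PQ pS).eval y.length, 0 < q ∧
      ∀ s ∈ S, s.length = y.length → valB s % q ≠ valB y % q := by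
  classical
  by_contra hcon
  push Not at hcon
  set n := y.length with hn
  set B := (PQ pS).eval n with hB
  set P := (Finset.range B).filter Nat.Prime with hP
  have hfin : {y | y ∈ S ∧ y.length = n}.Finite :=
    (List.finite_length_le Bool n).subset fun _ hy => hy.2.le
  have hex : ∀ q ∈ P, ∃ s ∈ hfin.toFinset, valB s % q = valB y % q := by
    intro q hq
    rw [hP, Finset.mem_filter, Finset.mem_range] at hq
    obtain ⟨s, h1, h2, h3⟩ := hcon q hq.1 hq.2.pos
    exact ⟨s, (Set.Finite.mem_toFinset _).2 ⟨h1, h2⟩, h3⟩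
  choose! g hg1 hg2 using hex
  have hcard : hfin.toFinset.card * n < P.card := by
    have h1 : hfin.toFinset.card ≤ pS.eval n := by
      rw [← Set.ncard_eq_toFinset_card _ hfin]
      exact hS n
    have h2 := card_primes (n * pS.eval n + 1)
    have h3 : B = 2 * (n * pS.eval n + 1 + 4) ^ 2 + 1 := by
      rw [hB]; simp [PQ]
    rw [← h3] at h2
    have h4 : hfin.toFinset.card * n ≤ pS.eval n * n := Nat.mul_le_mul_right _ h1
    have h5 : n * pS.eval n = pS.eval n * n := mul_comm _ _
    change n * pS.eval n + 1 ≤ P.card at h2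
    omega
  obtain ⟨s, hs, hs2⟩ := Finset.exists_lt_card_fiber_of_mul_lt_card_of_maps_to hg1 hcard
  rw [Set.Finite.mem_toFinset] at hs
  set l : List (ℕ × ℕ) := (P.filter fun q => g q = s).toList.map fun q => (q, valB y % q) with hl
  have hlen : n ≤ l.length := by
    rw [hl, List.length_map, Finset.length_toList]
    exact hs2.le
  have hmem : ∀ e ∈ l, e.1.Prime ∧ e.1 ≤ B ∧ valB y % e.1 = e.2 ∧ valB s % e.1 = e.2 := by
    intro e he
    obtain ⟨q, hq, rfl⟩ := List.mem_map.1 he
    rw [Finset.mem_toList, Finset.mem_filter] at hq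
    have h1 := hg2 q hq.1
    have h2 := hq.1
    rw [hP, Finset.mem_filter, Finset.mem_range] at h2
    rw [hq.2] at h1
    exact ⟨h2.2, h2.1.le, rfl, h1⟩
  have hnd : (l.map Prod.fst).Nodup := by
    rw [hl, List.map_map]
    have : (Prod.fst ∘ fun q => (q, valB y % q)) = (id : ℕ → ℕ) := rfl
    rw [this, List.map_id]
    exact Finset.nodup_toList _
  have h1 := crt_eq (B := B) (X := 2 ^ n) (V := valB y) (fun e he =>
    ⟨(hmem e he).1, (hmem e he).2.1, (hmem e he).2.2.1⟩) hnd (valB_lt y)
    (Nat.pow_le_pow_right (by norm_num) hlen)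
  have h2 := crt_eq (B := B) (X := 2 ^ n) (V := valB s) (fun e he =>
    ⟨(hmem e he).1, (hmem e he).2.1, (hmem e he).2.2.2⟩) hnd (by
      have := valB_lt s
      rwa [hs.2] at this)
    (Nat.pow_le_pow_right (by norm_num) hlen)
  have h3 : s = y := valB_inj s y hs.2 (h2.symm.trans h1)
  exact hy (h3 ▸ hs.1)

/-! ### Facts -/

/-- A statement about the sparse set: that a string is in it, or that no element of a given length
has a given residue. -/
abbrev Stm := List Bool ⊕ (List Unit × ℕ × ℕ)

/-- The statement is true (and its numbers are small). -/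
def Stm.Holds (S : Set (List Bool)) (pS : Polynomial ℕ) (a : Stm) : Prop :=
  Sum.elim (fun y => y ∈ S) (fun c => c.2.1 < (PQ pS).eval c.1.length ∧
    c.2.2 < (PQ pS).eval c.1.length ∧ ∀ s ∈ S, s.length = c.1.length → valB s % c.2.1 ≠ c.2.2) a

/-- The statements any of which implies a condition. -/
noncomputable def choices (pS : Polynomial ℕ) (l : Bool × List Bool) : List Stm :=
  bif l.1 then [Sum.inl l.2] else (List.range ((PQ pS).eval l.2.length)).map fun q =>
    Sum.inr (l.2.map fun _ => (), q, valB l.2 % q)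

theorem choices_iff {S : Set (List Bool)} {pS : Polynomial ℕ}
    (hS : ∀ n : ℕ, {y | y ∈ S ∧ y.length = n}.ncard ≤ pS.eval n) (l : Bool × List Bool) :
    (l.2 ∈ S ↔ l.1 = true) ↔ ∃ a ∈ choices pS l, a.Holds S pS := by
  obtain ⟨b, y⟩ := l
  cases b with
  | true =>
    simp [choices, Stm.Holds]
  | false =>
    simp only [choices, cond_false, List.mem_map, List.mem_range, Bool.false_eq_true, iff_false]
    constructor
    · intro hy
      obtain ⟨q, h1, h2, h3⟩ := exists_cert hS hy
      refine ⟨_, ⟨q, h1, rfl⟩, ?_⟩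
      simp only [Stm.Holds, Sum.elim_inr, List.length_map]
      exact ⟨h1, (Nat.mod_lt _ h2).trans h1, h3⟩
    · rintro ⟨_, ⟨q, h1, rfl⟩, h2⟩ hy
      simp only [Stm.Holds, Sum.elim_inr, List.length_map] at h2
      exact h2.2.2 y hy rfl rfl

theorem poly_choices (pS : Polynomial ℕ) : NPC.Poly (choices pS) := by
  unfold choices
  refine NPC.Poly.cond (by fun_prop) ?_ ?_
  · exact NPC.Poly.cons (NPC.Poly.inl (by fun_prop)) (NPC.Poly.const _)
  · refine NPC.Poly.map (F := fun (l : Bool × List Bool) q =>
      (Sum.inr (l.2.map fun _ => (), q, valB l.2 % q) : Stm)) ?_ ?_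
    · exact ((UPoly.length (NPC.Poly.snd NPC.Poly.id)).eval (PQ pS)).range
    · fun_prop

/-- The conjunctions of statements any of which implies a conjunction of conditions. -/
noncomputable def expand (pS : Polynomial ℕ) : ℕ → List (Bool × List Bool) → List (List Stm)
  | 0, _ => [[]]
  | k + 1, t => t.head?.elim [[]] fun l =>
      (choices pS l).flatMap fun a => (expand pS k t.tail).map fun c => a :: c

theorem expand_iff {S : Set (List Bool)} {pS : Polynomial ℕ}
    (hS : ∀ n : ℕ, {y | y ∈ S ∧ y.length = n}.ncard ≤ pS.eval n) : ∀ (k : ℕ)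
    (t : List (Bool × List Bool)) (_ : t.length ≤ k),
    (∀ l ∈ t, (l.2 ∈ S ↔ l.1 = true)) ↔ ∃ c ∈ expand pS k t, ∀ a ∈ c, a.Holds S pS
  | 0, t, h => by
    have : t = [] := List.length_eq_zero_iff.1 (by omega)
    subst this
    simp [expand]
  | k + 1, [], _ => by simp [expand]
  | k + 1, l :: t, h => by
    rw [List.length_cons] at h
    have ih := expand_iff hS k t (by omega)
    simp only [expand, List.head?_cons, Option.elim_some, List.tail_cons, List.mem_flatMap,
      List.mem_map]
    rw [List.forall_mem_cons, choices_iff hS l, ih]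
    constructor
    · rintro ⟨⟨a, ha, ha2⟩, c, hc, hc2⟩
      refine ⟨a :: c, ⟨a, ha, c, hc, rfl⟩, ?_⟩
      rw [List.forall_mem_cons]
      exact ⟨ha2, hc2⟩
    · rintro ⟨_, ⟨a, ha, c, hc, rfl⟩, h2⟩
      rw [List.forall_mem_cons] at h2
      exact ⟨⟨a, ha, h2.1⟩, c, hc, h2.2⟩

theorem expand_length {pS : Polynomial ℕ} : ∀ (k : ℕ) (t : List (Bool × List Bool)),
    ∀ c ∈ expand pS k t, c.length ≤ k
  | 0, t, c, hc => by
    simp only [expand, List.mem_singleton] at hc
    subst hc
    simp
  | k + 1, [], c, hc => by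
    simp only [expand, List.head?_nil, Option.elim_none, List.mem_singleton] at hc
    subst hc
    simp
  | k + 1, l :: t, c, hc => by
    simp only [expand, List.head?_cons, Option.elim_some, List.tail_cons, List.mem_flatMap,
      List.mem_map] at hc
    obtain ⟨a, _, c', hc', rfl⟩ := hc
    have := expand_length k t c' hc'
    simp only [List.length_cons]
    omega

theorem poly_expand (pS : Polynomial ℕ) : ∀ k : ℕ, NPC.Poly (expand pS k)
  | 0 => NPC.Poly.const _
  | k + 1 => by
    have ih := poly_expand pS k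
    have h1 := poly_choices pS
    have e : expand pS (k + 1) = fun t => t.head?.elim [[]] fun l =>
      (choices pS l).flatMap fun a => (expand pS k t.tail).map fun c => a :: c := rfl
    rw [e]
    refine NPC.Poly.optElim (g := fun _ => [[]]) (h := fun t l =>
      (choices pS l).flatMap fun a => (expand pS k t.tail).map fun c => a :: c)
      (NPC.Poly.head? NPC.Poly.id) (NPC.Poly.const _) ?_
    refine NPC.Poly.flatMap (F := fun (x : List (Bool × List Bool) × (Bool × List Bool)) a =>
      (expand pS k x.1.tail).map fun c => a :: c) (h1.comp (NPC.Poly.snd NPC.Poly.id)) ?_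
    refine NPC.Poly.map (F := fun (x : (List (Bool × List Bool) × (Bool × List Bool)) × Stm) c =>
      x.2 :: c) (ih.comp (NPC.Poly.tail (NPC.Poly.fst (NPC.Poly.fst NPC.Poly.id)))) ?_
    fun_prop

/-! ### The sparse set of conjunctions -/

/-- The codes of conjunctions of at most `k` true statements. -/
def Conj (S : Set (List Bool)) (pS : Polynomial ℕ) (k : ℕ) : Set (List Bool) :=
  {z | ∃ c : List Stm, bits c = z ∧ c.length ≤ k ∧ ∀ a ∈ c, a.Holds S pS}

/-- The lists of length at most `k` with elements in a finite set. -/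
def listsOf (A : Finset Stm) : ℕ → Finset (List Stm)
  | 0 => {[]}
  | k + 1 => insert [] ((A ×ˢ listsOf A k).image fun x => x.1 :: x.2)

theorem mem_listsOf {A : Finset Stm} : ∀ (k : ℕ) (c : List Stm), c.length ≤ k → (∀ a ∈ c, a ∈ A) →
    c ∈ listsOf A k
  | 0, c, h, _ => by
    have : c = [] := List.length_eq_zero_iff.1 (by omega)
    subst this
    simp [listsOf]
  | k + 1, [], _, _ => by simp [listsOf]
  | k + 1, a :: c, h, h2 => by
    rw [List.length_cons] at h
    rw [List.forall_mem_cons] at h2
    have ih := mem_listsOf k c (by omega) h2.2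
    rw [listsOf, Finset.mem_insert, Finset.mem_image]
    exact Or.inr ⟨(a, c), Finset.mem_product.2 ⟨h2.1, ih⟩, rfl⟩

theorem card_listsOf (A : Finset Stm) : ∀ k : ℕ, (listsOf A k).card ≤ (A.card + 1) ^ k
  | 0 => by simp [listsOf]
  | k + 1 => by
    have ih := card_listsOf A k
    rw [listsOf]
    refine (Finset.card_insert_le _ _).trans ?_
    have h1 := (Finset.card_image_le (s := A ×ˢ listsOf A k) (f := fun x => x.1 :: x.2))
    rw [Finset.card_product] at h1
    have h2 : A.card * (listsOf A k).card ≤ A.card * (A.card + 1) ^ k := Nat.mul_le_mul_left _ ih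
    have h3 : 1 ≤ (A.card + 1) ^ k := Nat.one_le_pow _ _ (by omega)
    rw [pow_succ]
    nlinarith

/-- The number of true statements of bounded size. -/
theorem card_facts {S : Set (List Bool)} {pS : Polynomial ℕ}
    (hS : ∀ n : ℕ, {y | y ∈ S ∧ y.length = n}.ncard ≤ pS.eval n) (n : ℕ) :
    ∃ A : Finset Stm, (∀ a : Stm, a.Holds S pS → sz a ≤ n → a ∈ A) ∧
      A.card ≤ (n + 1) * pS.eval n + (n + 1) * ((PQ pS).eval n * (PQ pS).eval n) := by
  classical
  set Q := (PQ pS).eval n with hQ
  refine ⟨(finite_len S n).toFinset.image Sum.inl ∪ (Finset.range (n + 1) ×ˢ (Finset.range Q ×ˢ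
    Finset.range Q)).image (fun x => Sum.inr (List.replicate x.1 (), x.2)), fun a ha hn => ?_, ?_⟩
  · rw [Finset.mem_union, Finset.mem_image, Finset.mem_image]
    rcases a with y | ⟨N, q, b⟩
    · refine Or.inl ⟨y, (Set.Finite.mem_toFinset _).2 ⟨ha, ?_⟩, rfl⟩
      rw [sz_inl] at hn
      have := length_lt_sz y
      omega
    · obtain ⟨h1, h2, _⟩ := ha
      simp only at h1 h2
      rw [sz_inr] at hn
      simp only [sz_pair] at hn
      have hN := length_lt_sz N
      have h3 : (PQ pS).eval N.length ≤ Q := eval_mono _ (by omega)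
      refine Or.inr ⟨(N.length, q, b), ?_, ?_⟩
      · simp only [Finset.mem_product, Finset.mem_range]
        omega
      · simp only
        congr
        exact (List.eq_replicate_iff.2 ⟨rfl, fun _ _ => rfl⟩).symm
  · refine (Finset.card_union_le _ _).trans (Nat.add_le_add ?_ ?_)
    · exact Finset.card_image_le.trans (card_short hS n)
    · refine Finset.card_image_le.trans ?_
      simp [Finset.card_product]

theorem sparse_conj {S : Set (List Bool)} {pS : Polynomial ℕ}
    (hS : ∀ n : ℕ, {y | y ∈ S ∧ y.length = n}.ncard ≤ pS.eval n) (k : ℕ) :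
    Sparse (Conj S pS k) := by
  classical
  refine ⟨((Polynomial.X + Polynomial.C 1) * pS + (Polynomial.X + Polynomial.C 1) *
    (PQ pS * PQ pS) + Polynomial.C 1) ^ k, fun n => ?_⟩
  obtain ⟨A, hA, hA2⟩ := card_facts hS n
  have h1 : {z | z ∈ Conj S pS k ∧ z.length = n} ⊆ ((listsOf A k).image bits : Finset _) := by
    rintro z ⟨⟨c, rfl, hc, hc2⟩, hz⟩
    rw [Finset.mem_coe, Finset.mem_image]
    refine ⟨c, mem_listsOf k c hc fun a ha => hA a (hc2 a ha) ?_, rfl⟩
    have h2 := sz_le_of_mem ha
    rw [bits_length] at hz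
    omega
  refine (Set.ncard_le_ncard h1 (Finset.finite_toSet _)).trans ?_
  rw [Set.ncard_coe_finset]
  refine Finset.card_image_le.trans ((card_listsOf A k).trans ?_)
  simp only [Polynomial.eval_add, Polynomial.eval_mul, Polynomial.eval_pow, Polynomial.eval_X,
    Polynomial.eval_C]
  exact Nat.pow_le_pow_left (by omega) k

/-- Bounded-width reductions to sparse sets yield disjunctive reductions to sparse sets. -/
theorem dtt_of_dnf {k : ℕ} {L S : Set (List Bool)} (hS : Sparse S) (h : DNFRed k L S) :
    ∃ S', Sparse S' ∧ DTT L S' := by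
  obtain ⟨pS, hpS⟩ := hS
  obtain ⟨f, hf, hfk, hfL⟩ := h
  refine ⟨Conj S pS k, sparse_conj hpS k, fun x => (f x).flatMap fun t =>
    (expand pS k t).map fun c => bits c, ?_, fun x => ?_⟩
  · refine polyTime_post (g := fun F : List (List (Bool × List Bool)) => F.flatMap fun t =>
      (expand pS k t).map fun c => bits c) hf ?_
    refine NPC.Poly.flatMap (F := fun _ t => (expand pS k t).map fun c => bits c) NPC.Poly.id ?_
    refine NPC.Poly.map (F := fun _ c => bits c)
      ((poly_expand pS k).comp (NPC.Poly.snd NPC.Poly.id)) ?_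
    exact poly_bits (NPC.Poly.snd NPC.Poly.id)
  · rw [hfL x]
    constructor
    · rintro ⟨t, ht, h1⟩
      obtain ⟨c, hc, hc2⟩ := (expand_iff hpS k t (hfk x t ht)).1 h1
      exact ⟨bits c, List.mem_flatMap.2 ⟨t, ht, List.mem_map.2 ⟨c, hc, rfl⟩⟩, c, rfl,
        expand_length k t c hc, hc2⟩
    · rintro ⟨y, hy, c', hc', _, hc'2⟩
      obtain ⟨t, ht, hy2⟩ := List.mem_flatMap.1 hy
      obtain ⟨c, hc, rfl⟩ := List.mem_map.1 hy2
      rw [bits_injective hc'] at hc'2
      exact ⟨t, ht, (expand_iff hpS k t (hfk x t ht)).2 ⟨c, hc, hc'2⟩⟩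

/-- Passing to complements. -/
theorem dnf_compl_of_cnf {k : ℕ} {L S : Set (List Bool)} (h : CNFRed k L S) : DNFRed k Lᶜ S := by
  obtain ⟨f, hf, hfk, hfL⟩ := h
  refine ⟨fun x => (f x).map fun t => t.map fun l => (!l.1, l.2), ?_, fun x t ht => ?_, fun x => ?_⟩
  · refine polyTime_post (g := fun F : List (List (Bool × List Bool)) => F.map fun t =>
      t.map fun l => (!l.1, l.2)) hf ?_
    fun_prop
  · obtain ⟨t', ht', rfl⟩ := List.mem_map.1 ht
    rw [List.length_map]
    exact hfk x t' ht'
  · rw [Set.mem_compl_iff, hfL x]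
    push Not
    constructor
    · rintro ⟨t, ht, h1⟩
      refine ⟨_, List.mem_map.2 ⟨t, ht, rfl⟩, fun l hl => ?_⟩
      obtain ⟨l', hl', rfl⟩ := List.mem_map.1 hl
      have h2 := h1 l' hl'
      obtain ⟨b, y⟩ := l'
      cases b
      · simp at h2 ⊢
        tauto
      · simp at h2 ⊢
        tauto
    · rintro ⟨_, ht', h1⟩
      obtain ⟨t, ht, rfl⟩ := List.mem_map.1 ht'
      refine ⟨t, ht, fun l hl => ?_⟩
      have h2 := h1 _ (List.mem_map.2 ⟨l, hl, rfl⟩)
      obtain ⟨b, y⟩ := l
      cases b
      · simp at h2 ⊢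
        tauto
      · simp at h2 ⊢
        tauto

/-- The language of residues reduces to its complement. -/
theorem dtt_LB_of_compl {S : Set (List Bool)} (h : DTT LBᶜ S) : DTT LB S := by
  obtain ⟨f, hf, hfL⟩ := h
  refine ⟨fun x => (unbits Qry x).elim [] fun Q => f (bits ((!Q.1, Q.2) : Qry)), ?_, fun x => ?_⟩
  · have h1 : NPC.Poly (fun x : List Bool => (unbits Qry x).elim [] fun Q =>
        f (bits ((!Q.1, Q.2) : Qry))) := by
      refine NPC.Poly.optElim (o := fun x : List Bool => unbits Qry x) (g := fun _ => [])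
        (h := fun _ (Q : Qry) => f (bits ((!Q.1, Q.2) : Qry))) poly_unbits (NPC.Poly.const _) ?_
      exact poly_ask hf (Q := fun x : List Bool × Qry => (!x.2.1, x.2.2)) (by fun_prop)
    exact polyTime_bits h1
  · cases hx : unbits Qry x with
    | none =>
      simp only [hx, Option.elim_none, List.not_mem_nil, false_and, exists_false, iff_false]
      intro h1
      change evq (qsQ (unbits Qry x)) (chkQ (unbits Qry x)) = true at h1
      rw [hx] at h1
      simp [qsQ, chkQ, evq] at h1
    | some Q =>
      simp only [hx, Option.elim_some]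
      rw [← hfL, Set.mem_compl_iff]
      change evq (qsQ (unbits Qry x)) (chkQ (unbits Qry x)) = true ↔
        ¬ evq (qsQ (unbits Qry (bits ((!Q.1, Q.2) : Qry)))) (chkQ (unbits Qry (bits ((!Q.1, Q.2) :
          Qry)))) = true
      rw [hx, unbits_bits]
      obtain ⟨b, I, q, c⟩ := Q
      have h1 := evq_not (qsI I) (chk I q c)
      cases b
      · change evq ((qsI I).map fun q => !q) (fun u => !chk I q c u) = true ↔
          ¬ evq (qsI I) (chk I q c) = true
        rw [h1]
        simp
      · change evq (qsI I) (chk I q c) = true ↔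
          ¬ evq ((qsI I).map fun q => !q) (fun u => !chk I q c u) = true
        rw [h1]
        simp

theorem collapse_of_red {k : ℕ} {S : Set (List Bool)} (hS : Sparse S)
    (h : DNFRed k LB S ∨ CNFRed k LB S) {L : Set (List Bool)} (hL : InPSPACE L) : InP L := by
  rcases h with h | h
  · obtain ⟨S', h1, h2⟩ := dtt_of_dnf hS h
    exact collapse_of_dtt h1 h2 hL
  · obtain ⟨S', h1, h2⟩ := dtt_of_dnf hS (dnf_compl_of_cnf h)
    exact collapse_of_dtt h1 (dtt_LB_of_compl h2) hL

theorem dnf_of_inP {L : Set (List Bool)} (h : InP L) : DNFRed 0 L ∅ := by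
  obtain ⟨V, hV, hVL⟩ := h
  refine ⟨fun x => if V x = [true] then [[]] else [], ?_, fun x t ht => ?_, fun x => ?_⟩
  · have h1 : PC (id : List Bool → List Bool) (id : List Bool → List Bool) V :=
      H642R2.TMSim.polyTime_toPC hV
    have h2 : PC (id : List Bool → List Bool) (bits : List Bool → List Bool) V :=
      PC.comp (g := fun x => x) (f := V) PC.rawIn h1
    have h3 : NPC.Poly (fun v : List Bool => if v = [true] then [([] : List (Bool × List Bool))]
      else []) := by fun_prop
    exact PC.toPolyTime (show PC (id : List Bool → List Bool) (id : List Bool → List Bool)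
      (fun x => bits (if V x = [true] then [([] : List (Bool × List Bool))] else [])) from
        PC.comp (g := fun v : List Bool => if v = [true] then [([] : List (Bool × List Bool))]
          else []) (f := V) h3 h2)
  · simp only at ht
    split_ifs at ht with hc
    · rw [List.mem_singleton] at ht
      simp [ht]
    · simp at ht
  · rw [hVL x]
    by_cases hc : V x = [true]
    · simp [hc]
    · simp [hc]

end Pool.Agent.Helper70K1.SP
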