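import Pool.Agent.NPC.Defs

/-!
# Sparse sets and reductions by normal forms of bounded width
-/

set_option autoImplicit false

namespace Pool.Agent.Helper70K1.SP

open Pool.Agent.NPC

/-- A set of bit strings is sparse if it has at most polynomially many elements of each length. -/
def Sparse (S : Set (List Bool)) : Prop :=
  ∃ p : Polynomial ℕ, ∀ n : ℕ, {y | y ∈ S ∧ y.length = n}.ncard ≤ p.eval n

/-- Reducibility to `S` in polynomial time by a disjunction (of any length) of conjunctions of at
most `k` conditions on membership in `S`. The condition `(b, y)` is true if `y ∈ S` in the case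
`b = true` and if `y ∉ S` in the case `b = false`. -/
def DNFRed (k : ℕ) (L S : Set (List Bool)) : Prop :=
  ∃ f : List Bool → List (List (Bool × List Bool)), PolyTime (fun x => bits (f x)) ∧
    (∀ x, ∀ t ∈ f x, t.length ≤ k) ∧ ∀ x, x ∈ L ↔ ∃ t ∈ f x, ∀ l ∈ t, (l.2 ∈ S ↔ l.1 = true)

/-- Reducibility to `S` in polynomial time by a conjunction (of any length) of disjunctions of at
most `k` conditions on membership in `S`. -/
def CNFRed (k : ℕ) (L S : Set (List Bool)) : Prop :=
  ∃ f : List Bool → List (List (Bool × List Bool)), PolyTime (fun x => bits (f x)) ∧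
    (∀ x, ∀ t ∈ f x, t.length ≤ k) ∧ ∀ x, x ∈ L ↔ ∀ t ∈ f x, ∃ l ∈ t, (l.2 ∈ S ↔ l.1 = true)

end Pool.Agent.Helper70K1.SP
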