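import Pool.Agent.Helper70K1.SP.AlgPoly
import Pool.Agent.Helper70K1.SP.Defs
import Pool.Agent.H656R2.AK.TQPoly

/-!
# Sparse sets that are hard for PSPACE under disjunctive reductions
-/

set_option autoImplicit false

namespace Pool.Agent.Helper70K1.SP

open Pool.Agent.NPC
open Pool.Agent.H623R2.PS (evq InPSPACE poly_replicate)
open Pool.Agent.H656R2.AK (evc QF QFwf qbf_hard)

/-- Disjunctive truth-table reducibility in polynomial time. -/
def DTT (L S : Set (List Bool)) : Prop :=
  ∃ f : List Bool → List (List Bool), PolyTime (fun x => bits (f x)) ∧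
    ∀ x, x ∈ L ↔ ∃ y ∈ f x, y ∈ S

theorem finite_len (S : Set (List Bool)) (n : ℕ) : {y | y ∈ S ∧ y.length ≤ n}.Finite :=
  (List.finite_length_le Bool n).subset fun _ hy => hy.2

theorem card_short {S : Set (List Bool)} {p : Polynomial ℕ}
    (hp : ∀ n : ℕ, {y | y ∈ S ∧ y.length = n}.ncard ≤ p.eval n) (R : ℕ) :
    (finite_len S R).toFinset.card ≤ (R + 1) * p.eval R := by
  classical
  have hf : ∀ l : ℕ, {y | y ∈ S ∧ y.length = l}.Finite := fun l =>
    (finite_len S l).subset fun _ hy => ⟨hy.1, hy.2.le⟩
  have h1 : (finite_len S R).toFinset ⊆ (Finset.range (R + 1)).biUnion fun l => (hf l).toFinset := by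
    intro y hy
    rw [Set.Finite.mem_toFinset] at hy
    rw [Finset.mem_biUnion]
    exact ⟨y.length, Finset.mem_range.2 (Nat.lt_succ_iff.2 hy.2),
      (Set.Finite.mem_toFinset _).2 ⟨hy.1, rfl⟩⟩
  refine (Finset.card_le_card h1).trans (Finset.card_biUnion_le.trans ?_)
  refine (Finset.sum_le_card_nsmul _ _ (p.eval R) fun l hl => ?_).trans ?_
  · rw [Finset.mem_range] at hl
    rw [← Set.ncard_eq_toFinset_card _ (hf l)]
    exact (hp l).trans (eval_mono p (by omega))
  · rw [Finset.card_range, smul_eq_mul]

/-- Polynomials are smaller than the exponential function. -/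
theorem poly_lt_two_pow (P : Polynomial ℕ) : ∃ c, ∀ m ≥ c, P.eval m < 2 ^ m := by
  have h : (fun m : ℕ => ((P.eval m : ℕ) : ℝ)) =o[Filter.atTop] fun m : ℕ => (2 : ℝ) ^ m := by
    induction P using Polynomial.induction_on' with
    | add p q hp hq =>
      simpa only [Polynomial.eval_add, Nat.cast_add] using hp.add hq
    | monomial k c =>
      simp only [Polynomial.eval_monomial, Nat.cast_mul, Nat.cast_pow]
      exact (isLittleO_pow_const_const_pow_of_one_lt k (by norm_num)).const_mul_left _
  have h1 := h.bound (show (0 : ℝ) < 1 / 2 by norm_num)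
  obtain ⟨c, hc⟩ := Filter.eventually_atTop.1 h1
  refine ⟨c, fun m hm => ?_⟩
  have h2 := hc m hm
  rw [Real.norm_of_nonneg (by positivity), Real.norm_of_nonneg (by positivity)] at h2
  have h3 : ((P.eval m : ℕ) : ℝ) < ((2 ^ m : ℕ) : ℝ) := by
    push_cast
    have : (0 : ℝ) < 2 ^ m := by positivity
    linarith
  exact_mod_cast h3

/-! ### The list of operations -/

theorem opsQ_eq (n : ℕ) : ∀ (qs : List Bool) (k : ℕ),
    opsQ n k qs = (qs.zipIdx k).flatMap fun e => (some e.1, e.2) :: lins n
  | [], _ => rfl
  | q :: qs, k => by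
    rw [opsQ, opsQ_eq n qs (k + 1), List.zipIdx_cons, List.flatMap_cons, List.cons_append]

theorem opsQ_idx (n : ℕ) : ∀ (qs : List Bool) (k : ℕ), k + qs.length ≤ n →
    ∀ o ∈ opsQ n k qs, o.2 < n
  | [], _, _, o, ho => by simp [opsQ] at ho
  | q :: qs, k, h, o, ho => by
    rw [List.length_cons] at h
    rw [opsQ, List.mem_cons, List.mem_append] at ho
    rcases ho with rfl | ho | ho
    · simp only; omega
    · unfold lins at ho
      obtain ⟨i, hi, rfl⟩ := List.mem_map.1 ho
      exact List.mem_range.1 hi
    · exact opsQ_idx n qs (k + 1) (by omega) o ho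

theorem poly_opsQ {α : Type} [TEnc α] {qs : α → List Bool} (h : NPC.Poly qs) :
    NPC.Poly (fun a => opsQ (qs a).length 0 (qs a)) := by
  have h1 : NPC.Poly (fun a => lins (qs a).length) := by
    unfold lins
    refine NPC.Poly.map (F := fun _ i => ((none, i) : Op)) (NPC.Poly.range_length h) ?_
    fun_prop
  refine (NPC.Poly.flatMap (F := fun a e => (some e.1, e.2) :: lins (qs a).length)
    (NPC.Poly.zipIdx h) ?_).congr fun a => (opsQ_eq _ _ _).symm
  exact NPC.Poly.cons (by fun_prop) (h1.comp (NPC.Poly.fst NPC.Poly.id))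

/-! ### Finding a prime -/

/-- The first prime above `M`. -/
def findP (M : ℕ) : ℕ :=
  (((List.range (2 * M + 1)).filter fun t => decide (M < t) && primeN (2 * M + 1) t).head?).getD 0

theorem findP_spec {M : ℕ} (hM : M ≠ 0) : (findP M).Prime ∧ M < findP M ∧ findP M ≤ 2 * M := by
  obtain ⟨p, hp, h1, h2⟩ := Nat.exists_prime_lt_and_le_two_mul M hM
  have h3 : p ∈ (List.range (2 * M + 1)).filter fun t =>
      decide (M < t) && primeN (2 * M + 1) t := by
    rw [List.mem_filter, List.mem_range, Bool.and_eq_true, decide_eq_true_eq]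
    exact ⟨by omega, h1, (primeN_iff (by omega)).2 hp⟩
  unfold findP
  cases h : (List.range (2 * M + 1)).filter fun t => decide (M < t) && primeN (2 * M + 1) t with
  | nil => rw [h] at h3; simp at h3
  | cons t l =>
    have h4 : t ∈ (List.range (2 * M + 1)).filter fun t =>
        decide (M < t) && primeN (2 * M + 1) t := by rw [h]; exact List.mem_cons_self
    rw [List.mem_filter, List.mem_range, Bool.and_eq_true, decide_eq_true_eq] at h4
    simp only [List.head?_cons, Option.getD_some]
    exact ⟨(primeN_iff (by omega)).1 h4.2.2, h4.2.1, by omega⟩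

theorem poly_findP {α : Type} [TEnc α] {M : α → ℕ} (hM : UPoly M) :
    NPC.Poly (fun a => findP (M a)) := by
  have h1 : UPoly (fun a => 2 * M a + 1) := UPoly.add (UPoly.mul (UPoly.const 2) hM) (UPoly.const 1)
  have h2 : NPC.Poly (fun x : α × ℕ => primeN (2 * M x.1 + 1) x.2) :=
    poly_primeN (h1.comp (NPC.Poly.fst NPC.Poly.id)) (NPC.Poly.snd NPC.Poly.id)
  have h3 := hM.toPoly
  unfold findP
  refine NPC.Poly.optGetD (NPC.Poly.head? (NPC.Poly.filter (p := fun a t => decide (M a < t) &&
    primeN (2 * M a + 1) t) h1.range ?_)) (NPC.Poly.const 0)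
  fun_prop

/-! ### Parameters -/

/-- The bound for the size of the queries. -/
noncomputable def PN : Polynomial ℕ :=
  Polynomial.C 4 * Polynomial.X * Polynomial.X + Polynomial.C 30 * Polynomial.X + Polynomial.C 30

variable (R0 pS : Polynomial ℕ)

/-- The bound for the answers. -/
noncomputable def PR : Polynomial ℕ := R0.comp PN

/-- The bound for the number of short elements of the sparse set. -/
noncomputable def Ps : Polynomial ℕ := (PR R0 + Polynomial.C 1) * pS.comp (PR R0)

/-- The bound for the primes. -/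
noncomputable def PB : Polynomial ℕ :=
  Polynomial.C 2 * (Ps R0 pS * (Polynomial.X * Polynomial.X) + Polynomial.C 1 + Polynomial.C 4) ^ 2 +
    Polynomial.C 1

/-- The bound for the number of candidates. -/
noncomputable def PK : Polynomial ℕ := PB R0 pS * PB R0 pS * PR R0

/-- The lower bound for the modulus. -/
noncomputable def PM : Polynomial ℕ :=
  PK R0 pS * PK R0 pS * Polynomial.X + Polynomial.X + Polynomial.C 2

/-- The upper bound for the modulus. -/
noncomputable def PD : Polynomial ℕ := Polynomial.C 2 * PM R0 pS + Polynomial.C 1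

theorem sz_lt_two_pow {a m : ℕ} (h : a < 2 ^ m) : sz a ≤ 4 * m + 1 := by
  have h1 := sz_nat_le a
  have h2 : a.size ≤ m := Nat.size_le.2 h
  omega

theorem sz_replicate (m : ℕ) : sz (List.replicate m ()) = 2 * m + 1 := by
  induction m with
  | zero => rfl
  | succ m ih => rw [List.replicate_succ, sz_list_cons, ih, sz_unit]; ring

theorem sz_suffix {γ : Type} [TEnc γ] {l l' : List γ} (h : l <:+ l') : sz l ≤ sz l' := by
  obtain ⟨t, rfl⟩ := h
  have := sz_append t l
  have := sz_pos t
  omega

theorem sz_query {m p : ℕ} {F : List (List (Bool × ℕ))} {os : List Op} {r : List ℕ} {i : ℕ}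
    {e : ℕ × ℕ} (hp : p < 2 ^ m) (hF : sz F ≤ m) (hos : sz os ≤ m) (hr : r.length ≤ m)
    (hr2 : ∀ a ∈ r, a ≤ p) (hi : i < m) (h1 : e.1 < 2 ^ m) (h2 : e.2 < 2 ^ m) :
    sz ((true, ((List.replicate m (), p, F, os, r, i) : Ins), e) : Qry) ≤ PN.eval m := by
  obtain ⟨q, b⟩ := e
  have h3 : sz r ≤ m * (4 * m + 2) + 1 := by
    refine (sz_le_length_mul r (4 * m + 1) fun a ha => sz_lt_two_pow (by
      have := hr2 a ha
      omega)).trans ?_
    exact Nat.add_le_add_right (Nat.mul_le_mul_right _ hr) _
  have h4 := sz_lt_two_pow (a := i) (m := m) (hi.trans Nat.lt_two_pow_self)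
  have h5 := sz_lt_two_pow hp
  have h6 := sz_lt_two_pow h1
  have h7 := sz_lt_two_pow h2
  simp only [sz_pair, sz_replicate, sz_true, PN, Polynomial.eval_add, Polynomial.eval_mul,
    Polynomial.eval_C, Polynomial.eval_X] at *
  nlinarith

/-! ### The main theorem -/

theorem collapse_of_dtt {S : Set (List Bool)} (hS : Sparse S) (h : DTT LB S)
    {L : Set (List Bool)} (hL : InPSPACE L) : InP L := by
  obtain ⟨pS, hpS⟩ := hS
  obtain ⟨f, hf, hfS⟩ := h
  obtain ⟨R0, hR0⟩ := (poly_ask hf (Q := fun Q : Qry => Q) NPC.Poly.id).sz_le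
  obtain ⟨g, hg, hgwf, hgL⟩ := qbf_hard hL
  -- the size parameter
  have hbig : NPC.Poly (fun x : List Bool => ((g x).2, (opsQ (g x).1.length 0 (g x).1,
      (g x).1))) := by
    have h1 : NPC.Poly (fun x : List Bool => (g x).1) := NPC.Poly.fst hg
    have h2 := poly_opsQ h1
    fun_prop
  obtain ⟨r1, hr1⟩ := hbig.sz_le
  obtain ⟨c0, hc0⟩ := poly_lt_two_pow (PD R0 pS + PB R0 pS)
  set mm : List Bool → ℕ := fun x => r1.eval (4 * x.length + 1) + 10 + c0 with hmm
  have hmmU : UPoly mm := by
    refine UPoly.add (UPoly.add ?_ (UPoly.const 10)) (UPoly.const c0)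
    exact (UPoly.add (UPoly.mul (UPoly.const 4) (UPoly.length NPC.Poly.id))
      (UPoly.const 1)).eval r1
  set pp : List Bool → ℕ := fun x => findP ((PM R0 pS).eval (mm x)) - 1 with hpp
  have hppP : NPC.Poly pp := by
    have := poly_findP (hmmU.eval (PM R0 pS))
    fun_prop
  set WW : List Bool → List Unit := fun x => List.replicate (mm x) () with hWW
  have hWWl : ∀ x, (WW x).length = mm x := fun x => by rw [hWW]; simp
  set rr : List Bool → List ℕ := fun x => List.replicate (g x).1.length 0 with hrr
  have hrrP : NPC.Poly rr := poly_replicate (UPoly.length (NPC.Poly.fst hg)) 0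
  set dec : List Bool → Bool := fun x => decide (run f ((PB R0 pS).eval (WW x).length)
    ((PD R0 pS).eval (WW x).length) (WW x) (pp x) (g x).2 (opsQ (g x).1.length 0 (g x).1) (rr x) %
      (pp x + 1) = 1) with hdec
  have hdecP : NPC.Poly dec := by
    have h1 := poly_run hf (PB R0 pS) (PD R0 pS) (W := WW) (p := pp) (F := fun x => (g x).2)
      (os := fun x => opsQ (g x).1.length 0 (g x).1) (r := rr) hmmU hppP (NPC.Poly.snd hg)
      (poly_opsQ (NPC.Poly.fst hg)) hrrP
    exact NPC.Poly.dec_eq (NPC.Poly.mod h1 (by fun_prop)) (NPC.Poly.const 1)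
  refine ⟨fun x => [dec x], polyTime_of_poly hdecP, fun x => ?_⟩
  -- correctness
  set m := mm x with hm
  have hsz : sz (g x).2 + sz (opsQ (g x).1.length 0 (g x).1) + sz (g x).1 + 10 + c0 ≤ m := by
    have h1 := hr1 x
    have h2 := sz_listBool_le x
    have h3 := eval_mono r1 h2
    simp only [sz_pair] at h1
    rw [hm, hmm]
    simp only
    omega
  have hn : (g x).1.length < sz (g x).1 := length_lt_sz _
  have hpow := hc0 m (by omega)
  rw [Polynomial.eval_add] at hpow
  have hfp := findP_spec (M := (PM R0 pS).eval m) (by simp [PM])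
  have hpx : pp x = findP ((PM R0 pS).eval m) - 1 := rfl
  have hPM : (PM R0 pS).eval m = (PK R0 pS).eval m * (PK R0 pS).eval m * m + m + 2 := by
    simp [PM]
  have hPD : (PD R0 pS).eval m = 2 * (PM R0 pS).eval m + 1 := by simp [PD]
  have hp1 : pp x + 1 = findP ((PM R0 pS).eval m) := by omega
  have hprime : Fact (pp x + 1).Prime := ⟨by rw [hp1]; exact hfp.1⟩
  set p := pp x with hp
  have hpm : p < 2 ^ (WW x).length := by rw [hWWl, ← hm]; omega
  have hdegleaf : (((g x).2).map List.length).sum + 2 < m := by
    have key : ∀ F : List (List (Bool × ℕ)), (F.map List.length).sum + 1 ≤ sz F := by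
      intro F
      induction F with
      | nil => simp
      | cons c F ih =>
        have := length_lt_sz c
        simp only [List.map_cons, List.sum_cons, sz_list_cons]
        omega
    have := key (g x).2
    omega
  have hrc := run_correct (f := f) (B := (PB R0 pS).eval (WW x).length)
    (D := (PD R0 pS).eval (WW x).length) (W := WW x) (p := p) (F := (g x).2)
    (os0 := opsQ (g x).1.length 0 (g x).1) (n := (g x).1.length)
    (d := (((g x).2).map List.length).sum + 2) (K := (PK R0 pS).eval m) hpm (by omega)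
    (by rw [hWWl, ← hm]; exact hdegleaf) (by rw [hWWl, ← hm]; omega)
    (by rw [hWWl, ← hm]; omega) (opsQ_idx _ _ _ (by omega))
    (allDeg_suffix (by omega) (fun i _ => (degLE_leafC _ i).mono (by omega)) _ _) ?_
    (opsQ (g x).1.length 0 (g x).1) (rr x) List.suffix_rfl (by rw [hrr]; simp) (by
      intro a ha
      rw [hrr] at ha
      simp only at ha
      rw [List.eq_of_mem_replicate ha]
      exact Nat.zero_le _)
  · -- the final equivalence
    rw [hgL x]
    have e1 : pt p (rr x) = fun _ => (0 : ZMod (p + 1)) := by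
      funext i
      unfold pt
      rw [hrr]
      simp only
      by_cases hi : i < (g x).1.length
      · rw [List.getD_eq_getElem _ _ (by simpa using hi)]
        simp
      · rw [List.getD_eq_getElem?_getD, List.getElem?_eq_none (by simpa using hi)]
        simp
    rw [e1, val_ops] at hrc
    have h2 : ∀ y : ℕ, y % (p + 1) = 1 ↔ (y : ZMod (p + 1)) = 1 := by
      intro y
      have h3 := ZMod.natCast_eq_natCast_iff' y 1 (p + 1)
      rw [Nat.mod_eq_of_lt (a := 1) (by have := hprime.out.one_lt; omega), Nat.cast_one] at h3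
      exact h3.symm
    simp only [List.cons.injEq, and_true, hdec, decide_eq_true_eq]
    rw [h2, hrc]
    unfold bit
    split_ifs with hb
    · simp [hb]
    · simp [hb]
  · -- the candidates
    intro os r i hos hrl hra hi
    set I : Ins := (WW x, p, (g x).2, os, r, i) with hI
    have hIm : I.m = m := by
      change (WW x).length = m
      rw [hWWl]
    have hW : WW x = List.replicate m () := rfl
    have hqsz : ∀ e ∈ prs ((PB R0 pS).eval (WW x).length),
        sz (f (bits ((true, I, e) : Qry))) ≤ (PR R0).eval m := by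
      intro e he
      have h1 := mem_prs.1 he
      rw [hWWl, ← hm] at h1
      refine (hR0 (true, I, e)).trans ?_
      unfold PR
      rw [Polynomial.eval_comp]
      refine eval_mono _ ?_
      rw [hI, hW]
      refine sz_query (by rw [hWWl, ← hm] at hpm; exact hpm) (by omega)
        ((sz_suffix hos).trans (by omega)) (by omega) hra (by omega) (by omega) (by omega)
    have hPK : (PK R0 pS).eval m = (PB R0 pS).eval m * (PB R0 pS).eval m * (PR R0).eval m := by
      simp [PK]
    constructor
    · rw [hPK]
      have h1 := length_cand_le (f := f) (B := (PB R0 pS).eval (WW x).length)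
        (R := (PR R0).eval m) (I := I) fun e he =>
          (length_lt_sz (f (bits ((true, I, e) : Qry)))).le.trans (hqsz e he)
      rw [hWWl, ← hm] at h1 ⊢
      exact h1
    · intro V hV
      have hwf : Wf I := ⟨by rw [hIm]; rw [hWWl, ← hm] at hpm; exact hpm, by
        change i < r.length
        omega, fun o ho => by
        change o.2 < r.length
        rw [hrl]
        exact opsQ_idx _ _ 0 (by omega) o (hos.subset ho)⟩
      have hIp : I.p = p := rfl
      have : Fact (I.p + 1).Prime := hprime
      have hmain := cand_mem (f := f) (B := (PB R0 pS).eval (WW x).length) (I := I) S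
        (finite_len S ((PR R0).eval m)).toFinset ((Ps R0 pS).eval m) hV ?_ ?_ ?_ ?_
      · change cf I.m V ∈ _
        exact hmain
      · intro e he
        rw [← hfS, mem_LB_true hwf]
        constructor
        · rintro ⟨V', h1, h2⟩
          rwa [good_unique (I := I) (by rw [hIm, hIp]; omega) hV h1]
        · intro h1
          exact ⟨V, hV, h1⟩
      · intro e he σ hσ hσS
        rw [Set.Finite.mem_toFinset]
        refine ⟨hσS, ?_⟩
        have h1 := hqsz e he
        have h2 := sz_le_of_mem hσ
        have h3 := length_lt_sz σ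
        omega
      · have h1 := card_short hpS ((PR R0).eval m)
        refine h1.trans (le_of_eq ?_)
        simp [Ps, Polynomial.eval_comp]
      · rw [hIm, hWWl, ← hm]
        have h1 := card_primes ((Ps R0 pS).eval m * (m * m) + 1)
        have h2 : (PB R0 pS).eval m = 2 * ((Ps R0 pS).eval m * (m * m) + 1 + 4) ^ 2 + 1 := by
          simp [PB]
        rw [h2]
        omega

end Pool.Agent.Helper70K1.SP
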