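import Pool.Agent.Helper70K1.SP.Main

/-!
# Pruning lists of candidates with membership comparability
-/

set_option autoImplicit false

namespace Pool.Agent.Helper70K1.SP

open Pool.Agent.NPC

/-! ### Binomial sums -/

theorem sum_choose_le (k e : ℕ) :
    ∑ i ∈ Finset.range (k + 1), (8 * e).choose i ≤ 2 ^ (4 * k + e) := by
  have h17 : (17 : ℕ) ^ (8 * e) ≤ 2 ^ e * 16 ^ (8 * e) := by
    rw [pow_mul, pow_mul, ← mul_pow]
    exact Nat.pow_le_pow_left (by norm_num) e
  have h1 : (∑ i ∈ Finset.range (k + 1), (8 * e).choose i) * 16 ^ (8 * e) ≤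
      16 ^ k * 17 ^ (8 * e) := by
    have h2 : (17 : ℕ) ^ (8 * e) = ∑ i ∈ Finset.range (8 * e + 1),
        16 ^ (8 * e - i) * (8 * e).choose i := by
      have := add_pow (1 : ℕ) 16 (8 * e)
      simpa using this
    rw [h2, Finset.sum_mul, Finset.mul_sum]
    have h3 : ∀ i ∈ Finset.range (k + 1), (8 * e).choose i * 16 ^ (8 * e) ≤
        16 ^ k * (16 ^ (8 * e - i) * (8 * e).choose i) := by
      intro i hi
      rw [Finset.mem_range] at hi
      rw [← mul_assoc, ← pow_add, mul_comm]
      exact Nat.mul_le_mul_right _ (Nat.pow_le_pow_right (by norm_num) (by omega))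
    refine (Finset.sum_le_sum h3).trans ?_
    by_cases hk : k ≤ 8 * e
    · exact Finset.sum_le_sum_of_subset (Finset.range_mono (by omega))
    · have h4 : ∑ i ∈ Finset.range (k + 1), 16 ^ k * (16 ^ (8 * e - i) * (8 * e).choose i) =
          ∑ i ∈ Finset.range (8 * e + 1), 16 ^ k * (16 ^ (8 * e - i) * (8 * e).choose i) := by
        symm
        refine Finset.sum_subset (Finset.range_mono (by omega)) fun i _ hi => ?_
        rw [Finset.mem_range] at hi
        rw [Nat.choose_eq_zero_of_lt (by omega)]
        simp
      rw [h4]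
  have h5 : (∑ i ∈ Finset.range (k + 1), (8 * e).choose i) * 16 ^ (8 * e) ≤
      2 ^ (4 * k + e) * 16 ^ (8 * e) := by
    refine h1.trans ?_
    calc 16 ^ k * 17 ^ (8 * e) ≤ 16 ^ k * (2 ^ e * 16 ^ (8 * e)) := Nat.mul_le_mul_left _ h17
      _ = 2 ^ (4 * k + e) * 16 ^ (8 * e) := by
        have h6 : (16 : ℕ) ^ k = 2 ^ (4 * k) := by rw [pow_mul]; norm_num
        rw [h6, pow_add]
        ring
  exact Nat.le_of_mul_le_mul_right h5 (by positivity)

/-! ### Bits -/

/-- The bit number `i`. -/
def tb (n i : ℕ) : Bool := n.bits.getD i false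

theorem tb_eq (n i : ℕ) : tb n i = n.testBit i := by
  rw [Nat.testBit_eq_inth, tb, List.getD_eq_getElem?_getD, List.getI_eq_getElem?_getD]
  rfl

/-- The positions of the bits of a mask. -/
def posOf (l t : ℕ) : List ℕ := (List.range l).filter fun i => tb t i

/-- The pattern excluded by a comparison function. -/
def excl (f : List Bool → List Bool) (k : ℕ) (qs : List (List Bool)) : List Bool :=
  (List.range k).map fun i => (f (bits qs)).getD i false

/-- The candidate `v` (with hash value `v % h`) is not excluded. -/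
def keep (f : List Bool → List Bool) (qb : ℕ → ℕ → ℕ → List Bool) (k l j h v : ℕ) : Bool :=
  (List.range (2 ^ l)).all fun t => !decide ((posOf l t).length = k) ||
    !decide (excl f k ((posOf l t).map (qb j h)) = (posOf l t).map (tb (v % h)))

/-- A modulus with different residues for all candidates. -/
def hsh (l : ℕ) (A : List ℕ) : ℕ :=
  (((List.range (2 ^ l)).filter fun h => decide (0 < h) && A.all fun u => A.all fun v =>
    decide (u = v) || !decide (u % h = v % h)).head?).getD 0

/-- One more bit. -/
def stepA (f : List Bool → List Bool) (qb : ℕ → ℕ → ℕ → List Bool) (k l j : ℕ) (A : List ℕ) :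
    List ℕ :=
  (A ++ A.map fun v => v + 2 ^ j).filter
    (keep f qb k l (j + 1) (hsh l (A ++ A.map fun v => v + 2 ^ j)))

/-- The candidates for the first `j` bits. -/
def listA (f : List Bool → List Bool) (qb : ℕ → ℕ → ℕ → List Bool) (k l : ℕ) : ℕ → List ℕ
  | 0 => [0]
  | j + 1 => stepA f qb k l j (listA f qb k l j)

section

variable {f : List Bool → List Bool} {qb : ℕ → ℕ → ℕ → List Bool} {k l : ℕ}

theorem listA_lt : ∀ (j : ℕ), ∀ v ∈ listA f qb k l j, v < 2 ^ j
  | 0, v, hv => by
    simp only [listA, List.mem_singleton] at hv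
    simp [hv]
  | j + 1, v, hv => by
    rw [listA, stepA, List.mem_filter, List.mem_append, List.mem_map] at hv
    rw [pow_succ]
    rcases hv.1 with h | ⟨u, h, rfl⟩
    · have := listA_lt j v h
      omega
    · have := listA_lt j u h
      omega

theorem nodup_ext {A : List ℕ} {j : ℕ} (hA : A.Nodup) (h : ∀ v ∈ A, v < 2 ^ j) :
    (A ++ A.map fun v => v + 2 ^ j).Nodup := by
  rw [List.nodup_append']
  refine ⟨hA, hA.map fun a b hab => by omega, fun v hv hv2 => ?_⟩
  obtain ⟨u, hu, rfl⟩ := List.mem_map.1 hv2
  have := h _ hv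
  omega

theorem nodup_listA : ∀ j : ℕ, (listA f qb k l j).Nodup
  | 0 => by simp [listA]
  | j + 1 => by
    rw [listA, stepA]
    exact (nodup_ext (nodup_listA j) (listA_lt j)).filter _

/-- Good moduli exist if there are few candidates. -/
theorem hsh_spec {A : List ℕ} {j B : ℕ} (hlt : ∀ v ∈ A, v < 2 ^ j) (hB : A.length ≤ B)
    (hl : 2 * (B * B * j + 1 + 4) ^ 2 + 1 ≤ 2 ^ l) :
    0 < hsh l A ∧ hsh l A < 2 ^ l ∧ ∀ u ∈ A, ∀ v ∈ A, u % hsh l A = v % hsh l A → u = v := by
  classical
  set P := (Finset.range (2 * (B * B * j + 1 + 4) ^ 2 + 1)).filter Nat.Prime with hP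
  have hPc : B * B * j < P.card := card_primes (B * B * j + 1)
  -- a good prime
  have hex : ∃ q ∈ P, ∀ u ∈ A, ∀ v ∈ A, u % q = v % q → u = v := by
    by_contra hcon
    push Not at hcon
    have h1 : P ⊆ (A.toFinset ×ˢ A.toFinset).biUnion fun x =>
        if x.1 = x.2 then ∅ else P.filter fun q => x.1 % q = x.2 % q := by
      intro q hq
      obtain ⟨u, hu, v, hv, h2, h3⟩ := hcon q hq
      rw [Finset.mem_biUnion]
      refine ⟨(u, v), by simp [hu, hv], ?_⟩
      rw [if_neg h3, Finset.mem_filter]
      exact ⟨hq, h2⟩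
    have h2 : ∀ x ∈ A.toFinset ×ˢ A.toFinset, (if x.1 = x.2 then (∅ : Finset ℕ) else
        P.filter fun q => x.1 % q = x.2 % q).card ≤ j := by
      rintro ⟨u, v⟩ hx
      rw [Finset.mem_product, List.mem_toFinset, List.mem_toFinset] at hx
      split_ifs with huv
      · simp
      · by_contra hj
        push Not at hj
        set l' : List (ℕ × ℕ) := (P.filter fun q => u % q = v % q).toList.map
          fun q => (q, u % q) with hl'
        have hlen : j ≤ l'.length := by
          rw [hl', List.length_map, Finset.length_toList]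
          exact hj.le
        have hmem : ∀ e ∈ l', e.1.Prime ∧ e.1 ≤ 2 * (B * B * j + 1 + 4) ^ 2 + 1 ∧ u % e.1 = e.2 ∧
            v % e.1 = e.2 := by
          intro e he
          obtain ⟨q, hq, rfl⟩ := List.mem_map.1 he
          rw [Finset.mem_toList, Finset.mem_filter] at hq
          have h4 := hq.1
          rw [hP, Finset.mem_filter, Finset.mem_range] at h4
          exact ⟨h4.2, h4.1.le, rfl, hq.2.symm⟩
        have hnd : (l'.map Prod.fst).Nodup := by
          rw [hl', List.map_map]
          have : (Prod.fst ∘ fun q => (q, u % q)) = (id : ℕ → ℕ) := rfl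
          rw [this, List.map_id]
          exact Finset.nodup_toList _
        have h5 := crt_eq (X := 2 ^ j) (fun e he =>
          ⟨(hmem e he).1, (hmem e he).2.1, (hmem e he).2.2.1⟩) hnd (hlt u hx.1)
          (Nat.pow_le_pow_right (by norm_num) hlen)
        have h6 := crt_eq (X := 2 ^ j) (fun e he =>
          ⟨(hmem e he).1, (hmem e he).2.1, (hmem e he).2.2.2⟩) hnd (hlt v hx.2)
          (Nat.pow_le_pow_right (by norm_num) hlen)
        exact huv (h5.symm.trans h6)
    have h3 := (Finset.card_le_card h1).trans (Finset.card_biUnion_le.trans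
      (Finset.sum_le_card_nsmul _ _ j h2))
    rw [Finset.card_product, smul_eq_mul] at h3
    have h4 := (List.toFinset_card_le A).trans hB
    have h5 : A.toFinset.card * A.toFinset.card * j ≤ B * B * j :=
      Nat.mul_le_mul_right _ (Nat.mul_le_mul h4 h4)
    omega
  obtain ⟨q, hq, hq2⟩ := hex
  rw [hP, Finset.mem_filter, Finset.mem_range] at hq
  obtain ⟨h, h1, _, h2⟩ := head_filter_range (B := 2 ^ l) (t₀ := q)
    (p := fun h => decide (0 < h) && A.all fun u => A.all fun v =>
      decide (u = v) || !decide (u % h = v % h)) (lt_of_lt_of_le hq.1 hl) (by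
      rw [Bool.and_eq_true, decide_eq_true_eq, List.all_eq_true]
      refine ⟨hq.2.pos, fun u hu => ?_⟩
      rw [List.all_eq_true]
      intro v hv
      rw [Bool.or_eq_true, decide_eq_true_eq, Bool.not_eq_true', decide_eq_false_iff_not]
      by_cases huv : u = v
      · exact Or.inl huv
      · exact Or.inr fun h => huv (hq2 u hu v hv h))
  have h3 : hsh l A = h := by rw [hsh, h1, Option.getD_some]
  have h4 : h ∈ (List.range (2 ^ l)).filter fun h => decide (0 < h) && A.all fun u => A.all fun v =>
      decide (u = v) || !decide (u % h = v % h) := List.mem_of_mem_head? (by rw [h1]; rfl)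
  rw [List.mem_filter, List.mem_range] at h4
  rw [h3]
  rw [Bool.and_eq_true, decide_eq_true_eq, List.all_eq_true] at h2
  refine ⟨h2.1, h4.1, fun u hu v hv huv => ?_⟩
  have h5 := h2.2 u hu
  rw [List.all_eq_true] at h5
  have h6 := h5 v hv
  rw [Bool.or_eq_true, decide_eq_true_eq, Bool.not_eq_true', decide_eq_false_iff_not] at h6
  exact h6.resolve_right fun h7 => h7 huv

theorem excl_length (qs : List (List Bool)) : (excl f k qs).length = k := by simp [excl]

/-- Few candidates are kept. -/
theorem card_kept {A : List ℕ} {e j h : ℕ} (hl : l = 8 * e) (hA : A.Nodup) (h0 : 0 < h)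
    (hh : h < 2 ^ l) (hinj : ∀ u ∈ A, ∀ v ∈ A, u % h = v % h → u = v) :
    (A.filter (keep f qb k l j h)).length ≤ 2 ^ (4 * k + e) := by
  classical
  set A' := A.filter (keep f qb k l j h) with hA'
  -- the sets of bits
  set bs : ℕ → Finset (Fin l) := fun v => Finset.univ.filter fun i => tb (v % h) i = true with hbs
  set 𝒜 : Finset (Finset (Fin l)) := A'.toFinset.image bs with h𝒜
  have hbinj : ∀ u ∈ A', ∀ v ∈ A', bs u = bs v → u = v := by
    intro u hu v hv huv
    refine hinj u (List.mem_of_mem_filter hu) v (List.mem_of_mem_filter hv) ?_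
    refine Nat.eq_of_testBit_eq fun i => ?_
    by_cases hi : i < l
    · have h1 : (⟨i, hi⟩ : Fin l) ∈ bs u ↔ (⟨i, hi⟩ : Fin l) ∈ bs v := by rw [huv]
      simp only [hbs, Finset.mem_filter, Finset.mem_univ, true_and, tb_eq] at h1
      exact Bool.eq_iff_iff.2 h1
    · have h2 : ∀ u : ℕ, (u % h).testBit i = false := fun u =>
        Nat.testBit_lt_two_pow (lt_of_lt_of_le ((Nat.mod_lt u h0).trans hh)
          (Nat.pow_le_pow_right (by norm_num) (by omega)))
      rw [h2, h2]
  have hcard : A'.length = 𝒜.card := by
    rw [h𝒜, Finset.card_image_of_injOn, List.toFinset_card_of_nodup (hA.filter _)]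
    intro u hu v hv huv
    rw [Finset.mem_coe, List.mem_toFinset] at hu hv
    exact hbinj u hu v hv huv
  -- no set of size `k` is shattered
  have hns : ∀ s : Finset (Fin l), s.card = k → ¬ 𝒜.Shatters s := by
    intro s hs hsh
    -- the mask
    set t : ℕ := ∑ i ∈ s.map Fin.valEmbedding, 2 ^ i with ht
    have htb : ∀ i : ℕ, tb t i = true ↔ i ∈ s.map Fin.valEmbedding := by
      intro i
      rw [tb_eq, ← Nat.mem_bitIndices, ← List.mem_toFinset, ht,
        Finset.toFinset_bitIndices_sum_two_pow]
    have htl : t < 2 ^ l := by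
      refine Nat.lt_pow_two_of_testBit _ fun i hi => ?_
      by_contra h1
      rw [Bool.not_eq_false, ← tb_eq, htb, Finset.mem_map] at h1
      obtain ⟨a, _, rfl⟩ := h1
      exact absurd a.2 (not_lt.2 hi)
    have hpos : (posOf l t).toFinset = s.map Fin.valEmbedding := by
      ext i
      rw [List.mem_toFinset, posOf, List.mem_filter, List.mem_range, htb]
      refine ⟨fun h => h.2, fun h => ⟨?_, h⟩⟩
      rw [Finset.mem_map] at h
      obtain ⟨a, _, rfl⟩ := h
      exact a.2
    have hnd : (posOf l t).Nodup := List.nodup_range.filter _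
    have hlen : (posOf l t).length = k := by
      rw [← List.toFinset_card_of_nodup hnd, hpos, Finset.card_map, hs]
    set b := excl f k ((posOf l t).map (qb j h)) with hb
    set pat : ℕ → Bool := fun i => b.getD ((posOf l t).idxOf i) false with hpat
    have hpatb : (posOf l t).map pat = b := by
      refine List.ext_getElem (by rw [List.length_map, hlen, hb, excl_length]) fun i h1 h2 => ?_
      rw [List.length_map] at h1
      rw [List.getElem_map]
      change b.getD ((posOf l t).idxOf (posOf l t)[i]) false = b[i]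
      rw [List.Nodup.idxOf_getElem hnd i h1, List.getD_eq_getElem _ _ h2]
    obtain ⟨u, hu, hu2⟩ := hsh (t := s.filter fun i : Fin l => pat (i : ℕ) = true) (Finset.filter_subset _ _)
    rw [h𝒜, Finset.mem_image] at hu
    obtain ⟨v, hv, rfl⟩ := hu
    rw [List.mem_toFinset, hA', List.mem_filter] at hv
    have hkeep := hv.2
    unfold keep at hkeep
    rw [List.all_eq_true] at hkeep
    have h3 := hkeep t (List.mem_range.2 htl)
    rw [Bool.or_eq_true, Bool.not_eq_true', Bool.not_eq_true', decide_eq_false_iff_not,
      decide_eq_false_iff_not] at h3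
    rcases h3 with h3 | h3
    · exact h3 hlen
    · refine h3 ?_
      rw [← hb, ← hpatb]
      refine List.map_congr_left fun i hi => ?_
      have h4 : i ∈ s.map Fin.valEmbedding := by rw [← hpos, List.mem_toFinset]; exact hi
      rw [Finset.mem_map] at h4
      obtain ⟨a, ha, rfl⟩ := h4
      have h5 : a ∈ s ∩ bs v ↔ a ∈ s.filter fun i : Fin l => pat (i : ℕ) = true := by rw [hu2]
      simp only [Finset.mem_inter, hbs, Finset.mem_filter, Finset.mem_univ, true_and, ha] at h5
      exact (Bool.eq_iff_iff.2 h5).symm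
  have hvc : 𝒜.vcDim ≤ k := by
    refine Finset.sup_le fun s hs => ?_
    by_contra hcon
    push Not at hcon
    obtain ⟨s', hs', hs'2⟩ := Finset.exists_subset_card_eq hcon.le
    exact hns s' hs'2 ((Finset.mem_shatterer.1 hs).mono_right hs')
  have hsum : ∀ d ≤ k, ∑ i ∈ Finset.Iic d, l.choose i ≤ 2 ^ (4 * k + e) := by
    intro d hd
    rw [hl]
    refine le_trans (Finset.sum_le_sum_of_subset ?_) (sum_choose_le k e)
    intro i hi
    rw [Finset.mem_Iic] at hi
    rw [Finset.mem_range]
    omega
  rw [hcard]
  refine (Finset.card_le_card_shatterer 𝒜).trans (Finset.card_shatterer_le_sum_vcDim.trans ?_)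
  rw [Fintype.card_fin]
  exact hsum _ hvc

/-- There are few candidates. -/
theorem length_listA {e μ : ℕ} (hl : l = 8 * e)
    (h1 : 2 * (2 * 2 ^ (4 * k + e) * (2 * 2 ^ (4 * k + e)) * μ + 1 + 4) ^ 2 + 1 ≤ 2 ^ l) :
    ∀ j ≤ μ, (listA f qb k l j).length ≤ 2 ^ (4 * k + e)
  | 0, _ => by simp [listA, Nat.one_le_two_pow]
  | j + 1, hj => by
    have ih := length_listA hl h1 j (by omega)
    set A := listA f qb k l j ++ (listA f qb k l j).map fun v => v + 2 ^ j with hA
    have hlen : A.length ≤ 2 * 2 ^ (4 * k + e) := by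
      rw [hA, List.length_append, List.length_map]
      omega
    have hlt : ∀ v ∈ A, v < 2 ^ (j + 1) := by
      intro v hv
      rw [hA, List.mem_append, List.mem_map] at hv
      rw [pow_succ]
      rcases hv with h | ⟨u, h, rfl⟩
      · have := listA_lt j v h
        omega
      · have := listA_lt j u h
        omega
    obtain ⟨h2, h3, h4⟩ := hsh_spec (l := l) hlt hlen (by
      refine le_trans ?_ h1
      have : 2 * 2 ^ (4 * k + e) * (2 * 2 ^ (4 * k + e)) * (j + 1) ≤
        2 * 2 ^ (4 * k + e) * (2 * 2 ^ (4 * k + e)) * μ := Nat.mul_le_mul_left _ hj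
      gcongr)
    exact card_kept hl (nodup_ext (nodup_listA j) (listA_lt j)) h2 h3 h4

/-- The true value is among the candidates. -/
theorem mem_listA {L : Set (List Bool)} [∀ x, Decidable (x ∈ L)] {V μ : ℕ}
    (hq : ∀ j h i, (qb j h i ∈ L ↔ tb (V % 2 ^ j % h) i = true))
    (hf : ∀ j ≤ μ, ∀ h < 2 ^ l, ∀ ps : List ℕ, (∀ i ∈ ps, i < l) → ps.length = k →
      (f (bits (ps.map (qb j h)))).length = k ∧
        f (bits (ps.map (qb j h))) ≠ (ps.map (qb j h)).map fun x => decide (x ∈ L)) :
    ∀ j ≤ μ, V % 2 ^ j ∈ listA f qb k l j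
  | 0, _ => by simp [listA, Nat.mod_one]
  | j + 1, hj => by
    have ih := mem_listA hq hf j (by omega)
    set A := listA f qb k l j ++ (listA f qb k l j).map fun v => v + 2 ^ j with hA
    rw [listA, stepA, ← hA, List.mem_filter]
    constructor
    · rw [hA, List.mem_append, List.mem_map]
      have h1 : V % 2 ^ (j + 1) = V % 2 ^ j + 2 ^ j * (V / 2 ^ j % 2) := Nat.mod_pow_succ
      rcases Nat.mod_two_eq_zero_or_one (V / 2 ^ j) with h2 | h2
      · left
        rw [h1, h2]
        simpa using ih
      · right
        exact ⟨_, ih, by rw [h1, h2]; ring⟩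
    · unfold keep
      rw [List.all_eq_true]
      intro t _
      rw [Bool.or_eq_true, Bool.not_eq_true', Bool.not_eq_true', decide_eq_false_iff_not,
        decide_eq_false_iff_not]
      by_cases hk : (posOf l t).length = k
      · right
        intro h3
        have hh : hsh l A < 2 ^ l := by
          unfold hsh
          cases h4 : (List.range (2 ^ l)).filter fun h => decide (0 < h) && A.all fun u =>
            A.all fun v => decide (u = v) || !decide (u % h = v % h) with
          | nil => simp
          | cons a t' =>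
            have h5 : a ∈ (List.range (2 ^ l)).filter fun h => decide (0 < h) && A.all fun u =>
                A.all fun v => decide (u = v) || !decide (u % h = v % h) := by
              rw [h4]; exact List.mem_cons_self
            rw [List.mem_filter, List.mem_range] at h5
            simpa using h5.1
        obtain ⟨h5, h6⟩ := hf (j + 1) hj (hsh l A) hh (posOf l t) (fun i hi => by
          rw [posOf, List.mem_filter, List.mem_range] at hi
          exact hi.1) hk
        refine h6 ?_
        have h7 : excl f k ((posOf l t).map (qb (j + 1) (hsh l A))) =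
            f (bits ((posOf l t).map (qb (j + 1) (hsh l A)))) := by
          refine List.ext_getElem (by rw [excl_length, h5]) fun i h8 h9 => ?_
          simp only [excl, List.getElem_map, List.getElem_range]
          rw [List.getD_eq_getElem _ _ h9]
        rw [← h7, h3, List.map_map]
        refine List.map_congr_left fun i _ => ?_
        simp only [Function.comp]
        rw [Bool.eq_iff_iff, decide_eq_true_eq]
        exact (hq _ _ _).symm
      · left
        exact hk

end

end Pool.Agent.Helper70K1.SP
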