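import Pool.Agent.Helper70K1.SP.Lang

/-!
# The algorithm
-/

set_option autoImplicit false

namespace Pool.Agent.Helper70K1.SP

open Pool.Agent.NPC

/-! ### Uniqueness and existence of the number of an instance -/

theorem cf_lt (m V : ℕ) : ∀ c ∈ cf m V, c < 2 ^ m := by
  intro c hc
  unfold cf at hc
  obtain ⟨j, _, rfl⟩ := List.mem_map.1 hc
  exact Nat.mod_lt _ (by positivity)

theorem good_unique {I : Ins} [Fact (I.p + 1).Prime] (hm : I.m ≤ I.p) {V V' : ℕ} (h : Good I V)
    (h' : Good I V') : V = V' := by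
  refine cf_inj h.1 h'.1 ?_
  by_contra hne
  have h1 := card_agree (p := I.p) (cf_length I.m V) (cf_length I.m V') h.2.1 h'.2.1 hne
  have h2 : ((Finset.range (I.p + 1)).filter fun t =>
      evalN I.p (cf I.m V) t = evalN I.p (cf I.m V') t) = Finset.range (I.p + 1) := by
    refine Finset.filter_true_of_mem fun t ht => ?_
    rw [Finset.mem_range] at ht
    refine cast_inj_of_le (evalN_le _ _ _) (evalN_le _ _ _) ?_
    rw [← h.2.2 t (by omega), ← h'.2.2 t (by omega)]
  rw [h2, Finset.card_range] at h1
  omega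

open Polynomial in
theorem good_exists {I : Ins} (hp : I.p < 2 ^ I.m) {d : ℕ}
    (hdeg : DegLE (R := ZMod (I.p + 1)) (val (leafC I.F) I.os) I.i d) (hd : d < I.m) :
    ∃ V, Good I V := by
  obtain ⟨h, h1, h2⟩ := hdeg (pt I.p I.r)
  set cs : List ℕ := (List.range I.m).map fun j => (h.coeff j).val with hcs
  have hl : cs.length = I.m := by simp [hcs]
  have hle : ∀ c ∈ cs, c ≤ I.p := by
    intro c hc
    obtain ⟨j, _, rfl⟩ := List.mem_map.1 hc
    exact Nat.lt_succ_iff.1 (ZMod.val_lt _)
  have hlt : ∀ c ∈ cs, c < 2 ^ I.m := fun c hc => lt_of_le_of_lt (hle c hc) hp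
  have hcf : cf I.m (Nat.ofDigits (2 ^ I.m) cs) = cs := cf_ofDigits hl hlt
  refine ⟨Nat.ofDigits (2 ^ I.m) cs, ofDigits_lt (by omega) hl hlt, by rwa [hcf], fun t _ => ?_⟩
  rw [hcf, cast_evalN, h2]
  congr 1
  ext j
  rw [coeff_plc]
  by_cases hj : j < I.m
  · rw [List.getD_eq_getElem _ _ (by rwa [hl])]
    simp [hcs]
  · rw [List.getD_eq_getElem?_getD, List.getElem?_eq_none (by omega),
      coeff_eq_zero_of_natDegree_lt (by omega)]
    simp

/-! ### The candidates -/

/-- Primality test (for numbers at most `B`). -/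
def primeN (B q : ℕ) : Bool :=
  decide (2 ≤ q) && (List.range B).all fun k =>
    decide (k < 2) || (decide (q ≤ k) || !decide (q % k = 0))

theorem primeN_iff {B q : ℕ} (h : q ≤ B) : primeN B q = true ↔ q.Prime := by
  unfold primeN
  rw [Nat.prime_def_lt', Bool.and_eq_true, decide_eq_true_eq, List.all_eq_true]
  refine and_congr_right fun _ => ?_
  simp only [List.mem_range, Bool.or_eq_true, decide_eq_true_eq, Bool.not_eq_true',
    decide_eq_false_iff_not]
  constructor
  · intro h1 k hk hkq hd
    rcases h1 k (by omega) with h2 | h2 | h2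
    · omega
    · omega
    · exact h2 (Nat.mod_eq_zero_of_dvd hd)
  · intro h1 k hk
    by_cases h2 : k < 2
    · exact Or.inl h2
    · by_cases h3 : q ≤ k
      · exact Or.inr (Or.inl h3)
      · exact Or.inr (Or.inr fun h4 => h1 k (by omega) (by omega) (Nat.dvd_of_mod_eq_zero h4))

/-- The pairs of a prime and a residue. -/
def prs (B : ℕ) : List (ℕ × ℕ) := ((List.range B).filter (primeN B)).product (List.range B)

theorem mem_prs {B : ℕ} {e : ℕ × ℕ} : e ∈ prs B ↔ (e.1 < B ∧ e.1.Prime) ∧ e.2 < B := by
  obtain ⟨q, b⟩ := e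
  unfold prs
  rw [List.pair_mem_product, List.mem_filter, List.mem_range, List.mem_range]
  constructor
  · rintro ⟨⟨h1, h2⟩, h3⟩
    exact ⟨⟨h1, (primeN_iff h1.le).1 h2⟩, h3⟩
  · rintro ⟨⟨h1, h2⟩, h3⟩
    exact ⟨⟨h1, (primeN_iff (le_of_lt h1)).2 h2⟩, h3⟩

theorem nodup_prs (B : ℕ) : (prs B).Nodup :=
  (List.nodup_range.filter _).product List.nodup_range

/-- The pairs for which a string is among the answers. -/
def prsOf (f : List Bool → List (List Bool)) (B : ℕ) (I : Ins) (σ : List Bool) : List (ℕ × ℕ) :=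
  (prs B).filter fun e => decide (σ ∈ f (bits ((true, I, e) : Qry)))

/-- The candidates for the list of coefficients. -/
def cand (f : List Bool → List (List Bool)) (B : ℕ) (I : Ins) : List (List ℕ) :=
  (((prs B).flatMap fun e => f (bits ((true, I, e) : Qry))).map fun σ =>
    cf I.m (crt B (2 ^ (I.m * I.m)) (prsOf f B I σ))).filter fun c => c.all fun a =>
      decide (a ≤ I.p)

theorem cand_mem {f : List Bool → List (List Bool)} {B : ℕ} {I : Ins} {V : ℕ}
    (S : Set (List Bool)) (T : Finset (List Bool)) (s : ℕ) (hV : Good I V)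
    (hS : ∀ e ∈ prs B, (∃ σ ∈ f (bits ((true, I, e) : Qry)), σ ∈ S) ↔ V % e.1 = e.2)
    (hT : ∀ e ∈ prs B, ∀ σ ∈ f (bits ((true, I, e) : Qry)), σ ∈ S → σ ∈ T) (hs : T.card ≤ s)
    (hB : s * (I.m * I.m) < ((Finset.range B).filter Nat.Prime).card) :
    cf I.m V ∈ cand f B I := by
  classical
  set P := (Finset.range B).filter Nat.Prime with hP
  have hex : ∀ q ∈ P, ∃ σ ∈ f (bits ((true, I, q, V % q) : Qry)), σ ∈ S := by
    intro q hq
    rw [hP, Finset.mem_filter, Finset.mem_range] at hq
    refine (hS (q, V % q) (mem_prs.2 ⟨hq, ?_⟩)).2 rfl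
    exact (Nat.mod_lt _ hq.2.pos).trans hq.1
  have hpr : ∀ q ∈ P, (q, V % q) ∈ prs B := by
    intro q hq
    rw [hP, Finset.mem_filter, Finset.mem_range] at hq
    exact mem_prs.2 ⟨hq, (Nat.mod_lt _ hq.2.pos).trans hq.1⟩
  choose! g hg1 hg2 using hex
  have hmaps : ∀ q ∈ P, g q ∈ T := fun q hq => hT _ (hpr q hq) _ (hg1 q hq) (hg2 q hq)
  obtain ⟨σ, hσT, hσ⟩ := Finset.exists_lt_card_fiber_of_mul_lt_card_of_maps_to hmaps
    (n := I.m * I.m) (lt_of_le_of_lt (Nat.mul_le_mul_right _ hs) hB)
  -- the string `σ`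
  have hne : ((P.filter fun q => g q = σ)).Nonempty := Finset.card_pos.1 (by omega)
  obtain ⟨q0, hq0⟩ := hne
  rw [Finset.mem_filter] at hq0
  have hσS : σ ∈ S := hq0.2 ▸ hg2 q0 hq0.1
  have hmem : σ ∈ (prs B).flatMap fun e => f (bits ((true, I, e) : Qry)) :=
    List.mem_flatMap.2 ⟨(q0, V % q0), hpr q0 hq0.1, by rw [← hq0.2]; exact hg1 q0 hq0.1⟩
  have hl1 : ∀ e ∈ prsOf f B I σ, e.1.Prime ∧ e.1 ≤ B ∧ V % e.1 = e.2 := by
    intro e he
    unfold prsOf at he
    rw [List.mem_filter, decide_eq_true_eq] at he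
    have h1 := mem_prs.1 he.1
    exact ⟨h1.1.2, h1.1.1.le, (hS e he.1).1 ⟨σ, he.2, hσS⟩⟩
  have hl2 : ((prsOf f B I σ).map Prod.fst).Nodup := by
    refine List.Nodup.map_on ?_ ((nodup_prs B).filter _)
    intro x hx y hy hxy
    have h1 := (hl1 x hx).2.2
    have h2 := (hl1 y hy).2.2
    refine Prod.ext hxy ?_
    rw [← h1, ← h2, hxy]
  have hl3 : I.m * I.m ≤ (prsOf f B I σ).length := by
    have h1 : (P.filter fun q => g q = σ) ⊆ ((prsOf f B I σ).map Prod.fst).toFinset := by
      intro q hq
      rw [Finset.mem_filter] at hq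
      rw [List.mem_toFinset, List.mem_map]
      refine ⟨(q, V % q), ?_, rfl⟩
      unfold prsOf
      rw [List.mem_filter, decide_eq_true_eq]
      exact ⟨hpr q hq.1, by rw [← hq.2]; exact hg1 q hq.1⟩
    have h2 := Finset.card_le_card h1
    have h3 := List.toFinset_card_le ((prsOf f B I σ).map Prod.fst)
    rw [List.length_map] at h3
    omega
  have hcrt : crt B (2 ^ (I.m * I.m)) (prsOf f B I σ) = V :=
    crt_eq hl1 hl2 hV.1 (Nat.pow_le_pow_right (by norm_num) hl3)
  unfold cand
  rw [List.mem_filter, List.all_eq_true]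
  refine ⟨List.mem_map.2 ⟨σ, hmem, by rw [hcrt]⟩, fun c hc => ?_⟩
  rw [decide_eq_true_eq]
  exact hV.2.1 c hc

theorem cand_spec {f : List Bool → List (List Bool)} {B : ℕ} {I : Ins} :
    ∀ c ∈ cand f B I, c.length = I.m ∧ ∀ a ∈ c, a ≤ I.p := by
  intro c hc
  unfold cand at hc
  rw [List.mem_filter, List.all_eq_true] at hc
  obtain ⟨h1, h2⟩ := hc
  obtain ⟨σ, _, rfl⟩ := List.mem_map.1 h1
  exact ⟨cf_length _ _, fun a ha => by simpa using h2 a ha⟩

theorem length_flatMap_le {β γ : Type} (g : β → List γ) (R : ℕ) : ∀ l : List β,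
    (∀ b ∈ l, (g b).length ≤ R) → (l.flatMap g).length ≤ l.length * R
  | [], _ => by simp
  | b :: l, h => by
    have h1 := length_flatMap_le g R l fun b hb => h b (List.mem_cons_of_mem _ hb)
    have h2 := h b List.mem_cons_self
    rw [List.flatMap_cons, List.length_append, List.length_cons]
    nlinarith

theorem length_prs_le (B : ℕ) : (prs B).length ≤ B * B := by
  unfold prs
  have h : (((List.range B).filter (primeN B)).product (List.range B)).length =
      ((List.range B).filter (primeN B)).length * (List.range B).length := List.length_product _ _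
  rw [h, List.length_range]
  exact Nat.mul_le_mul_right _ ((List.length_filter_le _ _).trans (by rw [List.length_range]))

theorem length_cand_le {f : List Bool → List (List Bool)} {B R : ℕ} {I : Ins}
    (h : ∀ e ∈ prs B, (f (bits ((true, I, e) : Qry))).length ≤ R) :
    (cand f B I).length ≤ B * B * R := by
  unfold cand
  refine (List.length_filter_le _ _).trans ?_
  rw [List.length_map]
  exact (length_flatMap_le _ R _ h).trans (Nat.mul_le_mul_right _ (length_prs_le B))

/-! ### The separating point -/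

/-- A point at which the candidates differ. -/
def sep (D p : ℕ) (C : List (List ℕ)) : ℕ :=
  (((List.range D).filter fun t => decide (t ≤ p) && C.all fun c => C.all fun c' =>
    decide (c = c') || !decide (evalN p c t = evalN p c' t)).head?).getD 0

theorem sep_le (D p : ℕ) (C : List (List ℕ)) : sep D p C ≤ p := by
  unfold sep
  cases h : ((List.range D).filter fun t => decide (t ≤ p) && C.all fun c => C.all fun c' =>
    decide (c = c') || !decide (evalN p c t = evalN p c' t)) with
  | nil => simp
  | cons t l =>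
    have h1 : t ∈ ((List.range D).filter fun t => decide (t ≤ p) && C.all fun c => C.all fun c' =>
      decide (c = c') || !decide (evalN p c t = evalN p c' t)) := by
      rw [h]; exact List.mem_cons_self
    rw [List.mem_filter, Bool.and_eq_true, decide_eq_true_eq] at h1
    simpa using h1.2.1

theorem sep_spec {D p m K : ℕ} [Fact (p + 1).Prime] {C : List (List ℕ)}
    (hC : ∀ c ∈ C, c.length = m ∧ ∀ a ∈ c, a ≤ p) (hK : C.length ≤ K) (hp : K * K * m ≤ p)
    (hD : p < D) : ∀ c ∈ C, ∀ c' ∈ C, evalN p c (sep D p C) = evalN p c' (sep D p C) → c = c' := by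
  classical
  set bad : Finset ℕ := (C.toFinset ×ˢ C.toFinset).biUnion fun x =>
    if x.1 = x.2 then ∅ else (Finset.range (p + 1)).filter fun t => evalN p x.1 t = evalN p x.2 t
    with hbad
  have h1 : bad.card ≤ K * K * m := by
    refine Finset.card_biUnion_le.trans ?_
    refine (Finset.sum_le_card_nsmul _ _ m fun x hx => ?_).trans ?_
    · rw [Finset.mem_product, List.mem_toFinset, List.mem_toFinset] at hx
      split_ifs with hx2
      · simp
      · exact card_agree (hC _ hx.1).1 (hC _ hx.2).1 (hC _ hx.1).2 (hC _ hx.2).2 hx2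
    · rw [Finset.card_product, smul_eq_mul]
      have h2 := (List.toFinset_card_le C).trans hK
      exact Nat.mul_le_mul_right _ (Nat.mul_le_mul h2 h2)
  have h2 : ∃ t ∈ Finset.range (p + 1), t ∉ bad := by
    by_contra hcon
    push Not at hcon
    have := Finset.card_le_card (show Finset.range (p + 1) ⊆ bad from hcon)
    rw [Finset.card_range] at this
    omega
  obtain ⟨t0, ht0, ht1⟩ := h2
  rw [Finset.mem_range] at ht0
  have h3 : ((decide (t0 ≤ p) && C.all fun c => C.all fun c' =>
      decide (c = c') || !decide (evalN p c t0 = evalN p c' t0)) = true) := by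
    rw [Bool.and_eq_true, decide_eq_true_eq, List.all_eq_true]
    refine ⟨by omega, fun c hc => ?_⟩
    rw [List.all_eq_true]
    intro c' hc'
    rw [Bool.or_eq_true, decide_eq_true_eq, Bool.not_eq_true', decide_eq_false_iff_not]
    by_cases hcc : c = c'
    · exact Or.inl hcc
    · refine Or.inr fun h4 => ht1 ?_
      rw [hbad, Finset.mem_biUnion]
      refine ⟨(c, c'), by simp [hc, hc'], ?_⟩
      rw [if_neg hcc, Finset.mem_filter, Finset.mem_range]
      exact ⟨ht0, h4⟩
  obtain ⟨t, ht, _, ht2⟩ := head_filter_range (B := D) (t₀ := t0)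
    (p := fun t => decide (t ≤ p) && C.all fun c => C.all fun c' =>
      decide (c = c') || !decide (evalN p c t = evalN p c' t)) (by omega) h3
  intro c hc c' hc' h4
  unfold sep at h4
  rw [ht, Option.getD_some] at h4
  rw [Bool.and_eq_true, List.all_eq_true] at ht2
  have h5 := ht2.2 c hc
  rw [List.all_eq_true] at h5
  have h6 := h5 c' hc'
  rw [Bool.or_eq_true, decide_eq_true_eq, Bool.not_eq_true', decide_eq_false_iff_not] at h6
  exact h6.resolve_right fun h7 => h7 h4

/-! ### The recursion -/

/-- An entry of the trace: the operation, the value of the variable, the chosen point, the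
candidates. -/
abbrev Ent := Op × ℕ × ℕ × List (List ℕ)

/-- One backward step. -/
def stepV (p : ℕ) (e : Ent) (y : ℕ) : ℕ :=
  combN p e.1.1 e.2.1
    (evalN p (((e.2.2.2.filter fun c => decide (evalN p c e.2.2.1 = y % (p + 1))).head?).getD []) 0)
    (evalN p (((e.2.2.2.filter fun c => decide (evalN p c e.2.2.1 = y % (p + 1))).head?).getD []) 1)

/-- The recursive evaluation. -/
def run (f : List Bool → List (List Bool)) (B D : ℕ) (W : List Unit) (p : ℕ)
    (F : List (List (Bool × ℕ))) : List Op → List ℕ → ℕ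
  | [], r => leafN p F r
  | o :: os, r => stepV p (o, r.getD o.2 0, sep D p (cand f B (W, p, F, os, r, o.2)),
      cand f B (W, p, F, os, r, o.2))
      (run f B D W p F os (r.set o.2 (sep D p (cand f B (W, p, F, os, r, o.2)))))

theorem run_correct {f : List Bool → List (List Bool)} {B D : ℕ} {W : List Unit} {p : ℕ}
    {F : List (List (Bool × ℕ))} {os0 : List Op} {n d K : ℕ} [Fact (p + 1).Prime]
    (hpm : p < 2 ^ W.length) (hp1 : 1 ≤ p) (hd : d < W.length) (hK : K * K * W.length ≤ p)
    (hD : p < D) (hidx : ∀ o ∈ os0, o.2 < n)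
    (hdeg : ∀ os, os <:+ os0 → AllDeg (R := ZMod (p + 1)) n d (val (leafC F) os))
    (hcand : ∀ (os : List Op) (r : List ℕ) (i : ℕ), os <:+ os0 → r.length = n → (∀ a ∈ r, a ≤ p) →
      i < n → (cand f B (W, p, F, os, r, i)).length ≤ K ∧
        ∀ V, Good (W, p, F, os, r, i) V → cf W.length V ∈ cand f B (W, p, F, os, r, i)) :
    ∀ (os : List Op) (r : List ℕ), os <:+ os0 → r.length = n → (∀ a ∈ r, a ≤ p) →
      ((run f B D W p F os r : ℕ) : ZMod (p + 1)) = val (leafC F) os (pt p r)
  | [], r, _, _, _ => cast_leafN p F r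
  | o :: os, r, hs, hr, hra => by
    have hs' : os <:+ os0 := (List.suffix_cons o os).trans hs
    have hi : o.2 < n := hidx o (hs.subset List.mem_cons_self)
    obtain ⟨h1, h2⟩ := hcand os r o.2 hs' hr hra hi
    obtain ⟨V, hV⟩ := good_exists (I := (W, p, F, os, r, o.2)) hpm (hdeg os hs' o.2 hi) hd
    have hVC := h2 V hV
    set C := cand f B (W, p, F, os, r, o.2) with hC
    have hsep := sep_spec (D := D) (p := p) (C := C) (m := W.length) (K := K)
      (fun c hc => cand_spec (I := (W, p, F, os, r, o.2)) c hc) h1 hK hD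
    set t := sep D p C with ht
    have htp : t ≤ p := sep_le _ _ _
    have hrs : (r.set o.2 t).length = n := by rw [List.length_set, hr]
    have hrs2 : ∀ a ∈ r.set o.2 t, a ≤ p := fun a ha => by
      rcases List.mem_or_eq_of_mem_set ha with h | h
      · exact hra a h
      · exact h ▸ htp
    have ih := run_correct hpm hp1 hd hK hD hidx hdeg hcand os (r.set o.2 t) hs' hrs hrs2
    rw [pt_set (by rw [hr]; exact hi)] at ih
    have hg : ∀ t ≤ p, val (leafC F) os (Function.update (pt p r) o.2 (t : ZMod (p + 1))) =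
      (evalN p (cf W.length V) t : ZMod (p + 1)) := hV.2.2
    rw [hg t htp] at ih
    have hy : evalN p (cf W.length V) t = run f B D W p F os (r.set o.2 t) % (p + 1) := by
      refine cast_inj_of_le (evalN_le _ _ _) (Nat.lt_succ_iff.1 (Nat.mod_lt _ (Nat.succ_pos p))) ?_
      rw [cast_mod, ih]
    have hfind : ((C.filter fun c => decide (evalN p c t =
        run f B D W p F os (r.set o.2 t) % (p + 1))).head?).getD [] = cf W.length V := by
      cases hfl : (C.filter fun c => decide (evalN p c t =
        run f B D W p F os (r.set o.2 t) % (p + 1))) with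
      | nil =>
        have : cf W.length V ∈ (C.filter fun c => decide (evalN p c t =
            run f B D W p F os (r.set o.2 t) % (p + 1))) :=
          List.mem_filter.2 ⟨hVC, by simpa using hy⟩
        rw [hfl] at this
        simp at this
      | cons c l =>
        have : c ∈ (C.filter fun c => decide (evalN p c t =
            run f B D W p F os (r.set o.2 t) % (p + 1))) := by
          rw [hfl]; exact List.mem_cons_self
        rw [List.mem_filter, decide_eq_true_eq] at this
        simp only [List.head?_cons, Option.getD_some]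
        exact hsep c this.1 _ hVC (this.2.trans hy.symm)
    have hrun : run f B D W p F (o :: os) r = combN p o.1 (r.getD o.2 0)
        (evalN p (cf W.length V) 0) (evalN p (cf W.length V) 1) := by
      rw [run, ← hC, ← ht, stepV]
      simp only [hfind]
    rw [hrun, cast_combN, ← hg 0 (by omega), ← hg 1 hp1, Nat.cast_zero, Nat.cast_one]
    rfl

end Pool.Agent.Helper70K1.SP
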