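import Pool.Agent.Helper70K1.SP.Alg

/-!
# Complexity of the algorithm
-/

set_option autoImplicit false

namespace Pool.Agent.Helper70K1.SP

open Pool.Agent.NPC

variable {α β : Type} [TEnc α] [TEnc β]

/-- A polynomial-time function on bit strings, applied to codes. -/
theorem poly_ask {f : List Bool → β} (hf : PolyTime (fun x => bits (f x))) {Q : α → Qry}
    (hQ : NPC.Poly Q) : NPC.Poly (fun a => f (bits (Q a))) := by
  have h1 : PC (id : List Bool → List Bool) (id : List Bool → List Bool) (fun x => bits (f x)) :=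
    H642R2.TMSim.polyTime_toPC hf
  have h2 : PC (bits : Qry → List Bool) (id : List Bool → List Bool) (fun Q => bits Q) := by
    obtain ⟨c, q, h⟩ := (PC.id : PC (bits : Qry → List Bool) (bits : Qry → List Bool) fun a => a)
    exact ⟨c, q, h⟩
  have h3 : PC (bits : Qry → List Bool) (id : List Bool → List Bool)
      (fun Q => bits (f (bits Q))) :=
    PC.comp (g := fun x => bits (f x)) (f := fun Q : Qry => bits Q) h1 h2
  have h4 : NPC.Poly (fun Q : Qry => f (bits Q)) := h3
  exact h4.comp hQ

@[fun_prop]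
theorem poly_primeN {B : α → ℕ} {q : α → ℕ} (hB : UPoly B) (hq : NPC.Poly q) :
    NPC.Poly (fun a => primeN (B a) (q a)) := by
  unfold primeN
  refine NPC.Poly.and (by fun_prop) (NPC.Poly.all (p := fun a k =>
    decide (k < 2) || (decide (q a ≤ k) || !decide (q a % k = 0))) hB.range ?_)
  fun_prop

theorem poly_prs {B : α → ℕ} (hB : UPoly B) : NPC.Poly (fun a => prs (B a)) := by
  unfold prs
  refine NPC.R671.poly_product (NPC.Poly.filter (p := fun a q => primeN (B a) q) hB.range ?_)
    hB.range
  exact poly_primeN (hB.comp (NPC.Poly.fst NPC.Poly.id)) (NPC.Poly.snd NPC.Poly.id)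

theorem poly_prsOf {f : List Bool → List (List Bool)} (hf : PolyTime (fun x => bits (f x)))
    {B : α → ℕ} (hB : UPoly B) {I : α → Ins} (hI : NPC.Poly I) {σ : α → List Bool}
    (hσ : NPC.Poly σ) : NPC.Poly (fun a => prsOf f (B a) (I a) (σ a)) := by
  unfold prsOf
  refine NPC.Poly.filter (p := fun a e => decide (σ a ∈ f (bits ((true, I a, e) : Qry))))
    (poly_prs hB) ?_
  exact NPC.Poly.dec_mem (f := fun x : α × ℕ × ℕ => σ x.1) (by fun_prop)
    (poly_ask hf (Q := fun x : α × ℕ × ℕ => (true, I x.1, x.2)) (by fun_prop))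

theorem poly_cand {f : List Bool → List (List Bool)} (hf : PolyTime (fun x => bits (f x)))
    {B : α → ℕ} (hB : UPoly B) {I : α → Ins} (hI : NPC.Poly I) :
    NPC.Poly (fun a => cand f (B a) (I a)) := by
  have h1 : NPC.Poly (fun a => (prs (B a)).flatMap fun e => f (bits ((true, I a, e) : Qry))) := by
    refine NPC.Poly.flatMap (F := fun a e => f (bits ((true, I a, e) : Qry))) (poly_prs hB) ?_
    exact poly_ask hf (Q := fun x : α × ℕ × ℕ => (true, I x.1, x.2)) (by fun_prop)
  have h2 : NPC.Poly (fun x : α × List Bool => cf (I x.1).m (crt (B x.1)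
      (2 ^ ((I x.1).m * (I x.1).m)) (prsOf f (B x.1) (I x.1) x.2))) := by
    have hm : UPoly (fun x : α × List Bool => (I x.1).m) :=
      (uPoly_m hI).comp (NPC.Poly.fst NPC.Poly.id)
    have hB' : UPoly (fun x : α × List Bool => B x.1) := hB.comp (NPC.Poly.fst NPC.Poly.id)
    refine poly_cf hm (poly_crt hB' (poly_pow2 (UPoly.mul hm hm)) ?_ ?_)
    · exact poly_prsOf hf hB' (I := fun x : α × List Bool => I x.1) (σ := fun x => x.2)
        (by fun_prop) (by fun_prop)
    · intro x e he
      unfold prsOf at he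
      rw [List.mem_filter] at he
      have h3 := mem_prs.1 he.1
      exact ⟨h3.1.2.pos, h3.1.1.le⟩
  unfold cand
  refine NPC.Poly.filter (p := fun a (c : List ℕ) => c.all fun b => decide (b ≤ (I a).p))
    (NPC.Poly.map (F := fun a σ => cf (I a).m (crt (B a)
      (2 ^ ((I a).m * (I a).m)) (prsOf f (B a) (I a) σ))) h1 h2) ?_
  fun_prop

theorem poly_sep {D p : α → ℕ} {C : α → List (List ℕ)} (hD : UPoly D) (hp : NPC.Poly p)
    (hC : NPC.Poly C) : NPC.Poly (fun a => sep (D a) (p a) (C a)) := by
  unfold sep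
  refine NPC.Poly.optGetD (NPC.Poly.head? (NPC.Poly.filter (p := fun a t => decide (t ≤ p a) &&
    (C a).all fun c => (C a).all fun c' =>
      decide (c = c') || !decide (evalN (p a) c t = evalN (p a) c' t)) hD.range ?_))
    (NPC.Poly.const 0)
  fun_prop

theorem poly_stepV {p y : α → ℕ} {e : α → Ent} (hp : NPC.Poly p) (he : NPC.Poly e)
    (hy : NPC.Poly y) : NPC.Poly (fun a => stepV (p a) (e a) (y a)) := by
  unfold stepV
  fun_prop

/-! ### The recursion as two folds -/

/-- A forward step. -/
def fwd (f : List Bool → List (List Bool)) (B D : ℕ) (W : List Unit) (p : ℕ)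
    (F : List (List (Bool × ℕ))) (s : List Op × List ℕ × List Ent) :
    List Op × List ℕ × List Ent :=
  s.1.head?.elim s fun o =>
    (s.1.tail, s.2.1.set o.2 (sep D p (cand f B (W, p, F, s.1.tail, s.2.1, o.2))),
      (o, s.2.1.getD o.2 0, sep D p (cand f B (W, p, F, s.1.tail, s.2.1, o.2)),
        cand f B (W, p, F, s.1.tail, s.2.1, o.2)) :: s.2.2)

theorem fwd_run (f : List Bool → List (List Bool)) (B D : ℕ) (W : List Unit) (p : ℕ)
    (F : List (List (Bool × ℕ))) : ∀ (os : List Op) (r : List ℕ) (tr : List Ent),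
    ((fwd f B D W p F)^[os.length] (os, r, tr)).2.2.foldl (fun y e => stepV p e y)
      (leafN p F ((fwd f B D W p F)^[os.length] (os, r, tr)).2.1) =
      tr.foldl (fun y e => stepV p e y) (run f B D W p F os r)
  | [], r, tr => rfl
  | o :: os, r, tr => by
    rw [List.length_cons, Function.iterate_succ_apply]
    have h := fwd_run f B D W p F os (r.set o.2 (sep D p (cand f B (W, p, F, os, r, o.2))))
      ((o, r.getD o.2 0, sep D p (cand f B (W, p, F, os, r, o.2)),
        cand f B (W, p, F, os, r, o.2)) :: tr)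
    exact h

theorem poly_fwd {f : List Bool → List (List Bool)} (hf : PolyTime (fun x => bits (f x)))
    {B D p : α → ℕ} (hB : UPoly B) (hD : UPoly D) {W : α → List Unit} (hW : NPC.Poly W)
    (hp : NPC.Poly p) {F : α → List (List (Bool × ℕ))} (hF : NPC.Poly F)
    {s : α → List Op × List ℕ × List Ent} (hs : NPC.Poly s) :
    NPC.Poly (fun a => fwd f (B a) (D a) (W a) (p a) (F a) (s a)) := by
  unfold fwd
  refine NPC.Poly.optElim (o := fun a => (s a).1.head?) (h := fun a (o : Op) =>
    ((s a).1.tail, (s a).2.1.set o.2 (sep (D a) (p a) (cand f (B a) (W a, p a, F a, (s a).1.tail,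
      (s a).2.1, o.2))), (o, (s a).2.1.getD o.2 0, sep (D a) (p a) (cand f (B a) (W a, p a, F a,
        (s a).1.tail, (s a).2.1, o.2)), cand f (B a) (W a, p a, F a, (s a).1.tail, (s a).2.1,
          o.2)) :: (s a).2.2)) (by fun_prop) hs ?_
  have h1 : NPC.Poly (fun x : α × Op => cand f (B x.1) (W x.1, p x.1, F x.1, (s x.1).1.tail,
      (s x.1).2.1, x.2.2)) :=
    poly_cand hf (B := fun x : α × Op => B x.1) (I := fun x : α × Op => (W x.1, p x.1, F x.1,
      (s x.1).1.tail, (s x.1).2.1, x.2.2)) (hB.comp (NPC.Poly.fst NPC.Poly.id)) (by fun_prop)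
  have h2 : NPC.Poly (fun x : α × Op => sep (D x.1) (p x.1) (cand f (B x.1) (W x.1, p x.1, F x.1,
      (s x.1).1.tail, (s x.1).2.1, x.2.2))) :=
    poly_sep (hD.comp (NPC.Poly.fst NPC.Poly.id)) (hp.comp (NPC.Poly.fst NPC.Poly.id)) h1
  fun_prop

theorem mem_head?_of_eq {γ : Type} {l : List γ} {o : γ} (h : l.head? = some o) : o ∈ l := by
  cases l with
  | nil => simp at h
  | cons a l => simp only [List.head?_cons, Option.some.injEq] at h; rw [h]; exact List.mem_cons_self

theorem sz_tail_le {γ : Type} [TEnc γ] (l : List γ) : sz l.tail ≤ sz l := by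
  cases l with
  | nil => simp
  | cons a l => simp; omega

/-- The invariant of the forward pass. -/
def Inv (X n k E : ℕ) (s : List Op × List ℕ × List Ent) : Prop :=
  sz s.1 ≤ X ∧ s.2.1.length = n ∧ (∀ x ∈ s.2.1, sz x ≤ 2 * X) ∧ s.2.2.length ≤ k ∧
    ∀ e ∈ s.2.2, sz e ≤ E

theorem inv_step {f : List Bool → List (List Bool)} {QB QD qc : Polynomial ℕ}
    (hqc : ∀ I : Ins, sz (cand f (QB.eval I.m) I) ≤ qc.eval (sz I)) {W : List Unit} {p : ℕ}
    {F : List (List (Bool × ℕ))} {X n k : ℕ} (hX : sz W + sz p + sz F ≤ X) (hn : n ≤ X)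
    {s : List Op × List ℕ × List Ent}
    (h : Inv X n k (10 * X + qc.eval (2 * X * X + 4 * X + 6) + 10) s) :
    Inv X n (k + 1) (10 * X + qc.eval (2 * X * X + 4 * X + 6) + 10)
      (fwd f (QB.eval W.length) (QD.eval W.length) W p F s) := by
  obtain ⟨h1, h2, h3, h4, h5⟩ := h
  unfold fwd
  cases ho : s.1.head? with
  | none => exact ⟨h1, h2, h3, by simp only [Option.elim_none]; omega, h5⟩
  | some o =>
    rw [Option.elim_some]
    set C := cand f (QB.eval W.length) (W, p, F, s.1.tail, s.2.1, o.2) with hC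
    have ho1 : sz o < sz s.1 := sz_le_of_mem (mem_head?_of_eq ho)
    have ho2 : sz o = sz o.1 + sz o.2 + 1 := by rw [← sz_pair]
    have h6 : sz s.1.tail ≤ sz s.1 := sz_tail_le s.1
    have h7 : sz s.2.1 ≤ X * (2 * X + 1) + 1 := by
      refine (sz_le_length_mul _ _ h3).trans ?_
      rw [h2]
      exact Nat.add_le_add_right (Nat.mul_le_mul_right _ hn) _
    have h8 : sz C ≤ qc.eval (2 * X * X + 4 * X + 6) := by
      refine (hqc (W, p, F, s.1.tail, s.2.1, o.2)).trans (eval_mono _ ?_)
      simp only [sz_pair]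
      nlinarith
    have ht : sz (sep (QD.eval W.length) p C) ≤ 2 * X := by
      have := sz_nat_mono_le (sep_le (QD.eval W.length) p C)
      omega
    have hg : sz (s.2.1.getD o.2 0) ≤ 2 * X + 1 := by
      rw [List.getD_eq_getElem?_getD]
      cases h9 : s.2.1[o.2]? with
      | none => simp [sz_nat]
      | some x =>
        have := h3 x (List.mem_of_getElem? h9)
        simp only [Option.getD_some]
        omega
    refine ⟨h6.trans h1, by simp only [List.length_set]; exact h2, fun x hx => ?_, ?_, fun e he => ?_⟩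
    · rcases List.mem_or_eq_of_mem_set hx with h9 | h9
      · exact h3 x h9
      · rw [h9]; exact ht
    · simp only [List.length_cons]; omega
    · simp only at he
      rcases List.mem_cons.1 he with h9 | h9
      · rw [h9]
        simp only [sz_pair]
        rw [ho2] at ho1
        have : sz o = sz o.1 + sz o.2 + 1 := ho2
        omega
      · exact h5 e h9

theorem inv_iter {f : List Bool → List (List Bool)} {QB QD qc : Polynomial ℕ}
    (hqc : ∀ I : Ins, sz (cand f (QB.eval I.m) I) ≤ qc.eval (sz I)) {W : List Unit} {p : ℕ}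
    {F : List (List (Bool × ℕ))} {os : List Op} {r : List ℕ} {X : ℕ}
    (hX : sz W + sz p + sz F + sz os + sz r ≤ X) : ∀ k : ℕ,
    Inv X r.length k (10 * X + qc.eval (2 * X * X + 4 * X + 6) + 10)
      ((fwd f (QB.eval W.length) (QD.eval W.length) W p F)^[k] (os, r, []))
  | 0 => ⟨by simp only [Function.iterate_zero, id_eq]; omega, rfl, fun x hx => by
      have := sz_le_of_mem hx
      simp only [Function.iterate_zero, id_eq] at this
      omega, by simp, by simp⟩
  | k + 1 => by
    rw [Function.iterate_succ_apply']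
    have h1 := length_lt_sz r
    exact inv_step hqc (by omega) (by omega) (inv_iter hqc hX k)

theorem poly_iter {f : List Bool → List (List Bool)} (hf : PolyTime (fun x => bits (f x)))
    (QB QD : Polynomial ℕ) {p : α → ℕ} {W : α → List Unit} (hW : NPC.Poly W)
    (hp : NPC.Poly p) {F : α → List (List (Bool × ℕ))} (hF : NPC.Poly F) {os : α → List Op}
    (hos : NPC.Poly os) {r : α → List ℕ} (hr : NPC.Poly r) :
    NPC.Poly (fun a => (fwd f (QB.eval (W a).length) (QD.eval (W a).length) (W a) (p a)
      (F a))^[(os a).length] (os a, r a, [])) := by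
  obtain ⟨qc, hqc⟩ := (poly_cand hf (B := fun I : Ins => QB.eval I.m) (I := fun I => I)
    ((uPoly_m NPC.Poly.id).eval QB) NPC.Poly.id).sz_le
  have htup : NPC.Poly (fun a => ((W a, p a), (F a, (os a, r a)))) := by fun_prop
  obtain ⟨q0, hq0⟩ := htup.sz_le
  set PE : Polynomial ℕ := Polynomial.C 10 * Polynomial.X +
    qc.comp (Polynomial.C 2 * Polynomial.X * Polynomial.X + Polynomial.C 4 * Polynomial.X +
      Polynomial.C 6) + Polynomial.C 10 with hPE
  set PT : Polynomial ℕ := Polynomial.X + (Polynomial.X * (Polynomial.C 2 * Polynomial.X +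
    Polynomial.C 1) + Polynomial.C 1) + (Polynomial.X * (PE + Polynomial.C 1) + Polynomial.C 1) +
      Polynomial.C 2 with hPT
  refine NPC.Poly.iterLen (s := fun a => (os a, r a, ([] : List Ent))) (F := fun a s =>
    fwd f (QB.eval (W a).length) (QD.eval (W a).length) (W a) (p a) (F a) s) hos (by fun_prop)
    ?_ (PT.comp q0) ?_
  · refine poly_fwd hf (B := fun x : α × (List Op × List ℕ × List Ent) =>
      QB.eval (W x.1).length) (D := fun x => QD.eval (W x.1).length) ?_ ?_ (W := fun x => W x.1)
      (p := fun x => p x.1) (F := fun x => F x.1) (s := fun x => x.2) ?_ ?_ ?_ ?_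
    · exact (UPoly.length (hW.comp (NPC.Poly.fst NPC.Poly.id))).eval QB
    · exact (UPoly.length (hW.comp (NPC.Poly.fst NPC.Poly.id))).eval QD
    · fun_prop
    · fun_prop
    · fun_prop
    · fun_prop
  · intro a k hk
    have h1 := hq0 a
    simp only [sz_pair] at h1
    set X := q0.eval (sz a) with hX
    obtain ⟨h2, h3, h4, h5, h6⟩ := inv_iter (QD := QD) hqc (W := W a) (p := p a) (F := F a)
      (os := os a) (r := r a) (X := X) (by omega) k
    set s := (fwd f (QB.eval (W a).length) (QD.eval (W a).length) (W a) (p a) (F a))^[k]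
      (os a, r a, []) with hs
    have hk2 : k ≤ X := by
      have := length_lt_sz (os a)
      omega
    have hn : (r a).length ≤ X := by
      have := length_lt_sz (r a)
      omega
    have h7 : sz s = sz s.1 + (sz s.2.1 + sz s.2.2 + 1) + 1 := by
      rw [← sz_pair, ← sz_pair]
    have h8 : sz s.2.1 ≤ X * (2 * X + 1) + 1 := by
      refine (sz_le_length_mul _ _ h4).trans ?_
      rw [h3]
      exact Nat.add_le_add_right (Nat.mul_le_mul_right _ hn) _
    have hPEv : PE.eval X = 10 * X + qc.eval (2 * X * X + 4 * X + 6) + 10 := by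
      rw [hPE]
      simp [Polynomial.eval_comp]
    have h9 : sz s.2.2 ≤ X * (PE.eval X + 1) + 1 := by
      refine (sz_le_length_mul _ _ h6).trans ?_
      rw [hPEv]
      exact Nat.add_le_add_right (Nat.mul_le_mul_right _ (h5.trans hk2)) _
    have hPTv : (PT.comp q0).eval (sz a) = X + (X * (2 * X + 1) + 1) + (X * (PE.eval X + 1) + 1) +
        2 := by
      rw [hPT, Polynomial.eval_comp, ← hX]
      simp
    have e : (fun s => fwd f (QB.eval (W a).length) (QD.eval (W a).length) (W a) (p a) (F a) s) =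
      fwd f (QB.eval (W a).length) (QD.eval (W a).length) (W a) (p a) (F a) := rfl
    rw [hPTv]
    omega

theorem stepV_le (p : ℕ) (e : Ent) (y : ℕ) : stepV p e y ≤ p := combN_le _ _ _ _ _

theorem foldl_stepV_le (p : ℕ) : ∀ (l : List Ent) (y : ℕ), y ≤ p + 1 →
    l.foldl (fun y e => stepV p e y) y ≤ p + 1
  | [], _, h => h
  | e :: l, y, _ => foldl_stepV_le p l _ ((stepV_le p e y).trans (Nat.le_succ p))

theorem leafN_le (p : ℕ) (F : List (List (Bool × ℕ))) (r : List ℕ) : leafN p F r ≤ p + 1 :=
  prodN_le _ _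

theorem poly_run {f : List Bool → List (List Bool)} (hf : PolyTime (fun x => bits (f x)))
    (QB QD : Polynomial ℕ) {p : α → ℕ} {W : α → List Unit} (hW : NPC.Poly W)
    (hp : NPC.Poly p) {F : α → List (List (Bool × ℕ))} (hF : NPC.Poly F) {os : α → List Op}
    (hos : NPC.Poly os) {r : α → List ℕ} (hr : NPC.Poly r) :
    NPC.Poly (fun a => run f (QB.eval (W a).length) (QD.eval (W a).length) (W a) (p a)
      (F a) (os a) (r a)) := by
  have h1 := poly_iter hf QB QD hW hp hF hos hr
  obtain ⟨q0, hq0⟩ := hp.sz_le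
  have h2 : NPC.Poly (fun a => ((fwd f (QB.eval (W a).length) (QD.eval (W a).length) (W a) (p a)
      (F a))^[(os a).length] (os a, r a, [])).2.2.foldl (fun y e => stepV (p a) e y)
      (leafN (p a) (F a) ((fwd f (QB.eval (W a).length) (QD.eval (W a).length) (W a) (p a)
      (F a))^[(os a).length] (os a, r a, [])).2.1)) := by
    refine NPC.Poly.foldl (F := fun a y e => stepV (p a) e y) (NPC.Poly.snd (NPC.Poly.snd h1))
      (poly_leafN hp hF (NPC.Poly.fst (NPC.Poly.snd h1))) ?_
      (Polynomial.C 4 * q0 + Polynomial.C 10) ?_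
    · exact poly_stepV (p := fun x : α × ℕ × Ent => p x.1) (y := fun x => x.2.1)
        (e := fun x => x.2.2) (by fun_prop) (by fun_prop) (by fun_prop)
    · intro a k hk
      have h3 := foldl_stepV_le (p a) (((fwd f (QB.eval (W a).length) (QD.eval (W a).length) (W a)
        (p a) (F a))^[(os a).length] (os a, r a, [])).2.2.take k)
        (leafN (p a) (F a) ((fwd f (QB.eval (W a).length) (QD.eval (W a).length) (W a) (p a)
      (F a))^[(os a).length] (os a, r a, [])).2.1) (leafN_le _ _ _)
      have h4 := sz_nat_mono_le h3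
      have h5 := sz_succ_le (p a)
      have h6 := hq0 a
      simp only [Polynomial.eval_add, Polynomial.eval_mul, Polynomial.eval_C]
      omega
  exact h2.congr fun a => fwd_run f _ _ _ _ _ _ _ _

end Pool.Agent.Helper70K1.SP
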