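import Pool.Agent.H656R2.AK.QG
import Pool.Agent.H623R2.PS.Quant

/-!
# Arithmetization of quantified formulas
-/

set_option autoImplicit false

namespace Pool.Agent.Helper70K1.SP

open Pool.Agent.H656R2.AK (evc)
open Pool.Agent.H623R2.PS (evq)
open Polynomial

/-- An operation on functions of the variables: `(some true, i)` is the product over the two values
of the variable `i`, `(some false, i)` the arithmetized disjunction, `(none, i)` linearisation. -/
abbrev Op := Option Bool × ℕ

section Ring

variable {R : Type} [CommRing R]

/-- The combination of the values at `0` and `1`, the present value being `x`. -/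
def comb (o : Option Bool) (x u w : R) : R :=
  match o with
  | some true => u * w
  | some false => u + w - u * w
  | none => (1 - x) * u + x * w

/-- The value of a list of operations applied to a function of the variables. -/
def val (leaf : (ℕ → R) → R) : List Op → (ℕ → R) → R
  | [], r => leaf r
  | (o, i) :: os, r => comb o (r i) (val leaf os (Function.update r i 0))
      (val leaf os (Function.update r i 1))

/-- The arithmetized formula in conjunctive normal form. -/
def leafC (C : List (List (Bool × ℕ))) (r : ℕ → R) : R :=
  (C.map fun c => 1 - (c.map fun l => if l.1 = true then 1 - r l.2 else r l.2).prod).prod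

/-- The function `g` has degree at most `d` in the variable `i`. -/
def DegLE (g : (ℕ → R) → R) (i d : ℕ) : Prop :=
  ∀ r : ℕ → R, ∃ h : R[X], h.natDegree ≤ d ∧ ∀ t, g (Function.update r i t) = h.eval t

theorem DegLE.mono {g : (ℕ → R) → R} {i d d' : ℕ} (h : DegLE g i d) (hd : d ≤ d') :
    DegLE g i d' := fun r => by
  obtain ⟨p, h1, h2⟩ := h r
  exact ⟨p, h1.trans hd, h2⟩

theorem degLE_leafC (F : List (List (Bool × ℕ))) (i : ℕ) :
    DegLE (leafC (R := R) F) i (F.map List.length).sum := by
  intro r
  -- a literal
  have hl : ∀ l : Bool × ℕ, ∃ h : R[X], h.natDegree ≤ 1 ∧ ∀ t,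
      (if l.1 = true then 1 - Function.update r i t l.2 else Function.update r i t l.2) =
        h.eval t := by
    intro l
    by_cases hi : l.2 = i
    · subst hi
      simp only [Function.update_self]
      cases l.1
      · exact ⟨X, natDegree_X_le, fun t => by simp⟩
      · exact ⟨1 - X, (natDegree_sub_le _ _).trans (by simp [natDegree_X_le]), fun t => by simp⟩
    · simp only [Function.update_of_ne hi]
      cases l.1
      · exact ⟨C (r l.2), by simp, fun t => by simp⟩
      · exact ⟨C (1 - r l.2), by simp, fun t => by simp⟩
  -- a clause
  have hc : ∀ c : List (Bool × ℕ), ∃ h : R[X], h.natDegree ≤ c.length ∧ ∀ t,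
      (c.map fun l => if l.1 = true then 1 - Function.update r i t l.2 else
        Function.update r i t l.2).prod = h.eval t := by
    intro c
    induction c with
    | nil => exact ⟨1, by simp, fun t => by simp⟩
    | cons l c ih =>
      obtain ⟨h1, h2, h3⟩ := hl l
      obtain ⟨h4, h5, h6⟩ := ih
      refine ⟨h1 * h4, natDegree_mul_le.trans ?_, fun t => ?_⟩
      · rw [List.length_cons]; omega
      · rw [List.map_cons, List.prod_cons, h3, h6, eval_mul]
  unfold leafC
  induction F with
  | nil => exact ⟨1, by simp, fun t => by simp⟩
  | cons c F ih =>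
    obtain ⟨h1, h2, h3⟩ := hc c
    obtain ⟨h4, h5, h6⟩ := ih
    refine ⟨(1 - h1) * h4, natDegree_mul_le.trans ?_, fun t => ?_⟩
    · have : (1 - h1).natDegree ≤ c.length := (natDegree_sub_le _ _).trans (by simpa using h2)
      rw [List.map_cons, List.sum_cons]
      omega
    · rw [List.map_cons, List.prod_cons, h3, h6, eval_mul]
      simp

theorem degLE_ne {g : (ℕ → R) → R} {i j d : ℕ} (hij : i ≠ j) (h : DegLE g i d) (b : R)
    (r : ℕ → R) : ∃ p : R[X], p.natDegree ≤ d ∧
      ∀ t, g (Function.update (Function.update r i t) j b) = p.eval t := by
  obtain ⟨p, h1, h2⟩ := h (Function.update r j b)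
  exact ⟨p, h1, fun t => by rw [Function.update_comm hij, h2]⟩

variable {leaf : (ℕ → R) → R} {os : List Op}

theorem val_degLE_same (o : Option Bool) (j : ℕ) : DegLE (val leaf ((o, j) :: os)) j 1 := by
  intro r
  have e : ∀ t b, Function.update (Function.update r j t) j b = Function.update r j b :=
    fun t b => Function.update_idem _ _ _
  cases o with
  | none =>
    refine ⟨(1 - X) * C (val leaf os (Function.update r j 0)) +
      X * C (val leaf os (Function.update r j 1)), ?_, fun t => ?_⟩
    · refine (natDegree_add_le _ _).trans (max_le ?_ ?_)
      · refine natDegree_mul_le.trans ?_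
        have : (1 - X : R[X]).natDegree ≤ 1 :=
          (natDegree_sub_le _ _).trans (by simp [natDegree_X_le])
        simpa using this
      · refine natDegree_mul_le.trans ?_
        simpa using natDegree_X_le
    · simp only [val, comb, e, Function.update_self, eval_add, eval_mul, eval_sub, eval_one, eval_X,
        eval_C]
  | some b =>
    cases b
    · refine ⟨C (val leaf ((some false, j) :: os) r), by simp, fun t => ?_⟩
      simp [val, comb, e]
    · refine ⟨C (val leaf ((some true, j) :: os) r), by simp, fun t => ?_⟩
      simp [val, comb, e]

theorem val_degLE_lin {i j d : ℕ} (hij : i ≠ j) (h : DegLE (val leaf os) i d) :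
    DegLE (val leaf ((none, j) :: os)) i d := by
  intro r
  obtain ⟨p0, h1, h2⟩ := degLE_ne hij h 0 r
  obtain ⟨p1, h3, h4⟩ := degLE_ne hij h 1 r
  refine ⟨C (1 - r j) * p0 + C (r j) * p1, ?_, fun t => ?_⟩
  · refine (natDegree_add_le _ _).trans (max_le ?_ ?_)
    · exact (natDegree_C_mul_le _ _).trans h1
    · exact (natDegree_C_mul_le _ _).trans h3
  · simp [val, comb, h2, h4, Function.update_of_ne hij.symm]

theorem val_degLE_quant {i j d : ℕ} (b : Bool) (hij : i ≠ j) (h : DegLE (val leaf os) i d) :
    DegLE (val leaf ((some b, j) :: os)) i (2 * d) := by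
  intro r
  obtain ⟨p0, h1, h2⟩ := degLE_ne hij h 0 r
  obtain ⟨p1, h3, h4⟩ := degLE_ne hij h 1 r
  have hm : (p0 * p1).natDegree ≤ 2 * d := natDegree_mul_le.trans (by omega)
  cases b
  · refine ⟨p0 + p1 - p0 * p1, ?_, fun t => ?_⟩
    · refine (natDegree_sub_le _ _).trans (max_le ?_ hm)
      refine (natDegree_add_le _ _).trans (max_le ?_ ?_) <;> omega
    · simp [val, comb, h2, h4]
  · refine ⟨p0 * p1, hm, fun t => ?_⟩
    simp [val, comb, h2, h4]

/-- The function has degree at most `d` in all of the first `n` variables. -/
def AllDeg (n d : ℕ) (g : (ℕ → R) → R) : Prop := ∀ i < n, DegLE g i d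

/-- The block of linearisations. -/
def lins (n : ℕ) : List Op := (List.range n).map fun i => (none, i)

/-- The operations of a list of quantifiers (from the variable `k` on). -/
def opsQ (n : ℕ) : ℕ → List Bool → List Op
  | _, [] => []
  | k, q :: qs => (some q, k) :: (lins n ++ opsQ n (k + 1) qs)

theorem linblock {n d : ℕ} (hd : 1 ≤ d) (h : AllDeg n d (val leaf os)) :
    ∀ (k : ℕ) (l : List ℕ), l = (List.range n).drop k →
      AllDeg n d (val leaf (l.map (fun i => ((none, i) : Op)) ++ os)) ∧
        ∀ i ∈ l, DegLE (val leaf (l.map (fun i => ((none, i) : Op)) ++ os)) i 1 := by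
  intro k l hl
  have hlt : ∀ i ∈ l, i < n := fun i hi => by
    rw [hl] at hi
    exact List.mem_range.1 (List.mem_of_mem_drop hi)
  clear hl
  induction l with
  | nil => exact ⟨h, by simp⟩
  | cons j l ih =>
    obtain ⟨h1, h2⟩ := ih fun i hi => hlt i (List.mem_cons_of_mem _ hi)
    rw [List.map_cons, List.cons_append]
    constructor
    · intro i hi
      by_cases hij : i = j
      · subst hij
        exact (val_degLE_same none i).mono hd
      · exact val_degLE_lin hij (h1 i hi)
    · intro i hi
      by_cases hij : i = j
      · subst hij
        exact val_degLE_same none i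
      · rcases List.mem_cons.1 hi with h3 | h3
        · exact absurd h3 hij
        · exact val_degLE_lin hij (h2 i h3)

theorem allDeg_lins {n d : ℕ} (hd : 1 ≤ d) (h : AllDeg n d (val leaf os)) :
    AllDeg n 1 (val leaf (lins n ++ os)) := by
  intro i hi
  exact (linblock hd h 0 (List.range n) (by simp)).2 i (List.mem_range.2 hi)

theorem suffix_append_cases {α : Type} {m os' : List α} : ∀ {l : List α}, os' <:+ l ++ m →
    os' <:+ m ∨ ∃ k, os' = l.drop k ++ m
  | [], h => Or.inl h
  | a :: l, h => by
    rw [List.cons_append, List.suffix_cons_iff] at h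
    rcases h with h | h
    · exact Or.inr ⟨0, h⟩
    · rcases suffix_append_cases h with h | ⟨k, h⟩
      · exact Or.inl h
      · exact Or.inr ⟨k + 1, h⟩

/-- All suffixes of the list of operations give functions of degree at most `d`. -/
theorem allDeg_suffix {n d : ℕ} (hd : 2 ≤ d) (hleaf : AllDeg n d leaf) :
    ∀ (qs : List Bool) (k : ℕ), ∀ os' : List Op, os' <:+ opsQ n k qs →
      AllDeg n d (val leaf os') := by
  intro qs
  induction qs with
  | nil =>
    intro k os' h
    rw [opsQ, List.suffix_nil] at h
    subst h
    exact hleaf
  | cons q qs ih =>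
    intro k os' h
    rw [opsQ, List.suffix_cons_iff] at h
    have hbase : AllDeg n d (val leaf (opsQ n (k + 1) qs)) := ih (k + 1) _ List.suffix_rfl
    rcases h with h | h
    · subst h
      intro i hi
      have h1 := allDeg_lins (by omega) hbase i hi
      by_cases hik : i = k
      · subst hik
        exact (val_degLE_same _ _).mono (by omega)
      · exact (val_degLE_quant q hik h1).mono (by omega)
    · rcases suffix_append_cases h with h | ⟨j, rfl⟩
      · exact ih (k + 1) _ h
      · unfold lins
        rw [← List.map_drop]
        exact (linblock (by omega) hbase j _ rfl).1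

/-! ### Boolean points -/

/-- A truth value as an element of the ring. -/
def bit (b : Bool) : R := if b = true then 1 else 0

@[simp] theorem bit_true : (bit true : R) = 1 := by simp [bit]
@[simp] theorem bit_false : (bit false : R) = 0 := by simp [bit]

/-- The value of a formula in conjunctive normal form. -/
def leafB (F : List (List (Bool × ℕ))) (β : ℕ → Bool) : Bool :=
  F.all fun c => c.any fun l => β l.2 == l.1

/-- The value of a quantified formula. -/
def evb (F : List (List (Bool × ℕ))) : ℕ → List Bool → (ℕ → Bool) → Bool
  | _, [], β => leafB F β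
  | k, q :: qs, β => bif q then
      evb F (k + 1) qs (Function.update β k false) && evb F (k + 1) qs (Function.update β k true)
    else evb F (k + 1) qs (Function.update β k false) || evb F (k + 1) qs (Function.update β k true)

theorem bit_update (β : ℕ → Bool) (k : ℕ) (b : Bool) :
    (fun i => (bit (Function.update β k b i) : R)) =
      Function.update (fun i => (bit (β i) : R)) k (bit b) := by
  funext i
  by_cases h : i = k
  · subst h; simp
  · simp [Function.update_of_ne h]

theorem leafC_bit (F : List (List (Bool × ℕ))) (β : ℕ → Bool) :
    leafC F (fun i => (bit (β i) : R)) = bit (leafB F β) := by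
  have hc : ∀ c : List (Bool × ℕ), (c.map fun l => if l.1 = true then 1 - (bit (β l.2) : R) else
      bit (β l.2)).prod = bit (!(c.any fun l => β l.2 == l.1)) := by
    intro c
    induction c with
    | nil => simp
    | cons l c ih =>
      rw [List.map_cons, List.prod_cons, ih, List.any_cons]
      obtain ⟨b, i⟩ := l
      cases b <;> cases β i <;> simp
  unfold leafC leafB
  induction F with
  | nil => simp
  | cons c F ih =>
    rw [List.map_cons, List.prod_cons, ih, hc, List.all_cons]
    cases c.any fun l => β l.2 == l.1 <;> simp

theorem val_lins (leaf : (ℕ → R) → R) (os : List Op) (β : ℕ → Bool) (l : List ℕ) :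
    val leaf (l.map (fun i => ((none, i) : Op)) ++ os) (fun i => bit (β i)) =
      val leaf os (fun i => bit (β i)) := by
  induction l with
  | nil => rfl
  | cons j l ih =>
    rw [List.map_cons, List.cons_append, val]
    cases h : β j
    · have e : Function.update (fun i => (bit (β i) : R)) j 0 = fun i => bit (β i) := by
        rw [← bit_false, ← h]
        exact Function.update_eq_self j _
      simp only [comb]
      rw [e, ih]
      simp
    · have e : Function.update (fun i => (bit (β i) : R)) j 1 = fun i => bit (β i) := by
        rw [← bit_true, ← h]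
        exact Function.update_eq_self j _
      simp only [comb]
      rw [e, ih]
      simp

theorem val_opsQ (F : List (List (Bool × ℕ))) (n : ℕ) : ∀ (qs : List Bool) (k : ℕ) (β : ℕ → Bool),
    val (leafC F) (opsQ n k qs) (fun i => (bit (β i) : R)) = bit (evb F k qs β)
  | [], k, β => leafC_bit F β
  | q :: qs, k, β => by
    rw [opsQ, val, evb]
    have h0 := bit_update (R := R) β k false
    have h1 := bit_update (R := R) β k true
    rw [bit_false] at h0
    rw [bit_true] at h1
    rw [← h0, ← h1]
    unfold lins
    rw [val_lins, val_lins, val_opsQ F n qs, val_opsQ F n qs]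
    cases q <;> cases evb F (k + 1) qs (Function.update β k false) <;>
      cases evb F (k + 1) qs (Function.update β k true) <;> simp [comb]

end Ring

theorem getD_snoc (u : List Bool) (b : Bool) :
    (fun i => (u ++ [b]).getD i false) = Function.update (fun i => u.getD i false) u.length b := by
  funext i
  by_cases h : i = u.length
  · subst h
    simp [List.getD_eq_getElem?_getD]
  · rw [Function.update_of_ne h]
    rcases lt_or_gt_of_ne h with h | h
    · simp [List.getD_eq_getElem?_getD, List.getElem?_append_left h]
    · rw [List.getD_eq_getElem?_getD, List.getD_eq_getElem?_getD,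
        List.getElem?_eq_none (by simp; omega), List.getElem?_eq_none (by omega)]

theorem evb_eq (F : List (List (Bool × ℕ))) : ∀ (qs : List Bool) (u : List Bool),
    evb F u.length qs (fun i => u.getD i false) = evq qs (fun v => evc (u ++ v) F)
  | [], u => by
    rw [evb, evq, List.append_nil]
    rfl
  | q :: qs, u => by
    have h := fun b => evb_eq F qs (u ++ [b])
    simp only [List.length_append, List.length_singleton, getD_snoc, List.append_assoc,
      List.singleton_append] at h
    rw [evb, evq, h, h]

/-- The arithmetization of a quantified formula. -/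
theorem val_ops {R : Type} [CommRing R] (F : List (List (Bool × ℕ))) (n : ℕ) (qs : List Bool) :
    val (leafC F) (opsQ n 0 qs) (fun _ => (0 : R)) = bit (evq qs (fun v => evc v F)) := by
  have h := evb_eq F qs []
  simp only [List.length_nil, List.nil_append, List.getD_nil] at h
  rw [← h, ← val_opsQ (R := R) F n qs 0]
  simp

end Pool.Agent.Helper70K1.SP
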