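import Mathlib

/-!
# Elementary number theory: many small primes, and reconstruction from residues
-/

set_option autoImplicit false

namespace Pool.Agent.Helper70K1.SP

/-- There are at least `A` primes up to `2 (A + 4) ^ 2`. -/
theorem card_primes (A : ℕ) :
    A ≤ ((Finset.range (2 * (A + 4) ^ 2 + 1)).filter Nat.Prime).card := by
  set n := (A + 4) ^ 2 with hn
  set P := (Finset.range (2 * n + 1)).filter Nat.Prime with hP
  by_contra hlt
  push Not at hlt
  have hn4 : 4 ≤ n := by
    have : 4 ^ 2 ≤ (A + 4) ^ 2 := Nat.pow_le_pow_left (by omega) 2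
    omega
  have h1 : n.centralBinom ≤ (2 * n) ^ P.card := by
    rw [← Nat.prod_pow_factorization_centralBinom n]
    have h2 : ∏ p ∈ Finset.range (2 * n + 1), p ^ (n.centralBinom).factorization p =
        ∏ p ∈ P, p ^ (n.centralBinom).factorization p := by
      rw [hP, Finset.prod_filter]
      refine Finset.prod_congr rfl fun p _ => ?_
      split_ifs with hp
      · rfl
      · rw [Nat.factorization_eq_zero_of_not_prime _ hp, pow_zero]
    rw [h2]
    refine (Finset.prod_le_pow_card _ _ (2 * n) fun p _ => ?_)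
    unfold Nat.centralBinom
    exact Nat.pow_factorization_choose_le (by omega)
  have h3 : 4 ^ n < n * n.centralBinom := Nat.four_pow_lt_mul_centralBinom n hn4
  have h4 : n * n.centralBinom ≤ (2 * n) ^ A := by
    calc n * n.centralBinom ≤ (2 * n) * (2 * n) ^ P.card :=
          Nat.mul_le_mul (by omega) h1
      _ = (2 * n) ^ (P.card + 1) := by rw [pow_succ]; ring
      _ ≤ (2 * n) ^ A := Nat.pow_le_pow_right (by omega) (by omega)
  have h5 : 2 * n ≤ 2 ^ (2 * (A + 4) + 1) := by
    have : A + 4 ≤ 2 ^ (A + 4) := Nat.lt_two_pow_self.le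
    calc 2 * n ≤ 2 * (2 ^ (A + 4)) ^ 2 := Nat.mul_le_mul_left _ (Nat.pow_le_pow_left this 2)
      _ = 2 ^ (2 * (A + 4) + 1) := by rw [← pow_mul, pow_succ]; ring
  have h6 : (2 * n) ^ A ≤ 2 ^ ((2 * (A + 4) + 1) * A) := by
    rw [pow_mul]
    exact Nat.pow_le_pow_left h5 A
  have h7 : (2 * (A + 4) + 1) * A ≤ 2 * n := by
    rw [hn]
    nlinarith
  have h8 : (4 : ℕ) ^ n = 2 ^ (2 * n) := by rw [pow_mul]; norm_num
  have h9 : 2 ^ ((2 * (A + 4) + 1) * A) ≤ 2 ^ (2 * n) := Nat.pow_le_pow_right (by norm_num) h7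
  omega

/-- One step of the reconstruction of a number from residues. -/
def crtStep (B X : ℕ) (s : ℕ × ℕ) (e : ℕ × ℕ) : ℕ × ℕ :=
  if s.2 < X then
    ((s.1 + s.2 * (((List.range B).filter fun t => decide ((s.1 + s.2 * t) % e.1 = e.2)).head?).getD
      0) % (s.2 * e.1), s.2 * e.1)
  else s

/-- Reconstruction of a number smaller than `X` from residues. -/
def crt (B X : ℕ) (l : List (ℕ × ℕ)) : ℕ := (l.foldl (crtStep B X) (0, 1)).1

theorem head_filter_range {B t₀ : ℕ} {p : ℕ → Bool} (ht : t₀ < B) (hp : p t₀ = true) :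
    ∃ t, ((List.range B).filter p).head? = some t ∧ t ≤ t₀ ∧ p t = true := by
  have hmem : t₀ ∈ (List.range B).filter p := List.mem_filter.2 ⟨List.mem_range.2 ht, hp⟩
  have hs : ((List.range B).filter p).Pairwise (· < ·) :=
    (List.pairwise_lt_range).filter p
  cases h : (List.range B).filter p with
  | nil => rw [h] at hmem; simp at hmem
  | cons t l =>
    refine ⟨t, rfl, ?_, ?_⟩
    · rw [h] at hmem hs
      rcases List.mem_cons.1 hmem with h1 | h1
      · exact h1.ge
      · exact ((List.pairwise_cons.1 hs).1 _ h1).le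
    · have : t ∈ (List.range B).filter p := by rw [h]; exact List.mem_cons_self
      exact (List.mem_filter.1 this).2

theorem crtStep_spec {B X V M : ℕ} (hM : 0 < M) {e : ℕ × ℕ} (he : e.1.Prime) (heB : e.1 ≤ B)
    (hV : V % e.1 = e.2) (hc : Nat.Coprime M e.1) (hX : M < X) :
    crtStep B X (V % M, M) e = (V % (M * e.1), M * e.1) := by
  obtain ⟨q, b⟩ := e
  simp only at he heB hV hc
  have hq : 0 < q := he.pos
  -- a good value of `t`
  have key : (V % M + M * ((V % (M * q)) / M)) = V % (M * q) := by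
    have h1 : (V % (M * q)) % M = V % M := Nat.mod_mul_right_mod V M q
    have h2 := Nat.mod_add_div (V % (M * q)) M
    rw [h1] at h2
    exact h2
  have ht : (V % (M * q)) / M < q := by
    rw [Nat.div_lt_iff_lt_mul hM]
    have := Nat.mod_lt V (Nat.mul_pos hM hq)
    rwa [mul_comm q M]
  have hp : (fun t => decide ((V % M + M * t) % q = b)) ((V % (M * q)) / M) = true := by
    simp only [key, decide_eq_true_eq]
    rw [Nat.mod_mul_left_mod, hV]
  obtain ⟨t, h1, h2, h3⟩ := head_filter_range (B := B)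
    (p := fun t => decide ((V % M + M * t) % q = b)) (lt_of_lt_of_le ht heB) hp
  unfold crtStep
  simp only [hX, if_true, h1, Option.getD_some]
  refine Prod.ext ?_ rfl
  simp only
  rw [decide_eq_true_eq] at h3
  -- `V % M + M t` is congruent to `V` modulo `M` and modulo `q`
  have h4 : (V % M + M * t) % (M * q) = V % (M * q) := by
    have e1 : (V % M + M * t) ≡ V [MOD M] := by
      unfold Nat.ModEq
      rw [Nat.add_mul_mod_self_left, Nat.mod_mod]
    have e2 : (V % M + M * t) ≡ V [MOD q] := by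
      unfold Nat.ModEq
      rw [h3, hV]
    exact (Nat.modEq_and_modEq_iff_modEq_mul hc).1 ⟨e1, e2⟩
  exact h4

theorem crt_fold {B X V : ℕ} : ∀ (l : List (ℕ × ℕ)) (M : ℕ), 0 < M →
    (∀ e ∈ l, e.1.Prime ∧ e.1 ≤ B ∧ V % e.1 = e.2) → (l.map Prod.fst).Nodup →
    (∀ e ∈ l, Nat.Coprime M e.1) →
    ∃ M', l.foldl (crtStep B X) (V % M, M) = (V % M', M') ∧ (X ≤ M' ∨ M * 2 ^ l.length ≤ M')
  | [], M, _, _, _, _ => ⟨M, rfl, Or.inr (by simp)⟩
  | e :: l, M, hM, h1, h2, h3 => by
    rw [List.foldl_cons]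
    by_cases hX : M < X
    · have he := h1 e List.mem_cons_self
      rw [crtStep_spec hM he.1 he.2.1 he.2.2 (h3 e List.mem_cons_self) hX]
      rw [List.map_cons, List.nodup_cons] at h2
      obtain ⟨M', h4, h5⟩ := crt_fold (B := B) (X := X) l (M * e.1) (Nat.mul_pos hM he.1.pos)
        (fun e' he' => h1 e' (List.mem_cons_of_mem _ he')) h2.2 (fun e' he' => by
          refine Nat.Coprime.mul_left (h3 e' (List.mem_cons_of_mem _ he')) ?_
          refine (Nat.coprime_primes he.1 (h1 e' (List.mem_cons_of_mem _ he')).1).2 fun h => ?_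
          exact h2.1 (List.mem_map.2 ⟨e', he', h.symm⟩))
      refine ⟨M', h4, h5.imp_right fun h => le_trans ?_ h⟩
      rw [List.length_cons, pow_succ]
      have := he.1.two_le
      calc M * (2 ^ l.length * 2) = M * 2 * 2 ^ l.length := by ring
        _ ≤ M * e.1 * 2 ^ l.length := Nat.mul_le_mul_right _ (Nat.mul_le_mul_left _ this)
    · have hs : ∀ e, crtStep B X (V % M, M) e = (V % M, M) := fun e => by
        unfold crtStep
        simp [hX]
      have hf : ∀ l : List (ℕ × ℕ), l.foldl (crtStep B X) (V % M, M) = (V % M, M) := by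
        intro l
        induction l with
        | nil => rfl
        | cons e l ih => rw [List.foldl_cons, hs, ih]
      rw [hs, hf]
      exact ⟨M, rfl, Or.inl (by omega)⟩

/-- The reconstruction is correct. -/
theorem crt_eq {B X V : ℕ} {l : List (ℕ × ℕ)}
    (h1 : ∀ e ∈ l, e.1.Prime ∧ e.1 ≤ B ∧ V % e.1 = e.2) (h2 : (l.map Prod.fst).Nodup) (hV : V < X)
    (hX : X ≤ 2 ^ l.length) : crt B X l = V := by
  obtain ⟨M', h3, h4⟩ := crt_fold (B := B) (X := X) (V := V) l 1 one_pos h1 h2
    (fun e _ => Nat.coprime_one_left _)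
  unfold crt
  have h5 : (V % 1, 1) = ((0 : ℕ), (1 : ℕ)) := by rw [Nat.mod_one]
  rw [h5] at h3
  rw [h3]
  refine Nat.mod_eq_of_lt ?_
  rcases h4 with h4 | h4
  · omega
  · omega

end Pool.Agent.Helper70K1.SP
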