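import Pool.Agent.Helper70K1.SP.Arith
import Pool.Agent.Helper70K1.SP.NT
import Pool.Agent.NPC.Dec
import Pool.Agent.H671R2.PolyAuto
import Pool.Agent.H623R2.PS.Savitch

/-!
# Computation modulo `p + 1`, and its complexity
-/

set_option autoImplicit false

namespace Pool.Agent.Helper70K1.SP

open Pool.Agent.NPC

/-! ### Arithmetic modulo `p + 1` -/

/-- Subtraction modulo `p + 1`. -/
def subN (p a b : ℕ) : ℕ := (a + (p + 1 - b % (p + 1))) % (p + 1)

/-- The combination of the values at `0` and `1`, modulo `p + 1`. -/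
def combN (p : ℕ) (o : Option Bool) (x u w : ℕ) : ℕ :=
  o.elim ((subN p 1 x * u + x * w) % (p + 1))
    (fun b => bif b then u * w % (p + 1) else subN p (u + w) (u * w))

/-- The product of a list modulo `p + 1`. -/
def prodN (p : ℕ) (l : List ℕ) : ℕ := l.foldr (fun x acc => x * acc % (p + 1)) 1

/-- The value of a literal. -/
def litN (p : ℕ) (r : List ℕ) (l : Bool × ℕ) : ℕ :=
  bif l.1 then subN p 1 (r.getD l.2 0) else r.getD l.2 0

/-- The arithmetized formula modulo `p + 1`. -/
def leafN (p : ℕ) (F : List (List (Bool × ℕ))) (r : List ℕ) : ℕ :=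
  prodN p (F.map fun c => subN p 1 (prodN p (c.map fun l => litN p r l)))

/-- The value of a polynomial modulo `p + 1`. -/
def evalN (p : ℕ) (cs : List ℕ) (t : ℕ) : ℕ := cs.foldr (fun c acc => (c + t * acc) % (p + 1)) 0

/-- The point of a list of numbers. -/
def pt (p : ℕ) (r : List ℕ) : ℕ → ZMod (p + 1) := fun i => ((r.getD i 0 : ℕ) : ZMod (p + 1))

theorem cast_mod (p a : ℕ) : ((a % (p + 1) : ℕ) : ZMod (p + 1)) = a := ZMod.natCast_mod a (p + 1)

theorem cast_subN (p a b : ℕ) : ((subN p a b : ℕ) : ZMod (p + 1)) = a - b := by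
  unfold subN
  rw [cast_mod, Nat.cast_add, Nat.cast_sub (Nat.mod_lt _ (Nat.succ_pos p)).le, cast_mod,
    ZMod.natCast_self]
  ring

theorem cast_combN (p : ℕ) (o : Option Bool) (x u w : ℕ) :
    ((combN p o x u w : ℕ) : ZMod (p + 1)) = comb o (x : ZMod (p + 1)) u w := by
  unfold combN comb
  rcases o with _ | _ | _
  · simp only [Option.elim]
    rw [cast_mod]
    push_cast
    rw [cast_subN]
    simp
  · simp only [Option.elim, cond_false]
    rw [cast_subN]
    push_cast
    ring
  · simp only [Option.elim, cond_true]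
    rw [cast_mod]
    push_cast
    ring

theorem cast_prodN (p : ℕ) (l : List ℕ) :
    ((prodN p l : ℕ) : ZMod (p + 1)) = (l.map fun x : ℕ => ((x : ℕ) : ZMod (p + 1))).prod := by
  unfold prodN
  induction l with
  | nil => simp
  | cons x l ih =>
    rw [List.foldr_cons, cast_mod, Nat.cast_mul, ih, List.map_cons, List.prod_cons]

theorem cast_leafN (p : ℕ) (F : List (List (Bool × ℕ))) (r : List ℕ) :
    ((leafN p F r : ℕ) : ZMod (p + 1)) = leafC F (pt p r) := by
  unfold leafN leafC
  rw [cast_prodN, List.map_map]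
  congr 1
  refine List.map_congr_left fun c _ => ?_
  simp only [Function.comp]
  rw [cast_subN, cast_prodN, List.map_map, Nat.cast_one]
  congr 2
  refine List.map_congr_left fun l _ => ?_
  simp only [Function.comp, litN, pt]
  rcases l with ⟨_ | _, i⟩
  · simp
  · simp [cast_subN]

open Polynomial in
/-- The polynomial of a list of coefficients. -/
noncomputable def plc (p : ℕ) (cs : List ℕ) : (ZMod (p + 1))[X] :=
  cs.foldr (fun c P => C (c : ZMod (p + 1)) + X * P) 0

open Polynomial in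
theorem plc_cons (p c : ℕ) (cs : List ℕ) : plc p (c :: cs) = C (c : ZMod (p + 1)) + X * plc p cs :=
  rfl

open Polynomial in
theorem cast_evalN (p : ℕ) (cs : List ℕ) (t : ℕ) :
    ((evalN p cs t : ℕ) : ZMod (p + 1)) = (plc p cs).eval (t : ZMod (p + 1)) := by
  induction cs with
  | nil => simp [evalN, plc]
  | cons c cs ih =>
    rw [plc_cons]
    unfold evalN at *
    rw [List.foldr_cons, cast_mod, Nat.cast_add, Nat.cast_mul, ih]
    simp

open Polynomial in
theorem coeff_plc (p : ℕ) (cs : List ℕ) (j : ℕ) :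
    (plc p cs).coeff j = ((cs.getD j 0 : ℕ) : ZMod (p + 1)) := by
  induction cs generalizing j with
  | nil => simp [plc]
  | cons c cs ih =>
    rw [plc_cons]
    cases j with
    | zero => simp
    | succ j => simp [coeff_X_mul, ih]

open Polynomial in
theorem degree_plc (p : ℕ) (cs : List ℕ) : (plc p cs).degree < cs.length := by
  rw [degree_lt_iff_coeff_zero]
  intro j hj
  rw [coeff_plc, List.getD_eq_getElem?_getD, List.getElem?_eq_none (by exact_mod_cast hj)]
  simp

theorem evalN_le (p : ℕ) (cs : List ℕ) (t : ℕ) : evalN p cs t ≤ p := by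
  unfold evalN
  cases cs with
  | nil => simp
  | cons c cs => exact Nat.lt_succ_iff.1 (Nat.mod_lt _ (Nat.succ_pos p))

theorem subN_le (p a b : ℕ) : subN p a b ≤ p := Nat.lt_succ_iff.1 (Nat.mod_lt _ (Nat.succ_pos p))

theorem combN_le (p : ℕ) (o : Option Bool) (x u w : ℕ) : combN p o x u w ≤ p := by
  unfold combN
  rcases o with _ | _ | _
  · exact Nat.lt_succ_iff.1 (Nat.mod_lt _ (Nat.succ_pos p))
  · exact subN_le _ _ _
  · exact Nat.lt_succ_iff.1 (Nat.mod_lt _ (Nat.succ_pos p))

theorem prodN_le (p : ℕ) (l : List ℕ) : prodN p l ≤ p + 1 := by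
  unfold prodN
  cases l with
  | nil => simp
  | cons c cs => exact (Nat.mod_lt _ (Nat.succ_pos p)).le

/-- Equality in the field of natural numbers at most `p`. -/
theorem cast_inj_of_le {p a b : ℕ} (ha : a ≤ p) (hb : b ≤ p)
    (h : (a : ZMod (p + 1)) = (b : ZMod (p + 1))) : a = b := by
  rw [ZMod.natCast_eq_natCast_iff] at h
  exact Nat.ModEq.eq_of_lt_of_lt h (Nat.lt_succ_iff.2 ha) (Nat.lt_succ_iff.2 hb)

theorem plc_inj {p : ℕ} {cs cs' : List ℕ} (hl : cs.length = cs'.length) (h1 : ∀ c ∈ cs, c ≤ p)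
    (h2 : ∀ c ∈ cs', c ≤ p) (h : plc p cs = plc p cs') : cs = cs' := by
  refine List.ext_getElem hl fun i h3 h4 => ?_
  have h5 : (plc p cs).coeff i = (plc p cs').coeff i := by rw [h]
  rw [coeff_plc, coeff_plc, List.getD_eq_getElem _ _ h3, List.getD_eq_getElem _ _ h4] at h5
  exact cast_inj_of_le (h1 _ (List.getElem_mem h3)) (h2 _ (List.getElem_mem h4)) h5

open Polynomial in
/-- Different polynomials agree at few points. -/
theorem card_agree {p : ℕ} [Fact (p + 1).Prime] {cs cs' : List ℕ} {m : ℕ} (hl : cs.length = m)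
    (hl' : cs'.length = m) (h1 : ∀ c ∈ cs, c ≤ p) (h2 : ∀ c ∈ cs', c ≤ p) (h : cs ≠ cs') :
    ((Finset.range (p + 1)).filter fun t => evalN p cs t = evalN p cs' t).card ≤ m := by
  have hne : plc p cs - plc p cs' ≠ 0 := fun h3 =>
    h (plc_inj (hl.trans hl'.symm) h1 h2 (sub_eq_zero.1 h3))
  have hd : (plc p cs - plc p cs').natDegree ≤ m := by
    refine natDegree_le_of_degree_le ((degree_sub_le _ _).trans (max_le ?_ ?_))
    · rw [← hl]; exact (degree_plc p cs).le
    · rw [← hl']; exact (degree_plc p cs').le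
  have h3 : ((Finset.range (p + 1)).filter fun t => evalN p cs t = evalN p cs' t).image
      (fun t : ℕ => ((t : ℕ) : ZMod (p + 1))) ⊆ (plc p cs - plc p cs').roots.toFinset := by
    intro x hx
    rw [Finset.mem_image] at hx
    obtain ⟨t, ht, rfl⟩ := hx
    rw [Finset.mem_filter] at ht
    rw [Multiset.mem_toFinset, mem_roots hne, IsRoot.def, eval_sub, ← cast_evalN, ← cast_evalN,
      ht.2, sub_self]
  have h4 := Finset.card_le_card h3
  rw [Finset.card_image_of_injOn] at h4
  · exact h4.trans ((Multiset.toFinset_card_le _).trans ((card_roots' _).trans hd))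
  · intro a ha b hb hab
    rw [Finset.mem_coe, Finset.mem_filter, Finset.mem_range] at ha hb
    exact cast_inj_of_le (by omega) (by omega) hab

/-! ### Digits -/

/-- The coefficients coded by a number. -/
def cf (m V : ℕ) : List ℕ := (List.range m).map fun j => V / 2 ^ (j * m) % 2 ^ m

@[simp] theorem cf_length (m V : ℕ) : (cf m V).length = m := by simp [cf]

theorem ofDigits_digit {b : ℕ} (hb : 0 < b) : ∀ (cs : List ℕ) (_ : ∀ c ∈ cs, c < b) (j : ℕ),
    Nat.ofDigits b cs / b ^ j % b = cs.getD j 0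
  | [], _, j => by simp
  | c :: cs, h, 0 => by
    rw [Nat.ofDigits_cons]
    simp [Nat.mod_eq_of_lt (h c List.mem_cons_self)]
  | c :: cs, h, j + 1 => by
    have h1 := ofDigits_digit hb cs (fun c hc => h c (List.mem_cons_of_mem _ hc)) j
    rw [Nat.ofDigits_cons, pow_succ', ← Nat.div_div_eq_div_mul,
      Nat.add_mul_div_left _ _ hb, Nat.div_eq_of_lt (h c List.mem_cons_self), zero_add, h1]
    simp

theorem cf_ofDigits {m : ℕ} {cs : List ℕ} (hl : cs.length = m) (h : ∀ c ∈ cs, c < 2 ^ m) :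
    cf m (Nat.ofDigits (2 ^ m) cs) = cs := by
  refine List.ext_getElem (by simp [hl]) fun i h1 h2 => ?_
  simp only [cf, List.getElem_map, List.getElem_range]
  rw [mul_comm i m, pow_mul, ofDigits_digit (by positivity) cs h, List.getD_eq_getElem _ _ h2]

theorem mod_pow_eq_ofDigits (b V : ℕ) : ∀ k : ℕ,
    V % b ^ k = Nat.ofDigits b ((List.range k).map fun j => V / b ^ j % b)
  | 0 => by simp [Nat.mod_one]
  | k + 1 => by
    rw [Nat.mod_pow_succ, mod_pow_eq_ofDigits b V k, List.range_succ, List.map_append,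
      Nat.ofDigits_append]
    simp

theorem ofDigits_cf {m V : ℕ} (hV : V < 2 ^ (m * m)) : Nat.ofDigits (2 ^ m) (cf m V) = V := by
  have h := mod_pow_eq_ofDigits (2 ^ m) V m
  rw [← pow_mul, Nat.mod_eq_of_lt hV] at h
  rw [h]
  congr 1
  unfold cf
  refine List.map_congr_left fun j _ => ?_
  rw [mul_comm j m, pow_mul, ← h]

theorem cf_inj {m V V' : ℕ} (hV : V < 2 ^ (m * m)) (hV' : V' < 2 ^ (m * m))
    (h : cf m V = cf m V') : V = V' := by
  rw [← ofDigits_cf hV, h, ofDigits_cf hV']

theorem ofDigits_lt {m : ℕ} {cs : List ℕ} (hm : 0 < m) (hl : cs.length = m)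
    (h : ∀ c ∈ cs, c < 2 ^ m) : Nat.ofDigits (2 ^ m) cs < 2 ^ (m * m) := by
  have h1 := Nat.ofDigits_lt_base_pow_length (b := 2 ^ m) (l := cs) (Nat.one_lt_two_pow hm.ne') h
  rwa [hl, ← pow_mul] at h1

/-! ### Numbers from bits -/

theorem exists_valB {n V : ℕ} (h : V < 2 ^ n) : ∃ l : List Bool, l.length = n ∧ valB l = V := by
  induction n generalizing V with
  | zero => exact ⟨[], rfl, by simp at h; simp [h]⟩
  | succ n ih =>
    obtain ⟨l, h1, h2⟩ := ih (V := V / 2) (by rw [pow_succ] at h; omega)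
    refine ⟨decide (V % 2 = 1) :: l, by simp [h1], ?_⟩
    rw [valB_cons, h2]
    rcases Nat.mod_two_eq_zero_or_one V with h3 | h3
    · simp [h3]; omega
    · simp [h3]; omega

end Pool.Agent.Helper70K1.SP
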