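import Pool.Agent.Helper70K1.SP.CompPoly

/-!
# The language of residues of the round polynomials
-/

set_option autoImplicit false

namespace Pool.Agent.Helper70K1.SP

open Pool.Agent.NPC
open Pool.Agent.H623R2.PS (evq evq_exists evq_and InPSPACE inPSPACE_of_evq poly_replicate)

/-! ### Quantifier blocks -/

theorem evq_forall (n : ℕ) (qs : List Bool) (φ : List Bool → Bool) :
    evq (List.replicate n true ++ qs) φ = true ↔
      ∀ M : List Bool, M.length = n → evq qs (fun u => φ (M ++ u)) = true := by
  induction n generalizing φ with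
  | zero =>
    constructor
    · intro h M hM
      rw [List.length_eq_zero_iff] at hM
      subst hM
      simpa using h
    · intro h
      simpa using h [] rfl
  | succ n ih =>
    rw [List.replicate_succ, List.cons_append, evq, cond_true, Bool.and_eq_true, ih, ih]
    constructor
    · rintro ⟨h0, h1⟩ M hM
      cases M with
      | nil => simp at hM
      | cons b M =>
        cases b with
        | false => simpa using h0 M (by simpa using hM)
        | true => simpa using h1 M (by simpa using hM)
    · intro h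
      exact ⟨fun M hM => by simpa using h (false :: M) (by simp [hM]),
        fun M hM => by simpa using h (true :: M) (by simp [hM])⟩

theorem evq_or (g : Bool) (qs : List Bool) (φ : List Bool → Bool) :
    evq qs (fun u => g || φ u) = (g || evq qs φ) := by
  induction qs generalizing φ with
  | nil => rfl
  | cons q qs ih =>
    rw [evq, evq, ih, ih]
    cases g <;> cases q <;> simp

theorem evq_not (qs : List Bool) (φ : List Bool → Bool) :
    evq (qs.map fun q => !q) (fun u => !φ u) = !evq qs φ := by
  induction qs generalizing φ with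
  | nil => rfl
  | cons q qs ih =>
    rw [List.map_cons, evq, evq, ih, ih]
    cases q <;> simp

/-! ### The chain of claims -/

/-- One step of the chain of claims: the state consists of the point, the claimed value, a flag and
the remaining bits. -/
def cstep (m p : ℕ) (s : List ℕ × ℕ × Bool × List Bool) (o : Op) :
    List ℕ × ℕ × Bool × List Bool :=
  (s.1.set o.2 (bif s.2.2.2.getD (2 * m) false then 1 else 0),
    (bif s.2.2.2.getD (2 * m) false then valB ((s.2.2.2.drop m).take m)
      else valB (s.2.2.2.take m)),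
    s.2.2.1 && decide (combN p o.1 (s.1.getD o.2 0) (valB (s.2.2.2.take m))
      (valB ((s.2.2.2.drop m).take m)) % (p + 1) = s.2.1 % (p + 1)),
    s.2.2.2.drop (2 * m + 1))

/-- The last check. -/
def cfin (p : ℕ) (F : List (List (Bool × ℕ))) (s : List ℕ × ℕ × Bool × List Bool) : Bool :=
  s.2.2.1 && decide (leafN p F s.1 % (p + 1) = s.2.1 % (p + 1))

/-- The quantifiers of the chain. -/
def blk (m : ℕ) (os : List Op) : List Bool :=
  os.flatMap fun _ => List.replicate (2 * m) false ++ [true]

theorem pt_set {p : ℕ} {r : List ℕ} {i : ℕ} (h : i < r.length) (v : ℕ) :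
    pt p (r.set i v) = Function.update (pt p r) i (v : ZMod (p + 1)) := by
  funext j
  unfold pt
  by_cases hj : j = i
  · subst hj
    simp [List.getD_eq_getElem?_getD, h]
  · rw [Function.update_of_ne hj]
    rw [List.getD_eq_getElem?_getD, List.getD_eq_getElem?_getD, List.getElem?_set_ne (Ne.symm hj)]

theorem cstep_block {m p : ℕ} {r : List ℕ} {cur : ℕ} {ok : Bool} {M u : List Bool} {β : Bool}
    {o : Op} (hM : M.length = 2 * m) : cstep m p (r, cur, ok, M ++ β :: u) o =
      (r.set o.2 (bif β then 1 else 0), (bif β then valB (M.drop m) else valB (M.take m)),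
        ok && decide (combN p o.1 (r.getD o.2 0) (valB (M.take m)) (valB (M.drop m)) % (p + 1) =
          cur % (p + 1)), u) := by
  have h1 : (M ++ β :: u).getD (2 * m) false = β := by
    rw [List.getD_eq_getElem?_getD, List.getElem?_append_right (by omega), hM]
    simp
  have h2 : (M ++ β :: u).take m = M.take m := by
    rw [List.take_append_of_le_length (by omega)]
  have h3 : ((M ++ β :: u).drop m).take m = M.drop m := by
    rw [List.drop_append_of_le_length (by omega), List.take_append_of_le_length (by
      rw [List.length_drop]; omega), List.take_of_length_le (by rw [List.length_drop]; omega)]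
  have h4 : (M ++ β :: u).drop (2 * m + 1) = u := by
    rw [List.drop_append, List.drop_of_length_le (by omega), hM]
    simp
  simp only [cstep, h1, h2, h3, h4]

theorem chain_iff {m p : ℕ} (hp : p < 2 ^ m) (F : List (List (Bool × ℕ))) :
    ∀ (os : List Op) (r : List ℕ) (cur : ℕ) (ok : Bool) (_ : ∀ o ∈ os, o.2 < r.length),
      (evq (blk m os) (fun u => cfin p F (os.foldl (cstep m p) (r, cur, ok, u))) = true ↔
        ok = true ∧ val (leafC F) os (pt p r) = (cur : ZMod (p + 1)))
  | [], r, cur, ok, _ => by
    change cfin p F (r, cur, ok, []) = true ↔ _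
    rw [cfin, Bool.and_eq_true, decide_eq_true_eq, val, ← cast_leafN,
      ZMod.natCast_eq_natCast_iff']
  | (o, i) :: os, r, cur, ok, h => by
    have hi : i < r.length := h (o, i) List.mem_cons_self
    have e : blk m ((o, i) :: os) = List.replicate (2 * m) false ++ (true :: blk m os) := by
      simp [blk]
    rw [e, evq_exists]
    have h0 : ∀ v, ∀ o' ∈ os, o'.2 < (r.set i v).length := fun v o' ho' => by
      rw [List.length_set]; exact h o' (List.mem_cons_of_mem _ ho')
    have key : ∀ M : List Bool, M.length = 2 * m →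
        (evq (true :: blk m os) (fun u => cfin p F (((o, i) :: os).foldl (cstep m p)
          (r, cur, ok, M ++ u))) = true ↔
        (ok = true ∧ combN p o (r.getD i 0) (valB (M.take m)) (valB (M.drop m)) % (p + 1) =
          cur % (p + 1)) ∧
        val (leafC F) os (Function.update (pt p r) i 0) = (valB (M.take m) : ZMod (p + 1)) ∧
        val (leafC F) os (Function.update (pt p r) i 1) = (valB (M.drop m) : ZMod (p + 1))) := by
      intro M hM
      rw [evq, cond_true, Bool.and_eq_true]
      simp only [List.foldl_cons, cstep_block hM, cond_true, cond_false]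
      rw [chain_iff hp F os _ _ _ (h0 _), chain_iff hp F os _ _ _ (h0 _), pt_set hi, pt_set hi,
        Bool.and_eq_true, decide_eq_true_eq, Nat.cast_zero, Nat.cast_one]
      tauto
    constructor
    · rintro ⟨M, hM, hM2⟩
      obtain ⟨⟨h1, h2⟩, h3, h4⟩ := (key M hM).1 hM2
      refine ⟨h1, ?_⟩
      rw [val, h3, h4]
      rw [← ZMod.natCast_eq_natCast_iff', cast_combN] at h2
      exact h2
    · rintro ⟨h1, h2⟩
      obtain ⟨U, hU, hU2⟩ := exists_valB (n := m)
        (V := (val (leafC F) os (Function.update (pt p r) i 0)).val)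
        (lt_of_lt_of_le (ZMod.val_lt _) hp)
      obtain ⟨W, hW, hW2⟩ := exists_valB (n := m)
        (V := (val (leafC F) os (Function.update (pt p r) i 1)).val)
        (lt_of_lt_of_le (ZMod.val_lt _) hp)
      have hl : (U ++ W).length = 2 * m := by rw [List.length_append]; omega
      refine ⟨U ++ W, hl, (key _ hl).2 ?_⟩
      have e1 : (U ++ W).take m = U := by rw [← hU, List.take_left]
      have e2 : (U ++ W).drop m = W := by rw [← hU, List.drop_left]
      rw [e1, e2, hU2, hW2, ZMod.natCast_zmod_val, ZMod.natCast_zmod_val]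
      refine ⟨⟨h1, ?_⟩, rfl, rfl⟩
      rw [← ZMod.natCast_eq_natCast_iff', cast_combN, ZMod.natCast_zmod_val, ZMod.natCast_zmod_val,
        ← h2, val]
      rfl

/-! ### The language -/

/-- An instance: a size parameter in unary, the modulus minus one, a formula, a list of operations,
a point, a variable. -/
abbrev Ins := List Unit × ℕ × List (List (Bool × ℕ)) × List Op × List ℕ × ℕ

/-- The size parameter. -/
def Ins.m (I : Ins) : ℕ := I.1.length

/-- The modulus minus one. -/
def Ins.p (I : Ins) : ℕ := I.2.1

/-- The formula. -/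
def Ins.F (I : Ins) : List (List (Bool × ℕ)) := I.2.2.1

/-- The operations. -/
def Ins.os (I : Ins) : List Op := I.2.2.2.1

/-- The point. -/
def Ins.r (I : Ins) : List ℕ := I.2.2.2.2.1

/-- The variable. -/
def Ins.i (I : Ins) : ℕ := I.2.2.2.2.2

/-- The number `V` codes the polynomial of the function of one variable given by the instance. -/
def Good (I : Ins) (V : ℕ) : Prop :=
  V < 2 ^ (I.m * I.m) ∧ (∀ c ∈ cf I.m V, c ≤ I.p) ∧
    ∀ t ≤ I.p, val (leafC I.F) I.os (Function.update (pt I.p I.r) I.i (t : ZMod (I.p + 1))) =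
      (evalN I.p (cf I.m V) t : ZMod (I.p + 1))

/-- The quantifiers for an instance. -/
def qsI (I : Ins) : List Bool :=
  List.replicate (I.m * I.m) false ++ (List.replicate I.m true ++ blk I.m I.os)

/-- The checks for an instance. -/
def chk (I : Ins) (q b : ℕ) (u : List Bool) : Bool :=
  ((cf I.m (valB (u.take (I.m * I.m)))).all (fun c => decide (c ≤ I.p)) &&
    decide (valB (u.take (I.m * I.m)) % q = b)) &&
  (decide (I.p < valB ((u.drop (I.m * I.m)).take I.m)) ||
    cfin I.p I.F (I.os.foldl (cstep I.m I.p) (I.r.set I.i (valB ((u.drop (I.m * I.m)).take I.m)),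
      evalN I.p (cf I.m (valB (u.take (I.m * I.m)))) (valB ((u.drop (I.m * I.m)).take I.m)), true,
        u.drop (I.m * I.m + I.m))))

/-- Instances with small numbers. -/
def Wf (I : Ins) : Prop := I.p < 2 ^ I.m ∧ I.i < I.r.length ∧ ∀ o ∈ I.os, o.2 < I.r.length

theorem chk_iff {I : Ins} (h : Wf I) (q b : ℕ) :
    evq (qsI I) (chk I q b) = true ↔ ∃ V, Good I V ∧ V % q = b := by
  obtain ⟨hp, hi, ho⟩ := h
  unfold qsI
  rw [evq_exists]
  have key : ∀ M : List Bool, M.length = I.m * I.m →
      (evq (List.replicate I.m true ++ blk I.m I.os) (fun u => chk I q b (M ++ u)) = true ↔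
        Good I (valB M) ∧ valB M % q = b) := by
    intro M hM
    have e1 : ∀ u, (M ++ u).take (I.m * I.m) = M := fun u => by rw [← hM, List.take_left]
    have e2 : ∀ u, (M ++ u).drop (I.m * I.m) = u := fun u => by rw [← hM, List.drop_left]
    have e3 : ∀ u, (M ++ u).drop (I.m * I.m + I.m) = u.drop I.m := fun u => by
      rw [← List.drop_drop, e2]
    have e4 : (fun u => chk I q b (M ++ u)) = fun u =>
        ((cf I.m (valB M)).all (fun c => decide (c ≤ I.p)) && decide (valB M % q = b)) &&
        (decide (I.p < valB (u.take I.m)) ||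
          cfin I.p I.F (I.os.foldl (cstep I.m I.p) (I.r.set I.i (valB (u.take I.m)),
            evalN I.p (cf I.m (valB M)) (valB (u.take I.m)), true, u.drop I.m))) := by
      funext u
      simp only [chk, e1, e2, e3]
    rw [e4, evq_and, Bool.and_eq_true, Bool.and_eq_true, decide_eq_true_eq, List.all_eq_true,
      evq_forall]
    have key2 : ∀ T : List Bool, T.length = I.m →
        (evq (blk I.m I.os) (fun u => decide (I.p < valB ((T ++ u).take I.m)) ||
          cfin I.p I.F (I.os.foldl (cstep I.m I.p) (I.r.set I.i (valB ((T ++ u).take I.m)),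
            evalN I.p (cf I.m (valB M)) (valB ((T ++ u).take I.m)), true, (T ++ u).drop I.m))) =
          true ↔
          (valB T ≤ I.p → val (leafC I.F) I.os (Function.update (pt I.p I.r) I.i
            (valB T : ZMod (I.p + 1))) = (evalN I.p (cf I.m (valB M)) (valB T) :
              ZMod (I.p + 1)))) := by
      intro T hT
      have e5 : ∀ u, (T ++ u).take I.m = T := fun u => by rw [← hT, List.take_left]
      have e6 : ∀ u, (T ++ u).drop I.m = u := fun u => by rw [← hT, List.drop_left]
      simp only [e5, e6]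
      rw [evq_or, Bool.or_eq_true, decide_eq_true_eq, chain_iff hp I.F I.os _ _ _ (fun o hoo => by
        rw [List.length_set]; exact ho o hoo), pt_set hi]
      constructor
      · rintro (h1 | h1) h2
        · omega
        · exact h1.2
      · intro h1
        by_cases h2 : I.p < valB T
        · exact Or.inl h2
        · exact Or.inr ⟨rfl, h1 (by omega)⟩
    constructor
    · rintro ⟨⟨h1, h2⟩, h3⟩
      refine ⟨⟨?_, fun c hc => by simpa using h1 c hc, fun t ht => ?_⟩, h2⟩
      · have := valB_lt M
        rwa [hM] at this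
      · obtain ⟨T, hT, rfl⟩ := exists_valB (n := I.m) (V := t) (lt_of_le_of_lt ht hp)
        exact (key2 T hT).1 (h3 T hT) ht
    · rintro ⟨⟨h1, h2, h3⟩, h4⟩
      exact ⟨⟨fun c hc => by simpa using h2 c hc, h4⟩, fun T hT => (key2 T hT).2 fun h5 =>
        h3 _ h5⟩
  constructor
  · rintro ⟨M, hM, h1⟩
    exact ⟨valB M, (key M hM).1 h1⟩
  · rintro ⟨V, h1, h2⟩
    obtain ⟨M, hM, rfl⟩ := exists_valB h1.1
    exact ⟨M, hM, (key M hM).2 ⟨h1, h2⟩⟩

/-- Queries: a flag, an instance, a modulus and a residue. -/
abbrev Qry := Bool × Ins × ℕ × ℕ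

/-- The quantifiers for a query. -/
def qsQ (o : Option Qry) : List Bool :=
  o.elim [] fun Q => bif Q.1 then qsI Q.2.1 else (qsI Q.2.1).map fun q => !q

/-- The check for a query. -/
def chkQ (o : Option Qry) (u : List Bool) : Bool :=
  o.elim false fun Q => bif Q.1 then chk Q.2.1 Q.2.2.1 Q.2.2.2 u else !chk Q.2.1 Q.2.2.1 Q.2.2.2 u

/-- The language of residues (together with its complement). -/
def LB : Set (List Bool) := {x | evq (qsQ (unbits Qry x)) (chkQ (unbits Qry x)) = true}

theorem mem_LB_true {I : Ins} (h : Wf I) (q b : ℕ) :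
    bits ((true, I, q, b) : Qry) ∈ LB ↔ ∃ V, Good I V ∧ V % q = b := by
  rw [← chk_iff h]
  change evq (qsQ (unbits Qry (bits ((true, I, q, b) : Qry)))) (chkQ (unbits Qry (bits ((true, I,
    q, b) : Qry)))) = true ↔ _
  rw [unbits_bits]
  rfl

theorem mem_LB_false {I : Ins} (h : Wf I) (q b : ℕ) :
    bits ((false, I, q, b) : Qry) ∈ LB ↔ ¬ ∃ V, Good I V ∧ V % q = b := by
  rw [← chk_iff h]
  change evq (qsQ (unbits Qry (bits ((false, I, q, b) : Qry)))) (chkQ (unbits Qry (bits ((false, I,
    q, b) : Qry)))) = true ↔ _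
  rw [unbits_bits]
  change evq ((qsI I).map fun q => !q) (fun u => !chk I q b u) = true ↔ _
  rw [evq_not]
  simp

/-! ### Complexity -/

theorem poly_cstep : NPC.Poly (fun x : (List Unit × ℕ) × (List ℕ × ℕ × Bool × List Bool) × Op =>
    cstep x.1.1.length x.1.2 x.2.1 x.2.2) := by
  unfold cstep
  fun_prop

theorem sz_set_le (l : List ℕ) (i v : ℕ) : sz (l.set i v) ≤ sz l + sz v := by
  induction l generalizing i with
  | nil => simp
  | cons a l ih =>
    cases i with
    | zero => simp; omega
    | succ i =>
      have := ih i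
      simp only [List.set_cons_succ, sz_list_cons]
      omega

theorem sz_valB_le (l : List Bool) : sz (valB l) ≤ 4 * sz l + 1 := by
  have h1 := sz_nat_le (valB l)
  have h2 : (valB l).size ≤ l.length := Nat.size_le.2 (valB_lt l)
  have h3 := length_lt_sz l
  omega

theorem chain_bound (m p : ℕ) : ∀ (os : List Op) (s : List ℕ × ℕ × Bool × List Bool),
    sz (os.foldl (cstep m p) s).1 ≤ sz s.1 + 5 * os.length ∧
    sz (os.foldl (cstep m p) s).2.1 ≤ max (sz s.2.1) (4 * sz s.2.2.2 + 1) ∧
    sz (os.foldl (cstep m p) s).2.2.2 ≤ sz s.2.2.2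
  | [], s => by simp
  | o :: os, s => by
    obtain ⟨h1, h2, h3⟩ := chain_bound m p os (cstep m p s o)
    have h4 : sz (cstep m p s o).1 ≤ sz s.1 + 5 := by
      unfold cstep
      refine (sz_set_le _ _ _).trans ?_
      have : sz (bif s.2.2.2.getD (2 * m) false then 1 else 0 : ℕ) ≤ 5 := by
        cases s.2.2.2.getD (2 * m) false
        · simp [sz_nat]
        · simp [sz_nat]
      omega
    have h5 : sz (cstep m p s o).2.1 ≤ 4 * sz s.2.2.2 + 1 := by
      unfold cstep
      simp only
      cases s.2.2.2.getD (2 * m) false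
      · simp only [cond_false]
        refine (sz_valB_le _).trans ?_
        have := Poly.sz_take_le s.2.2.2 m
        omega
      · simp only [cond_true]
        refine (sz_valB_le _).trans ?_
        have := Poly.sz_take_le (s.2.2.2.drop m) m
        have := Poly.sz_drop_le s.2.2.2 m
        omega
    have h6 : sz (cstep m p s o).2.2.2 ≤ sz s.2.2.2 := Poly.sz_drop_le _ _
    rw [List.foldl_cons, List.length_cons]
    refine ⟨by omega, ?_, by omega⟩
    refine h2.trans (max_le ?_ ?_)
    · exact h5.trans (le_max_right _ _)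
    · exact le_trans (by omega) (le_max_right _ _)

variable {α : Type} [TEnc α]

theorem poly_chain {W : α → List Unit} {p : α → ℕ} {os : α → List Op}
    {s : α → List ℕ × ℕ × Bool × List Bool} (hW : NPC.Poly W) (hp : NPC.Poly p)
    (hos : NPC.Poly os) (hs : NPC.Poly s) :
    NPC.Poly (fun a => (os a).foldl (cstep (W a).length (p a)) (s a)) := by
  obtain ⟨r1, hr1⟩ := hs.sz_le
  obtain ⟨r2, hr2⟩ := hos.sz_le
  refine NPC.Poly.foldl (F := fun a s o => cstep (W a).length (p a) s o) hos hs ?_
    (Polynomial.C 10 * r1 + Polynomial.C 5 * r2 + Polynomial.C 10) ?_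
  · refine (poly_cstep.comp (f := fun x : α × (List ℕ × ℕ × Bool × List Bool) × Op =>
      ((W x.1, p x.1), x.2.1, x.2.2)) ?_).congr fun x => rfl
    fun_prop
  · intro a k hk
    obtain ⟨h1, h2, h3⟩ := chain_bound (W a).length (p a) ((os a).take k) (s a)
    have h4 := hr1 a
    have h5 := hr2 a
    have h6 : ((os a).take k).length ≤ sz (os a) := by
      rw [List.length_take]
      have := length_lt_sz (os a)
      omega
    have h7 : sz (s a) = sz (s a).1 + (sz (s a).2.1 + (sz (s a).2.2.1 + sz (s a).2.2.2 + 1) + 1) +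
        1 := by
      rw [← sz_pair, ← sz_pair, ← sz_pair]
    have h8 : ∀ x : List ℕ × ℕ × Bool × List Bool, sz x ≤ sz x.1 + sz x.2.1 + sz x.2.2.2 + 6 := by
      rintro ⟨x1, x2, x3, x4⟩
      have := sz_bool_le x3
      simp only [sz_pair]
      omega
    have h9 := h8 (((os a).take k).foldl (cstep (W a).length (p a)) (s a))
    have h10 : sz (((os a).take k).foldl (cstep (W a).length (p a)) (s a)).2.1 ≤
        sz (s a).2.1 + (4 * sz (s a).2.2.2 + 1) :=
      h2.trans (max_le (by omega) (by omega))
    simp only [Polynomial.eval_add, Polynomial.eval_mul, Polynomial.eval_C]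
    have e1 : (fun (s : List ℕ × ℕ × Bool × List Bool) (o : Op) => cstep (W a).length (p a) s o) =
      cstep (W a).length (p a) := rfl
    rw [e1]
    omega

theorem poly_cfin {p : α → ℕ} {F : α → List (List (Bool × ℕ))}
    {s : α → List ℕ × ℕ × Bool × List Bool} (hp : NPC.Poly p) (hF : NPC.Poly F)
    (hs : NPC.Poly s) : NPC.Poly (fun a => cfin (p a) (F a) (s a)) := by
  unfold cfin
  fun_prop

theorem uPoly_m {I : α → Ins} (hI : NPC.Poly I) : UPoly (fun a => (I a).m) :=
  UPoly.length (NPC.Poly.fst hI)

@[fun_prop]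
theorem poly_m {I : α → Ins} (hI : NPC.Poly I) : NPC.Poly (fun a => (I a).m) :=
  (uPoly_m hI).toPoly

@[fun_prop]
theorem poly_p {I : α → Ins} (hI : NPC.Poly I) : NPC.Poly (fun a => (I a).p) :=
  NPC.Poly.fst (NPC.Poly.snd hI)

@[fun_prop]
theorem poly_F {I : α → Ins} (hI : NPC.Poly I) : NPC.Poly (fun a => (I a).F) :=
  NPC.Poly.fst (NPC.Poly.snd (NPC.Poly.snd hI))

@[fun_prop]
theorem poly_os {I : α → Ins} (hI : NPC.Poly I) : NPC.Poly (fun a => (I a).os) :=
  NPC.Poly.fst (NPC.Poly.snd (NPC.Poly.snd (NPC.Poly.snd hI)))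

@[fun_prop]
theorem poly_r {I : α → Ins} (hI : NPC.Poly I) : NPC.Poly (fun a => (I a).r) :=
  NPC.Poly.fst (NPC.Poly.snd (NPC.Poly.snd (NPC.Poly.snd (NPC.Poly.snd hI))))

@[fun_prop]
theorem poly_i {I : α → Ins} (hI : NPC.Poly I) : NPC.Poly (fun a => (I a).i) :=
  NPC.Poly.snd (NPC.Poly.snd (NPC.Poly.snd (NPC.Poly.snd (NPC.Poly.snd hI))))

theorem poly_chk {I : α → Ins} {q b : α → ℕ} {u : α → List Bool} (hI : NPC.Poly I)
    (hq : NPC.Poly q) (hb : NPC.Poly b) (hu : NPC.Poly u) :
    NPC.Poly (fun a => chk (I a) (q a) (b a) (u a)) := by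
  have h1 : NPC.Poly (fun a => cf (I a).m (valB ((u a).take ((I a).m * (I a).m)))) :=
    poly_cf (uPoly_m hI) (by fun_prop)
  have h2 : NPC.Poly (fun a => (I a).os.foldl (cstep (I a).m (I a).p)
      ((I a).r.set (I a).i (valB (((u a).drop ((I a).m * (I a).m)).take (I a).m)),
      evalN (I a).p (cf (I a).m (valB ((u a).take ((I a).m * (I a).m))))
        (valB (((u a).drop ((I a).m * (I a).m)).take (I a).m)), true,
        (u a).drop ((I a).m * (I a).m + (I a).m))) := by
    refine poly_chain (W := fun a => (I a).1) (p := fun a => (I a).p) (os := fun a => (I a).os)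
      (NPC.Poly.fst hI) (poly_p hI) (poly_os hI) ?_
    fun_prop
  have h3 := poly_cfin (poly_p hI) (poly_F hI) h2
  unfold chk
  refine NPC.Poly.and (NPC.Poly.and ?_ ?_) (NPC.Poly.or ?_ h3)
  · fun_prop
  · fun_prop
  · fun_prop

theorem poly_qsI {I : α → Ins} (hI : NPC.Poly I) : NPC.Poly (fun a => qsI (I a)) := by
  have h1 := uPoly_m hI
  have h2 : NPC.Poly (fun a => blk (I a).m (I a).os) := by
    unfold blk
    refine NPC.Poly.flatMap (F := fun a _ => List.replicate (2 * (I a).m) false ++ [true])
      (poly_os hI) ?_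
    refine NPC.Poly.append (poly_replicate (w := fun x : α × Op => 2 * (I x.1).m)
      ?_ false) (NPC.Poly.const _)
    exact (UPoly.mul (UPoly.const 2) h1).comp (NPC.Poly.fst NPC.Poly.id)
  unfold qsI
  exact NPC.Poly.append (poly_replicate (UPoly.mul h1 h1) false)
    (NPC.Poly.append (poly_replicate h1 true) h2)

theorem poly_qsQ : NPC.Poly qsQ := by
  unfold qsQ
  refine NPC.Poly.optElim (g := fun _ => []) (h := fun _ (Q : Qry) => bif Q.1 then qsI Q.2.1 else
    (qsI Q.2.1).map fun q => !q) NPC.Poly.id (NPC.Poly.const _) ?_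
  have h := poly_qsI (I := fun x : Option Qry × Qry => x.2.2.1) (by fun_prop)
  fun_prop

theorem poly_chkQ : NPC.Poly (fun x : Option Qry × List Bool => chkQ x.1 x.2) := by
  unfold chkQ
  refine NPC.Poly.optElim (o := fun x : Option Qry × List Bool => x.1) (g := fun _ => false)
    (h := fun x (Q : Qry) => bif Q.1 then chk Q.2.1 Q.2.2.1 Q.2.2.2 x.2 else
      !chk Q.2.1 Q.2.2.1 Q.2.2.2 x.2) (by fun_prop) (NPC.Poly.const _) ?_
  have h := poly_chk (I := fun x : (Option Qry × List Bool) × Qry => x.2.2.1)
    (q := fun x => x.2.2.2.1) (b := fun x => x.2.2.2.2) (u := fun x => x.1.2) (by fun_prop)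
    (by fun_prop) (by fun_prop) (by fun_prop)
  fun_prop

/-- The language of residues is in polynomial space. -/
theorem inPSPACE_LB : InPSPACE LB := by
  refine inPSPACE_of_evq (init := unbits Qry) poly_unbits (qs := fun x => qsQ (unbits Qry x))
    ?_ (φ := chkQ) poly_chkQ fun x => Iff.rfl
  exact poly_qsQ.comp poly_unbits

end Pool.Agent.Helper70K1.SP
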